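import Pool.Agent.MP_91e814_lc.BPQuiet

/-!
A normal block whose tokens of `D` use every colour of the block at least twice absorbs a single
arrival.
-/

namespace MP91e814.BP

namespace Cfg

theorem absorb (C : Cfg) {j k : ℕ} (hNS : C.NSw j k) (hin : C.inn k j ≤ 1)
    (h2 : ∀ x ∈ C.S, blk C.t x = j → x % 11 ≠ 0 → ∃ y₁ ∈ C.S, ∃ y₂ ∈ C.S, y₁ ≠ y₂ ∧
      IsD y₁ ∧ IsD y₂ ∧ blk C.t y₁ = j ∧ blk C.t y₂ = j ∧ C.f y₁ = C.f x ∧ C.f y₂ = C.f x) :
    ∀ u, C.sharp k u → blk C.t u = j → u % 11 = 0 := by
  have huniq : ∀ a b, C.sharp k a → C.sharp k b → a % 11 = 0 → b % 11 = 0 → blk C.t a = j →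
      blk C.t b = j → a = b := by
    intro a b ha hb ha0 hb0 haj hbj
    unfold inn at hin
    rw [Finset.card_le_one] at hin
    refine hin a ?_ b ?_
    · rw [Finset.mem_filter, mem_Sh]; exact ⟨ha, ha0, haj⟩
    · rw [Finset.mem_filter, mem_Sh]; exact ⟨hb, hb0, hbj⟩
  have main : ∀ i ≤ k, ∀ u, C.sharp i u → blk C.t u = j → u % 11 = 0 := by
    intro i
    induction i using Nat.strong_induction_on with
    | _ i ih =>
    intro hi u hs hb
    by_contra h0
    have hV : ¬ C.V i u := fun hV => h0 (hNS i hi u hV hb (u + 1) hs.2).1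
    cases i with
    | zero => exact hV (C.V_zero hs.1)
    | succ i =>
      have ih' := ih i (by omega) (by omega)
      -- what a token of `D` does not see
      have hU : ∀ x, IsD x → blk C.t x = j → ∀ z ∈ C.S,
          (C.un i x z ↔ C.sharp i z ∧ z % 11 = 0 ∧ blk C.t z = j) := by
        intro x hD hbx z hz
        constructor
        · intro hun
          have hnx : C.nonexc i x := by
            intro w hw h10 hsw
            have hbw : blk C.t w = j := by rw [← hbx, ← hw, blk_succ_of_ne]; omega
            have := ih' w hsw hbw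
            omega
          have hcl : ∀ v ∈ C.S, C.E i z v → IsO v ∧ blk C.t v = j := by
            intro v hv hE
            obtain ⟨h1, h2, h3⟩ := C.un_D hD hnx hun hv hE
            exact ⟨h1, by rw [h2, hbx]⟩
          rcases C.exists_rep hz hcl with h0 | ⟨q, hq1, hq2, hq3, hq4, -⟩
          · have hcl0 : ∀ v ∈ C.S, C.E i z v → v % 11 = 0 ∧ blk C.t v = j :=
              fun v hv hE => ⟨h0 v hv hE, (hcl v hv hE).2⟩
            exact ⟨(C.level_zero hNS (by omega) hz hcl0).1, h0 z hz (C.E_refl _ _),
              (hcl z hz (C.E_refl _ _)).2⟩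
          · exact absurd (ih' q hq1 hq4) hq3
        · rintro ⟨h1, h3, h4⟩
          refine C.un_of_level_zero hD hbx ?_
          intro v hv hE
          have : v = z := C.sharp_class_of_not_D h1 (by unfold IsD; omega) hv hE
          rw [this]
          exact ⟨h3, h4⟩
      obtain ⟨y₁, hy₁, y₂, hy₂, hne, hD₁, hD₂, hb₁, hb₂, hf₁, hf₂⟩ := h2 u hs.1 hb h0
      by_cases hD : IsD u
      · have hE : ∀ y, IsD y → blk C.t y = j → C.f y = C.f u → C.E (i + 1) u y := by
          intro y hDy hby hfy
          rw [C.E_succ_iff]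
          refine ⟨hfy.symm, fun z hz => ?_⟩
          rw [hU u hD hb z hz, hU y hDy hby z hz]
        have e1 := C.sharp_class_of_D hs hD hy₁ (hE y₁ hD₁ hb₁ hf₁)
        have e2 := C.sharp_class_of_D hs hD hy₂ (hE y₂ hD₂ hb₂ hf₂)
        exact hne (e1.trans e2.symm)
      · obtain ⟨w, hw, hsw⟩ := C.not_V_of_not_D hs.1 hD hV
        have hbw : blk C.t w = j := by rw [← hb, ← hw, blk_succ_of_ne]; omega
        have hw0 := ih' w hsw hbw
        have hE : C.E (i + 1) u y₁ := by
          rw [C.E_succ_iff]
          refine ⟨hf₁.symm, fun z hz => ?_⟩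
          rw [hU y₁ hD₁ hb₁ z hz, C.un_not_D_iff hD hz]
          constructor
          · rintro ⟨h3, h4⟩
            have : z = w := by omega
            rw [this]
            exact ⟨hsw, hw0, hbw⟩
          · rintro ⟨h3, h4, h5⟩
            have : z = w := huniq z w (C.sharp_mono (by omega) h3) (C.sharp_mono (by omega) hsw)
              h4 hw0 h5 hbw
            rw [this]
            exact ⟨hw, hsw⟩
        have h6 := (hs.2 y₁ hy₁ hE).eq_of_D hD₁
        have : y₁ = u := by omega
        rw [this] at hD₁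
        exact hD hD₁
  exact main k le_rfl

end Cfg

end MP91e814.BP
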