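import Mathlib

/-!
Block paths: the combinatorial frame behind the negative answer to `MP_91e814_lc`.

Positions are natural numbers. A block consists of 11 consecutive positions with offsets
`a = 0, b1 = 1, X1 = 2, b2 = 3, X2 = 4, b3 = 5, X3 = 6, b4 = 7, X4 = 8, d = 9, Y = 10`, and there
are `t` kinds of blocks, in cyclic order. `NN t x m` says that `x` does not see `m`.
-/

namespace MP91e814.BP

/-- The kind of the block (a number below `t`) to which the position `n` belongs. -/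
def blk (t n : ℕ) : ℕ := (n / 11) % t

/-- The positions `X1`, `X2`, `X3`, `X4`, `Y`. -/
def IsD (n : ℕ) : Prop := n % 11 = 2 ∨ n % 11 = 4 ∨ n % 11 = 6 ∨ n % 11 = 8 ∨ n % 11 = 10

/-- The positions `a`, `b1`, `b2`, `b3`, `b4`. -/
def IsO (n : ℕ) : Prop := n % 11 = 0 ∨ n % 11 = 1 ∨ n % 11 = 3 ∨ n % 11 = 5 ∨ n % 11 = 7

/-- The level: `a ↦ 0`, `b_i ↦ i`, `X_i ↦ i`, `Y ↦ 5`. -/
def lv (n : ℕ) : ℕ := (n % 11 + 1) / 2

/-- The zone relation between `x` in `D` and `m` in `O`. -/
def Np (x m : ℕ) : Prop := lv m < lv x ∨ (lv m = lv x ∧ x ≤ m + 1)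

/-- `x` does not see `m`. -/
def NN (t x m : ℕ) : Prop := m + 1 = x ∨ (blk t x = blk t m ∧ IsD x ∧ IsO m ∧ Np x m)

instance (n : ℕ) : Decidable (IsD n) := by unfold IsD; infer_instance
instance (n : ℕ) : Decidable (IsO n) := by unfold IsO; infer_instance
instance (x m : ℕ) : Decidable (Np x m) := by unfold Np; infer_instance
instance (t x m : ℕ) : Decidable (NN t x m) := by unfold NN; infer_instance

/-- A configuration: the number `t` of kinds of blocks, a finite set `S` of positions (the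
tokens) and a colouring with 3 colours. -/
structure Cfg where
  t : ℕ
  ht : 0 < t
  S : Finset ℕ
  f : ℕ → Fin 3

namespace Cfg

variable (C : Cfg)

/-- The stages of the refinement of the colouring. -/
def E : ℕ → ℕ → ℕ → Prop
  | 0, x, y => C.f x = C.f y
  | k + 1, x, y => E k x y ∧ ∀ z ∈ C.S,
      ((∀ u ∈ C.S, E k z u → NN C.t x u) ↔ (∀ u ∈ C.S, E k z u → NN C.t y u))

/-- `x` does not see the stage `k` class of `z`. -/
def un (k x z : ℕ) : Prop := ∀ u ∈ C.S, C.E k z u → NN C.t x u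

/-- The stage `k` class of the token `m` is unseen by its successor `m + 1`. -/
def sharp (k m : ℕ) : Prop := m ∈ C.S ∧ C.un k (m + 1) m

/-- The token `x` sees all classes of all stages below `k`. -/
def V (k x : ℕ) : Prop := x ∈ C.S ∧ ∀ i < k, ∀ z ∈ C.S, ¬ C.un i x z

open scoped Classical in
/-- The set of all sharp tokens of stage `k`. -/
noncomputable def Sh (k : ℕ) : Finset ℕ := C.S.filter (C.sharp k)

/-- Number of sharp tokens `Y` in blocks `j`. -/
noncomputable def out (k j : ℕ) : ℕ := ((C.Sh k).filter fun u => u % 11 = 10 ∧ blk C.t u = j).card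

/-- Number of sharp tokens `a` in blocks `j`. -/
noncomputable def inn (k j : ℕ) : ℕ := ((C.Sh k).filter fun u => u % 11 = 0 ∧ blk C.t u = j).card

/-- The token `x` is not the successor of a sharp `d`. -/
def nonexc (k x : ℕ) : Prop := ∀ w, w + 1 = x → x % 11 = 10 → ¬ C.sharp k w

/-- Weak normality of block `j` up to stage `k`. -/
def NSw (j k : ℕ) : Prop := ∀ i ≤ k, ∀ x, C.V i x → blk C.t x = j → ∀ n, C.un i n x →
  x % 11 = 0 ∧ ∀ u ∈ C.S, C.E i x u → u = x

/-- Normality of block `j` up to stage `k`. -/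
def NS (j k : ℕ) : Prop := ∀ i ≤ k, ∀ x, C.V i x → blk C.t x = j → ∀ n, ¬ C.un i n x

/-- The interval `[l,h]` is an untouched reservoir at stage `k`. -/
def Res (k l h : ℕ) : Prop := (∀ u, l ≤ u → u ≤ h → ¬ C.sharp k u) ∧
  ∀ o < 11, ∀ j < C.t, 5 ≤ (C.S.filter fun x => l < x ∧ x ≤ h ∧ x % 11 = o ∧ blk C.t x = j).card

end Cfg

/-! ### Arithmetic of positions -/

lemma blk_lt {t : ℕ} (ht : 0 < t) (n : ℕ) : blk t n < t := Nat.mod_lt _ ht

lemma blk_succ_of_ne {t n : ℕ} (h : n % 11 ≠ 10) : blk t (n + 1) = blk t n := by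
  have : (n + 1) / 11 = n / 11 := by omega
  simp [blk, this]

lemma blk_succ_of_eq {t n : ℕ} (h : n % 11 = 10) : blk t (n + 1) = (blk t n + 1) % t := by
  have : (n + 1) / 11 = n / 11 + 1 := by omega
  simp [blk, this]

lemma IsD.not_O {n : ℕ} (h : IsD n) : ¬ IsO n := by unfold IsD at h; unfold IsO; omega

lemma IsO.not_D {n : ℕ} (h : IsO n) : ¬ IsD n := fun h' => h'.not_O h

lemma Np.trans {x y m : ℕ} (h : Np x m) (hxy : lv x < lv y ∨ (lv x = lv y ∧ y ≤ x)) : Np y m := by
  unfold Np at *; omega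

lemma Np_total {x y : ℕ} : (∀ m, Np x m → Np y m) ∨ (∀ m, Np y m → Np x m) := by
  unfold Np
  rcases Nat.lt_trichotomy (lv x) (lv y) with h | h | h
  · left; intro m; omega
  · rcases le_total x y with h' | h'
    · right; intro m; omega
    · left; intro m; omega
  · right; intro m; omega

lemma NN.blk_eq {t x m : ℕ} (h : NN t x m) (hx : IsD x) : blk t m = blk t x := by
  rcases h with h | h
  · subst h
    rw [blk_succ_of_ne]
    unfold IsD at hx; omega
  · exact h.1.symm

lemma NN.eq_of_not_D {t x m : ℕ} (h : NN t x m) (hx : ¬ IsD x) : m + 1 = x := by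
  rcases h with h | h
  · exact h
  · exact absurd h.2.1 hx

lemma NN.eq_of_not_O {t x m : ℕ} (h : NN t x m) (hm : ¬ IsO m) : m + 1 = x := by
  rcases h with h | h
  · exact h
  · exact absurd h.2.2.1 hm

lemma NN.eq_of_D {t x m : ℕ} (h : NN t x m) (hm : IsD m) : m + 1 = x := h.eq_of_not_O hm.not_O

lemma NN.blk_eq_blk {t x m m' : ℕ} (h : NN t x m) (h' : NN t x m') : blk t m = blk t m' := by
  by_cases hx : IsD x
  · rw [h.blk_eq hx, h'.blk_eq hx]
  · have h1 := h.eq_of_not_D hx
    have h2 := h'.eq_of_not_D hx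
    have : m = m' := by omega
    rw [this]

/-- An `X` does not see its predecessor `b` also by the zone. -/
lemma NN.zone {t x m : ℕ} (h : NN t x m) (hx : IsD x) (hY : x % 11 ≠ 10) :
    blk t x = blk t m ∧ IsO m ∧ Np x m := by
  rcases h with h | h
  · subst h
    refine ⟨blk_succ_of_ne ?_, ?_, ?_⟩
    · unfold IsD at hx; omega
    · unfold IsD at hx; unfold IsO; omega
    · unfold IsD at hx; unfold Np lv; omega
  · exact ⟨h.1, h.2.2.1, h.2.2.2⟩

lemma NN.of_zone {t x m : ℕ} (hb : blk t x = blk t m) (hx : IsD x) (hm : IsO m) (h : Np x m) :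
    NN t x m := Or.inr ⟨hb, hx, hm, h⟩

lemma NN_succ (t m : ℕ) : NN t (m + 1) m := Or.inl rfl

lemma Np_of_Y {x m : ℕ} (hx : x % 11 = 10) (hm : IsO m) : Np x m := by
  unfold IsO at hm; unfold Np lv; omega

lemma Np_of_a {x m : ℕ} (hx : IsD x) (hm : m % 11 = 0) : Np x m := by
  unfold IsD at hx; unfold Np lv; omega

namespace Cfg

variable (C : Cfg)

/-! ### Stages -/

lemma E_refl (k x : ℕ) : C.E k x x := by
  induction k with
  | zero => rfl
  | succ k ih => exact ⟨ih, fun _ _ => Iff.rfl⟩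

lemma E_symm {k x y : ℕ} (h : C.E k x y) : C.E k y x := by
  induction k with
  | zero => exact Eq.symm h
  | succ k ih => exact ⟨ih h.1, fun z hz => (h.2 z hz).symm⟩

lemma E_trans {k x y z : ℕ} (h : C.E k x y) (h' : C.E k y z) : C.E k x z := by
  induction k with
  | zero => exact Eq.trans h h'
  | succ k ih => exact ⟨ih h.1 h'.1, fun w hw => (h.2 w hw).trans (h'.2 w hw)⟩

lemma E_mono {i k x y : ℕ} (hik : i ≤ k) (h : C.E k x y) : C.E i x y := by
  induction k with
  | zero => obtain rfl : i = 0 := by omega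
            exact h
  | succ k ih =>
    rcases Nat.lt_or_ge i (k + 1) with h' | h'
    · exact ih (by omega) h.1
    · obtain rfl : i = k + 1 := by omega
      exact h

lemma E_f {k x y : ℕ} (h : C.E k x y) : C.f x = C.f y := C.E_mono (Nat.zero_le k) h

lemma un_mono {i k x z : ℕ} (hik : i ≤ k) (h : C.un i x z) : C.un k x z :=
  fun u hu hE => h u hu (C.E_mono hik hE)

lemma un_congr {k x z z' : ℕ} (h : C.E k z z') : C.un k x z ↔ C.un k x z' :=
  ⟨fun h1 u hu hE => h1 u hu (C.E_trans h hE), fun h1 u hu hE => h1 u hu (C.E_trans (C.E_symm h) hE)⟩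

lemma E_succ_un {k x y z : ℕ} (h : C.E (k + 1) x y) (hz : z ∈ C.S) : C.un k x z ↔ C.un k y z :=
  h.2 z hz

lemma un_iff_of_E {i k x y z : ℕ} (h : C.E k x y) (hik : i < k) (hz : z ∈ C.S) :
    C.un i x z ↔ C.un i y z := C.E_succ_un (C.E_mono (i := i + 1) hik h) hz

/-- A class of an earlier stage is unseen iff all its later classes are. -/
lemma un_iff_forall {i k x z : ℕ} (hik : i ≤ k) :
    C.un i x z ↔ ∀ u ∈ C.S, C.E i z u → C.un k x u := by
  constructor
  · intro h u hu hE w hw hE'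
    exact h w hw (C.E_trans hE (C.E_mono hik hE'))
  · intro h u hu hE
    exact h u hu hE u hu (C.E_refl k u)

lemma E_succ_iff {k x y : ℕ} :
    C.E (k + 1) x y ↔ C.f x = C.f y ∧ ∀ z ∈ C.S, (C.un k x z ↔ C.un k y z) := by
  constructor
  · intro h
    exact ⟨C.E_f h, fun z hz => C.E_succ_un h hz⟩
  · rintro ⟨hf, h⟩
    have key : ∀ i, i ≤ k + 1 → C.E i x y := by
      intro i
      induction i with
      | zero => intro _; exact hf
      | succ i ih =>
        intro hi
        refine ⟨ih (by omega), fun z hz => ?_⟩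
        have hik : i ≤ k := by omega
        change C.un i x z ↔ C.un i y z
        rw [C.un_iff_forall hik, C.un_iff_forall hik]
        constructor
        · intro h1 u hu hE
          exact (h u hu).1 (h1 u hu hE)
        · intro h1 u hu hE
          exact (h u hu).2 (h1 u hu hE)
    exact key (k + 1) le_rfl

lemma sharp_mem {k m : ℕ} (h : C.sharp k m) : m ∈ C.S := h.1

lemma sharp_mono {i k m : ℕ} (hik : i ≤ k) (h : C.sharp i m) : C.sharp k m :=
  ⟨h.1, C.un_mono hik h.2⟩

lemma mem_Sh {k m : ℕ} : m ∈ C.Sh k ↔ C.sharp k m := by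
  classical
  unfold Sh
  rw [Finset.mem_filter]
  exact ⟨fun h => h.2, fun h => ⟨h.1, h⟩⟩

lemma Sh_mono {i k : ℕ} (hik : i ≤ k) : C.Sh i ⊆ C.Sh k := by
  intro m hm
  rw [mem_Sh] at *
  exact C.sharp_mono hik hm

lemma Sh_subset (k : ℕ) : C.Sh k ⊆ C.S := fun m hm => ((C.mem_Sh).1 hm).1

/-- The class of an unseen token, seen from a position outside `D`. -/
lemma un_not_D {k x z u : ℕ} (hx : ¬ IsD x) (h : C.un k x z) (hu : u ∈ C.S) (hE : C.E k z u) :
    u + 1 = x := (h u hu hE).eq_of_not_D hx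

lemma un_not_D_sharp {k x z : ℕ} (hx : ¬ IsD x) (h : C.un k x z) (hz : z ∈ C.S) :
    z + 1 = x ∧ C.sharp k z := by
  have h1 := C.un_not_D hx h hz (C.E_refl k z)
  subst h1
  exact ⟨rfl, hz, h⟩

lemma un_not_D_iff {k x z : ℕ} (hx : ¬ IsD x) (hz : z ∈ C.S) :
    C.un k x z ↔ z + 1 = x ∧ C.sharp k z := by
  constructor
  · intro h
    exact C.un_not_D_sharp hx h hz
  · rintro ⟨rfl, h⟩
    exact h.2

/-- A sharp token whose successor is not in `D` is alone in its class. -/
lemma sharp_class_of_not_D {k m u : ℕ} (h : C.sharp k m) (hm : ¬ IsD (m + 1)) (hu : u ∈ C.S)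
    (hE : C.E k m u) : u = m := by
  have := C.un_not_D hm h.2 hu hE
  omega

/-- A token in `D` which is sharp is alone in its class. -/
lemma sharp_class_of_D {k m u : ℕ} (h : C.sharp k m) (hm : IsD m) (hu : u ∈ C.S)
    (hE : C.E k m u) : u = m := by
  refine C.sharp_class_of_not_D h ?_ hu hE
  unfold IsD at *; omega

/-- The class of an unseen token, seen from a nonexceptional position in `D`. -/
lemma un_D {k x z u : ℕ} (hx : IsD x) (hn : C.nonexc k x) (h : C.un k x z)
    (hu : u ∈ C.S) (hE : C.E k z u) : IsO u ∧ blk C.t u = blk C.t x ∧ Np x u := by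
  have h1 := h u hu hE
  by_cases hY : x % 11 = 10
  · rcases h1 with h2 | h2
    · exfalso
      refine hn u h2 hY ⟨hu, ?_⟩
      rw [h2]
      exact (C.un_congr hE).1 h
    · exact ⟨h2.2.2.1, h2.1.symm, h2.2.2.2⟩
  · obtain ⟨h2, h3, h4⟩ := h1.zone hx hY
    exact ⟨h3, h2.symm, h4⟩

lemma nonexc_of_ne {k x : ℕ} (h : x % 11 ≠ 10) : C.nonexc k x := fun _ _ h' => absurd h' h

lemma nonexc_of_mono {i k x : ℕ} (hik : i ≤ k) (h : C.nonexc k x) : C.nonexc i x :=
  fun w hw h10 hs => h w hw h10 (C.sharp_mono hik hs)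

/-! ### Representatives of classes contained in the zone -/

/-- The representative of a class contained in `O` of one block. -/
lemma exists_rep {k z j : ℕ} (hz : z ∈ C.S)
    (h : ∀ u ∈ C.S, C.E k z u → IsO u ∧ blk C.t u = j) :
    (∀ u ∈ C.S, C.E k z u → u % 11 = 0) ∨
    ∃ q, C.sharp k q ∧ IsO q ∧ q % 11 ≠ 0 ∧ blk C.t q = j ∧ C.E k z q ∧
      (∀ u ∈ C.S, C.E k z u → lv u < lv q ∨ (lv u = lv q ∧ q ≤ u)) ∧
      ∀ x, IsD x → blk C.t x = j → (C.un k x z ↔ Np x q) := by
  classical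
  by_cases h0 : ∀ u ∈ C.S, C.E k z u → u % 11 = 0
  · left; exact h0
  right
  push Not at h0
  obtain ⟨u₀, hu₀, hE₀, hu₀0⟩ := h0
  set cl := C.S.filter (fun u => C.E k z u) with hcl
  have hne : cl.Nonempty := ⟨z, by simp [hcl, hz, C.E_refl]⟩
  obtain ⟨w, hw, hwmax⟩ := cl.exists_max_image lv hne
  set cl' := cl.filter (fun u => lv u = lv w) with hcl'
  have hne' : cl'.Nonempty := ⟨w, by simp [hcl', hw]⟩
  obtain ⟨q, hq, hqmin⟩ := cl'.exists_min_image id hne'
  have hqS : q ∈ C.S ∧ C.E k z q ∧ lv q = lv w := by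
    simp only [hcl', hcl, Finset.mem_filter] at hq
    exact ⟨hq.1.1, hq.1.2, hq.2⟩
  have hcomp : ∀ u ∈ C.S, C.E k z u → lv u < lv q ∨ (lv u = lv q ∧ q ≤ u) := by
    intro u hu hE
    have h1 : u ∈ cl := by simp [hcl, hu, hE]
    have h2 := hwmax u h1
    rcases Nat.lt_or_ge (lv u) (lv q) with h3 | h3
    · left; exact h3
    · right
      have h4 : lv u = lv w := by omega
      have h5 : u ∈ cl' := by simp [hcl', h1, h4]
      have := hqmin u h5
      simp only [id] at this
      exact ⟨by omega, this⟩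
  have hqO := h q hqS.1 hqS.2.1
  have hq0 : q % 11 ≠ 0 := by
    intro hq0
    have h1 := hcomp u₀ hu₀ hE₀
    have h2 := (h u₀ hu₀ hE₀).1
    unfold IsO at h2
    unfold lv at h1
    omega
  have hD : IsD (q + 1) := by
    have := hqO.1
    unfold IsO at this; unfold IsD; omega
  have key : ∀ x, IsD x → blk C.t x = j → Np x q → C.un k x z := by
    intro x hx hxj hN u hu hE
    have h1 := hcomp u hu hE
    obtain ⟨h2, h3⟩ := h u hu hE
    refine NN.of_zone (by rw [hxj, h3]) hx h2 ?_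
    unfold Np at *; omega
  refine ⟨q, ⟨hqS.1, ?_⟩, hqO.1, hq0, hqO.2, hqS.2.1, hcomp, ?_⟩
  · rw [← C.un_congr hqS.2.1]
    refine key (q + 1) hD ?_ ?_
    · rw [blk_succ_of_ne, hqO.2]
      have := hqO.1
      unfold IsO at this; omega
    · have := hqO.1
      unfold IsO at this; unfold Np lv; omega
  · intro x hx hxj
    refine ⟨fun hun => ?_, key x hx hxj⟩
    have h1 := hun q hqS.1 hqS.2.1
    rcases h1 with h2 | h2
    · subst h2
      have := hqO.1
      unfold IsO at this; unfold IsD at hx; unfold Np lv; omega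
    · exact h2.2.2.2

/-- A class of tokens `a` of one block is unseen by all of `D` of that block. -/
lemma un_of_level_zero {k x z j : ℕ} (hx : IsD x) (hxj : blk C.t x = j)
    (h : ∀ u ∈ C.S, C.E k z u → u % 11 = 0 ∧ blk C.t u = j) : C.un k x z := by
  intro u hu hE
  obtain ⟨h1, h2⟩ := h u hu hE
  exact NN.of_zone (by rw [hxj, h2]) hx (by unfold IsO; omega) (Np_of_a hx h1)

/-- The class of a sharp token of type `b`. -/
lemma sharp_b_class {k q u : ℕ} (h : C.sharp k q) (hq : IsO q) (hq0 : q % 11 ≠ 0) (hu : u ∈ C.S)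
    (hE : C.E k q u) :
    IsO u ∧ blk C.t u = blk C.t q ∧ (lv u < lv q ∨ (lv u = lv q ∧ q ≤ u)) := by
  have hD : IsD (q + 1) := by unfold IsO at hq; unfold IsD; omega
  have hb : blk C.t (q + 1) = blk C.t q := blk_succ_of_ne (by unfold IsO at hq; omega)
  obtain ⟨h1, h2, h3⟩ := C.un_D hD (C.nonexc_of_ne (by unfold IsO at hq; omega)) h.2 hu hE
  refine ⟨h1, by rw [h2, hb], ?_⟩
  have h4 : lv (q + 1) = lv q := by unfold IsO at hq; unfold lv; omega
  unfold Np at h3
  rw [h4] at h3
  omega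

/-- If `q` is a sharp `b` then `x` in `D` of its block does not see its class iff `Np x q`. -/
lemma un_sharp_b {k q x : ℕ} (h : C.sharp k q) (hq : IsO q) (hq0 : q % 11 ≠ 0) (hx : IsD x)
    (hxj : blk C.t x = blk C.t q) : C.un k x q ↔ Np x q := by
  constructor
  · intro hun
    rcases hun q h.1 (C.E_refl k q) with h2 | h2
    · subst h2
      unfold IsO at hq; unfold IsD at hx; unfold Np lv; omega
    · exact h2.2.2.2
  · intro hN u hu hE
    obtain ⟨h1, h2, h3⟩ := C.sharp_b_class h hq hq0 hu hE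
    refine NN.of_zone (by rw [hxj, h2]) hx h1 ?_
    unfold Np at *; omega

/-- A class contains at most one sharp token. -/
lemma sharp_unique {k m m' : ℕ} (h : C.sharp k m) (h' : C.sharp k m') (hE : C.E k m m') :
    m = m' := by
  by_cases hm : IsD (m + 1)
  · by_cases hm' : IsD (m' + 1)
    · have c1 := C.un_congr hE (x := m' + 1)
      have c2 := C.un_congr (C.E_symm hE) (x := m + 1)
      by_cases hd : m % 11 = 9
      · -- `m` is a `d`
        have h1 := (h'.2 m h.1 (C.E_symm hE))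
        rcases h1 with h1 | h1
        · omega
        · exfalso; have := h1.2.2.1; unfold IsO at this; omega
      · by_cases hd' : m' % 11 = 9
        · have h1 := (h.2 m' h'.1 hE)
          rcases h1 with h1 | h1
          · omega
          · exfalso; have := h1.2.2.1; unfold IsO at this; omega
        · have hO : IsO m ∧ m % 11 ≠ 0 := by unfold IsD at hm; unfold IsO; omega
          have hO' : IsO m' ∧ m' % 11 ≠ 0 := by unfold IsD at hm'; unfold IsO; omega
          have r1 := C.sharp_b_class h hO.1 hO.2 h'.1 hE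
          have r2 := C.sharp_b_class h' hO'.1 hO'.2 h.1 (C.E_symm hE)
          omega
    · exact C.sharp_class_of_not_D h' hm' h.1 (C.E_symm hE)
  · exact (C.sharp_class_of_not_D h hm h'.1 hE).symm

/-! ### Equality of types of tokens of `D` -/

/-- Two nonexceptional tokens of `D` in one block with the same colour and the same position
relative to all sharp `b` are equivalent. -/
lemma gcl {k x y j : ℕ} (hx : IsD x) (hy : IsD y) (hxj : blk C.t x = j) (hyj : blk C.t y = j)
    (hf : C.f x = C.f y) (nx : C.nonexc k x) (ny : C.nonexc k y)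
    (h : ∀ q, C.sharp k q → IsO q → q % 11 ≠ 0 → blk C.t q = j → (Np x q ↔ Np y q)) :
    C.E (k + 1) x y := by
  have main : ∀ x y, IsD x → IsD y → blk C.t x = j → blk C.t y = j → C.nonexc k x →
      (∀ q, C.sharp k q → IsO q → q % 11 ≠ 0 → blk C.t q = j → (Np x q ↔ Np y q)) →
      ∀ z ∈ C.S, C.un k x z → C.un k y z := by
    intro x y hx hy hxj hyj nx h z hz hun
    have hcl : ∀ u ∈ C.S, C.E k z u → IsO u ∧ blk C.t u = j := by
      intro u hu hE
      obtain ⟨h1, h2, h3⟩ := C.un_D hx nx hun hu hE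
      exact ⟨h1, by rw [h2, hxj]⟩
    rcases C.exists_rep hz hcl with h0 | ⟨q, hq1, hq2, hq3, hq4, hq5, hq6, hq7⟩
    · exact C.un_of_level_zero hy hyj (fun u hu hE => ⟨h0 u hu hE, (hcl u hu hE).2⟩)
    · rw [hq7 y hy hyj, ← h q hq1 hq2 hq3 hq4, ← hq7 x hx hxj]
      exact hun
  rw [C.E_succ_iff]
  refine ⟨hf, fun z hz => ⟨main x y hx hy hxj hyj nx h z hz, ?_⟩⟩
  exact main y x hy hx hyj hxj ny (fun q h1 h2 h3 h4 => (h q h1 h2 h3 h4).symm) z hz

/-! ### The tokens that see everything -/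

lemma V_mem {k x : ℕ} (h : C.V k x) : x ∈ C.S := h.1

lemma V_zero {x : ℕ} (h : x ∈ C.S) : C.V 0 x := ⟨h, fun i hi => absurd hi (Nat.not_lt_zero i)⟩

lemma V_anti {i k x : ℕ} (hik : i ≤ k) (h : C.V k x) : C.V i x :=
  ⟨h.1, fun i' hi' => h.2 i' (by omega)⟩

lemma V_succ_iff {k x : ℕ} : C.V (k + 1) x ↔ x ∈ C.S ∧ ∀ z ∈ C.S, ¬ C.un k x z := by
  constructor
  · intro h
    exact ⟨h.1, h.2 k (by omega)⟩
  · rintro ⟨h1, h2⟩
    exact ⟨h1, fun i hi z hz hun => h2 z hz (C.un_mono (by omega) hun)⟩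

lemma exists_un_of_not_V {k x : ℕ} (hx : x ∈ C.S) (h : ¬ C.V (k + 1) x) :
    ∃ z ∈ C.S, C.un k x z := by
  by_contra hcon
  push Not at hcon
  exact h (C.V_succ_iff.2 ⟨hx, hcon⟩)

/-- The tokens of one colour that see everything are equivalent. -/
lemma V_E {k x y : ℕ} (hx : C.V k x) (hy : C.V k y) (hf : C.f x = C.f y) : C.E k x y := by
  cases k with
  | zero => exact hf
  | succ k =>
    rw [C.E_succ_iff]
    refine ⟨hf, fun z hz => ⟨fun h => absurd h (hx.2 k (by omega) z hz),
      fun h => absurd h (hy.2 k (by omega) z hz)⟩⟩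

/-- A token equivalent to one that sees everything sees everything. -/
lemma V_of_E {k x y : ℕ} (hx : C.V k x) (hy : y ∈ C.S) (hE : C.E k x y) : C.V k y := by
  cases k with
  | zero => exact C.V_zero hy
  | succ k =>
    rw [C.V_succ_iff]
    refine ⟨hy, fun z hz hun => ?_⟩
    exact hx.2 k (by omega) z hz ((C.E_succ_un hE hz).2 hun)

/-- A token outside `D` sees everything up to stage `k` iff its predecessor is not sharp. -/
lemma V_of_not_D {k x : ℕ} (hx : x ∈ C.S) (hD : ¬ IsD x) (h : ∀ w, w + 1 = x → ¬ C.sharp k w) :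
    C.V (k + 1) x := by
  rw [C.V_succ_iff]
  refine ⟨hx, fun z hz hun => ?_⟩
  obtain ⟨h1, h2⟩ := C.un_not_D_sharp hD hun hz
  exact h z h1 h2

lemma not_V_of_not_D {k x : ℕ} (hx : x ∈ C.S) (hD : ¬ IsD x) (h : ¬ C.V (k + 1) x) :
    ∃ w, w + 1 = x ∧ C.sharp k w := by
  by_contra hcon
  push Not at hcon
  exact h (C.V_of_not_D hx hD hcon)

variable {C} in
lemma NS.toNSw {j k : ℕ} (h : C.NS j k) : C.NSw j k :=
  fun i hi x hx hj n hun => absurd hun (h i hi x hx hj n)

variable {C} in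
lemma NS.anti {j k i : ℕ} (hik : i ≤ k) (h : C.NS j k) : C.NS j i :=
  fun i' hi' => h i' (by omega)

variable {C} in
lemma NSw.anti {j k i : ℕ} (hik : i ≤ k) (h : C.NSw j k) : C.NSw j i :=
  fun i' hi' => h i' (by omega)

variable {C} in
lemma Res.anti {k i l h : ℕ} (hik : i ≤ k) (hR : C.Res k l h) : C.Res i l h :=
  ⟨fun u h1 h2 hs => hR.1 u h1 h2 (C.sharp_mono hik hs), hR.2⟩

end Cfg

end MP91e814.BP
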