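import Pool.Agent.MP_91e814_lc.BPBase

/-!
Blocks whose `D` tokens have one colour with at most one exception: the number of sharp `Y` tokens
goes down.
-/

namespace MP91e814.BP

namespace Cfg

namespace Mono

variable (C : Cfg)

open scoped Classical in
/-- The sharp tokens of stage `k` of offset `r` in block `j`. -/
noncomputable def P (k r j : ℕ) : Finset ℕ :=
  (C.Sh k).filter fun u => u % 11 = r ∧ blk C.t u = j

open scoped Classical in
/-- Those of colour `c`. -/
noncomputable def Pc (k r j : ℕ) (c : Fin 3) : Finset ℕ := (P C k r j).filter fun u => C.f u = c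

open scoped Classical in
/-- Those of another colour. -/
noncomputable def Pe (k r j : ℕ) (c : Fin 3) : Finset ℕ := (P C k r j).filter fun u => ¬ C.f u = c

open scoped Classical in
/-- The sharp tokens of type `b` in block `j`. -/
noncomputable def Q (k j : ℕ) : Finset ℕ :=
  (C.Sh k).filter fun q => IsO q ∧ q % 11 ≠ 0 ∧ blk C.t q = j

open scoped Classical in
/-- The rank of `x` with respect to the sharp tokens of type `b`. -/
noncomputable def g (k j x : ℕ) : ℕ := ((Q C k j).filter fun q => Np x q).card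

lemma mem_P {k r j u : ℕ} : u ∈ P C k r j ↔ C.sharp k u ∧ u % 11 = r ∧ blk C.t u = j := by
  unfold P; rw [Finset.mem_filter, mem_Sh]

lemma mem_Pc {k r j u : ℕ} {c : Fin 3} :
    u ∈ Pc C k r j c ↔ (C.sharp k u ∧ u % 11 = r ∧ blk C.t u = j) ∧ C.f u = c := by
  unfold Pc; rw [Finset.mem_filter, mem_P]

lemma mem_Pe {k r j u : ℕ} {c : Fin 3} :
    u ∈ Pe C k r j c ↔ (C.sharp k u ∧ u % 11 = r ∧ blk C.t u = j) ∧ C.f u ≠ c := by
  unfold Pe; rw [Finset.mem_filter, mem_P]

lemma mem_Q {k j q : ℕ} :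
    q ∈ Q C k j ↔ C.sharp k q ∧ IsO q ∧ q % 11 ≠ 0 ∧ blk C.t q = j := by
  unfold Q; rw [Finset.mem_filter, mem_Sh]

lemma card_P (k r j : ℕ) (c : Fin 3) : (P C k r j).card = (Pc C k r j c).card + (Pe C k r j c).card := by
  classical
  unfold Pc Pe
  rw [Finset.card_filter_add_card_filter_not]

lemma out_eq (k j : ℕ) : C.out k j = (P C k 10 j).card := rfl

lemma inn_eq (k j : ℕ) : C.inn k j = (P C k 0 j).card := rfl

/-- The predecessor of a sharp token of type `b` or `d` is sharp at an earlier stage. -/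
lemma pred_sharp' {j k i u : ℕ} (hNS : C.NSw j k) (hi : i ≤ k) (hu : C.sharp i u)
    (hb : blk C.t u = j) (hD : ¬ IsD u) (h0 : u % 11 ≠ 0) :
    ∃ i' w, i = i' + 1 ∧ w + 1 = u ∧ C.sharp i' w := by
  have hV : ¬ C.V i u := fun hV => h0 (hNS i hi u hV hb (u + 1) hu.2).1
  cases i with
  | zero => exact absurd (C.V_zero hu.1) hV
  | succ i =>
    obtain ⟨w, hw, hs⟩ := C.not_V_of_not_D hu.1 hD hV
    exact ⟨i, w, rfl, hw, hs⟩

/-- (1) -/
lemma cut_le {j k r : ℕ} (hNS : C.NSw j (k + 1)) (hr : r = 0 ∨ r = 2 ∨ r = 4 ∨ r = 6 ∨ r = 8) :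
    (P C k (r + 1) j).card ≤ (P C (k + 1) r j).card := by
  have key : ∀ u ∈ P C k (r + 1) j, 0 < u ∧ u - 1 ∈ P C (k + 1) r j := by
    intro u hu
    obtain ⟨h1, h2, h3⟩ := (mem_P C).1 hu
    obtain ⟨i', w, hi', hw, hs⟩ := pred_sharp' C hNS (Nat.le_succ k) h1 h3
      (by unfold IsD; omega) (by omega)
    subst hw
    refine ⟨by omega, ?_⟩
    rw [Nat.add_sub_cancel, mem_P]
    refine ⟨C.sharp_mono (by omega) hs, by omega, ?_⟩
    rw [← h3, blk_succ_of_ne]
    omega
  refine Finset.card_le_card_of_injOn (fun u => u - 1) (fun u hu => (key u hu).2) ?_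
  intro u hu v hv huv
  have h1 := (key u hu).1
  have h2 := (key v hv).1
  simp only at huv
  omega

/-- The exceptional tokens. -/
lemma sum_e {j k : ℕ} {c : Fin 3}
    (hm : (C.S.filter fun x => IsD x ∧ blk C.t x = j ∧ C.f x ≠ c).card ≤ 1) :
    (Pe C k 2 j c).card + (Pe C k 4 j c).card + (Pe C k 6 j c).card + (Pe C k 8 j c).card
      + (Pe C k 10 j c).card ≤ 1 := by
  classical
  rw [Finset.card_le_one_iff_subset_singleton] at hm
  obtain ⟨w, hw⟩ := hm
  have key : ∀ r, (r = 2 ∨ r = 4 ∨ r = 6 ∨ r = 8 ∨ r = 10) →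
      (Pe C k r j c).card ≤ if w % 11 = r then 1 else 0 := by
    intro r hr
    have h1 : Pe C k r j c ⊆ ({w} : Finset ℕ).filter (fun x => x % 11 = r) := by
      intro x hx
      obtain ⟨⟨h1, h2, h3⟩, h4⟩ := (mem_Pe C).1 hx
      have h5 : x ∈ C.S.filter fun x => IsD x ∧ blk C.t x = j ∧ C.f x ≠ c := by
        rw [Finset.mem_filter]
        exact ⟨h1.1, by unfold IsD; omega, h3, h4⟩
      rw [Finset.mem_filter]
      exact ⟨hw h5, h2⟩
    refine (Finset.card_le_card h1).trans ?_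
    rw [Finset.filter_singleton]
    split_ifs <;> simp
  have k2 := key 2 (by omega)
  have k4 := key 4 (by omega)
  have k6 := key 6 (by omega)
  have k8 := key 8 (by omega)
  have k10 := key 10 (by omega)
  split_ifs at * <;> omega

/-- Reservoir tokens of colour `c`. -/
lemma exists_two {j k l h r : ℕ} {c : Fin 3} (hj : j < C.t) (hR : C.Res k l h)
    (hm : (C.S.filter fun x => IsD x ∧ blk C.t x = j ∧ C.f x ≠ c).card ≤ 1)
    (hr : r = 2 ∨ r = 4 ∨ r = 6 ∨ r = 8 ∨ r = 10) :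
    ∃ y₁ y₂, y₁ ≠ y₂ ∧ (y₁ ∈ C.S ∧ l < y₁ ∧ y₁ ≤ h ∧ y₁ % 11 = r ∧ blk C.t y₁ = j ∧ C.f y₁ = c) ∧
      (y₂ ∈ C.S ∧ l < y₂ ∧ y₂ ≤ h ∧ y₂ % 11 = r ∧ blk C.t y₂ = j ∧ C.f y₂ = c) := by
  classical
  have h5 := hR.2 r (by omega) j hj
  set A := C.S.filter fun x => l < x ∧ x ≤ h ∧ x % 11 = r ∧ blk C.t x = j with hA
  have h1 := Finset.card_filter_add_card_filter_not (s := A) (fun x => C.f x = c)
  have h2 : (A.filter fun x => ¬ C.f x = c).card ≤ 1 := by
    refine (Finset.card_le_card ?_).trans hm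
    intro x hx
    simp only [hA, Finset.mem_filter] at hx
    rw [Finset.mem_filter]
    exact ⟨hx.1.1, by unfold IsD; omega, hx.1.2.2.2.2, hx.2⟩
  have h3 : 1 < (A.filter fun x => C.f x = c).card := by omega
  obtain ⟨y₁, hy₁, y₂, hy₂, hne⟩ := Finset.one_lt_card.1 h3
  simp only [hA, Finset.mem_filter] at hy₁ hy₂
  exact ⟨y₁, y₂, hne, ⟨hy₁.1.1, hy₁.1.2.1, hy₁.1.2.2.1, hy₁.1.2.2.2.1, hy₁.1.2.2.2.2, hy₁.2⟩,
    ⟨hy₂.1.1, hy₂.1.2.1, hy₂.1.2.2.1, hy₂.1.2.2.2.1, hy₂.1.2.2.2.2, hy₂.2⟩⟩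

lemma res_nonexc {k l h y : ℕ} (hR : C.Res k l h) (h1 : l < y) (h2 : y ≤ h) : C.nonexc k y := by
  intro w hw _ hs
  exact hR.1 w (by omega) (by omega) hs

/-- (2) -/
lemma out_le {j k l h : ℕ} {c : Fin 3} (hj : j < C.t) (hNS : C.NSw j (k + 1))
    (hR : C.Res k l h)
    (hm : (C.S.filter fun x => IsD x ∧ blk C.t x = j ∧ C.f x ≠ c).card ≤ 1) :
    C.out (k + 1) j ≤ (P C (k + 1) 8 j).card + (Pe C (k + 1) 10 j c).card := by
  rw [out_eq, card_P C (k + 1) 10 j c]
  refine Nat.add_le_add_right ?_ _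
  refine le_trans ?_ (cut_le C hNS (r := 8) (by omega))
  have key : ∀ u ∈ Pc C (k + 1) 10 j c, 0 < u ∧ u - 1 ∈ P C k (8 + 1) j := by
    intro u hu
    obtain ⟨⟨h1, h2, h3⟩, h4⟩ := (mem_Pc C).1 hu
    have hex : ¬ C.nonexc k u := by
      intro hn
      obtain ⟨y₁, y₂, hne, ⟨a1, a2, a3, a4, a5, a6⟩, ⟨b1, b2, b3, b4, b5, b6⟩⟩ :=
        exists_two C hj hR hm (r := 10) (by omega)
      have hu' : IsD u := by unfold IsD; omega
      have e1 : C.E (k + 1) u y₁ := by
        refine C.gcl hu' (by unfold IsD; omega) h3 a5 (by rw [h4, a6]) hn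
          (res_nonexc C hR a2 a3) ?_
        intro q _ hq _ _
        exact ⟨fun _ => Np_of_Y a4 hq, fun _ => Np_of_Y h2 hq⟩
      have e2 : C.E (k + 1) u y₂ := by
        refine C.gcl hu' (by unfold IsD; omega) h3 b5 (by rw [h4, b6]) hn
          (res_nonexc C hR b2 b3) ?_
        intro q _ hq _ _
        exact ⟨fun _ => Np_of_Y b4 hq, fun _ => Np_of_Y h2 hq⟩
      exact hne ((C.sharp_class_of_D h1 hu' a1 e1).trans (C.sharp_class_of_D h1 hu' b1 e2).symm)
    unfold nonexc at hex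
    push Not at hex
    obtain ⟨w, hw, _, hs⟩ := hex
    subst hw
    refine ⟨by omega, ?_⟩
    rw [Nat.add_sub_cancel, mem_P]
    refine ⟨hs, by omega, ?_⟩
    rw [← h3, blk_succ_of_ne]
    omega
  refine Finset.card_le_card_of_injOn (fun u => u - 1) (fun u hu => (key u hu).2) ?_
  intro u hu v hv huv
  have h1 := (key u hu).1
  have h2 := (key v hv).1
  simp only at huv
  omega

/-- Equal ranks mean equal sets. -/
lemma Np_of_g_eq {k j x y : ℕ} (h : g C k j x = g C k j y) :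
    ∀ q, C.sharp k q → IsO q → q % 11 ≠ 0 → blk C.t q = j → (Np x q ↔ Np y q) := by
  classical
  have main : ∀ x y, (∀ m, Np x m → Np y m) → g C k j x = g C k j y →
      ∀ q, C.sharp k q → IsO q → q % 11 ≠ 0 → blk C.t q = j → (Np x q ↔ Np y q) := by
    intro x y hxy hg q h1 h2 h3 h4
    have hq : q ∈ Q C k j := (mem_Q C).2 ⟨h1, h2, h3, h4⟩
    have hsub : ((Q C k j).filter fun q => Np x q) ⊆ ((Q C k j).filter fun q => Np y q) := by
      intro m hm
      rw [Finset.mem_filter] at *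
      exact ⟨hm.1, hxy m hm.2⟩
    have heq := Finset.eq_of_subset_of_card_le hsub (le_of_eq hg.symm)
    refine ⟨hxy q, fun hy => ?_⟩
    have : q ∈ (Q C k j).filter fun q => Np x q := by
      rw [heq, Finset.mem_filter]; exact ⟨hq, hy⟩
    exact (Finset.mem_filter.1 this).2
  rcases Np_total (x := x) (y := y) with h' | h'
  · exact main x y h' h
  · intro q h1 h2 h3 h4
    exact (main y x h' h.symm q h1 h2 h3 h4).symm

/-- The rank is injective on sharp `X` tokens of one colour. -/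
lemma g_inj {k j x y : ℕ} (hx : C.sharp (k + 1) x) (hxD : IsD x) (hx10 : x % 11 ≠ 10)
    (hxj : blk C.t x = j) (hy : y ∈ C.S) (hyD : IsD y) (hyn : C.nonexc k y)
    (hyj : blk C.t y = j) (hf : C.f x = C.f y) (hg : g C k j x = g C k j y) : y = x := by
  refine C.sharp_class_of_D hx hxD hy ?_
  exact C.gcl hxD hyD hxj hyj hf (C.nonexc_of_ne hx10) hyn (Np_of_g_eq C hg)

/-- Two reservoir tokens of one kind have the same rank. -/
lemma g_res {j k l h y₁ y₂ : ℕ} (hR : C.Res k l h)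
    (h1 : l < y₁) (h2 : y₁ ≤ h) (h3 : l < y₂) (h4 : y₂ ≤ h) (h5 : y₁ % 11 = y₂ % 11) :
    g C k j y₁ = g C k j y₂ := by
  classical
  unfold g
  congr 1
  refine Finset.filter_congr ?_
  intro q hq
  obtain ⟨q1, q2, q3, q4⟩ := (mem_Q C).1 hq
  have hlv : lv y₁ = lv y₂ := by unfold lv; omega
  have hq' : q < l ∨ h < q := by
    by_contra hcon
    exact hR.1 q (by omega) (by omega) q1
  unfold Np
  rw [hlv]
  omega

/-- Sharp `X` tokens avoid the rank of the reservoir. -/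
lemma g_ne {j k l h r x : ℕ} {c : Fin 3} (hj : j < C.t) (hR : C.Res k l h)
    (hm : (C.S.filter fun x => IsD x ∧ blk C.t x = j ∧ C.f x ≠ c).card ≤ 1)
    (hr : r = 2 ∨ r = 4 ∨ r = 6 ∨ r = 8 ∨ r = 10)
    (hx : C.sharp (k + 1) x) (hxD : IsD x) (hx10 : x % 11 ≠ 10)
    (hxj : blk C.t x = j) (hf : C.f x = c) {y : ℕ} (hy1 : l < y) (hy2 : y ≤ h)
    (hyr : y % 11 = r) :
    g C k j x ≠ g C k j y := by
  intro hg
  obtain ⟨y₁, y₂, hne, ⟨a1, a2, a3, a4, a5, a6⟩, ⟨b1, b2, b3, b4, b5, b6⟩⟩ :=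
    exists_two C hj hR hm hr
  have g1 : g C k j x = g C k j y₁ := by
    rw [hg]; exact g_res C hR hy1 hy2 a2 a3 (by omega)
  have g2 : g C k j x = g C k j y₂ := by
    rw [hg]; exact g_res C hR hy1 hy2 b2 b3 (by omega)
  have e1 := g_inj C hx hxD hx10 hxj a1 (by unfold IsD; omega) (res_nonexc C hR a2 a3) a5
    (by rw [hf, a6]) g1
  have e2 := g_inj C hx hxD hx10 hxj b1 (by unfold IsD; omega) (res_nonexc C hR b2 b3) b5
    (by rw [hf, b6]) g2
  exact hne (e1.trans e2.symm)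

lemma Q_card (k j : ℕ) : (Q C k j).card ≤ (P C k 1 j).card + (P C k 3 j).card
    + (P C k 5 j).card + (P C k 7 j).card := by
  classical
  have h1 : Q C k j ⊆ ((P C k 1 j ∪ P C k 3 j) ∪ P C k 5 j) ∪ P C k 7 j := by
    intro q hq
    obtain ⟨q1, q2, q3, q4⟩ := (mem_Q C).1 hq
    simp only [Finset.mem_union, mem_P]
    unfold IsO at q2
    rcases q2 with h | h | h | h | h
    · exact absurd h q3
    · exact Or.inl (Or.inl (Or.inl ⟨q1, h, q4⟩))
    · exact Or.inl (Or.inl (Or.inr ⟨q1, h, q4⟩))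
    · exact Or.inl (Or.inr ⟨q1, h, q4⟩)
    · exact Or.inr ⟨q1, h, q4⟩
  have h2 := Finset.card_le_card h1
  have h3 := Finset.card_union_le ((P C k 1 j ∪ P C k 3 j) ∪ P C k 5 j) (P C k 7 j)
  have h4 := Finset.card_union_le (P C k 1 j ∪ P C k 3 j) (P C k 5 j)
  have h5 := Finset.card_union_le (P C k 1 j) (P C k 3 j)
  omega

/-- (3) -/
lemma three {j k l h : ℕ} {c : Fin 3} (hj : j < C.t)
    (hR : C.Res k l h)
    (hm : (C.S.filter fun x => IsD x ∧ blk C.t x = j ∧ C.f x ≠ c).card ≤ 1)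
    (h2 : 0 < (P C k 3 j).card) (h4 : 0 < (P C k 7 j).card) :
    (Pc C (k + 1) 2 j c).card + (Pc C (k + 1) 4 j c).card + (Pc C (k + 1) 6 j c).card
      + (Pc C (k + 1) 8 j c).card + 2 ≤ (Q C k j).card := by
  classical
  obtain ⟨y₁, -, -, ⟨-, a2, a3, a4, a5, a6⟩, -⟩ := exists_two C hj hR hm (r := 2) (by omega)
  obtain ⟨y₃, -, -, ⟨-, b2, b3, b4, b5, b6⟩, -⟩ := exists_two C hj hR hm (r := 6) (by omega)
  obtain ⟨y₅, -, -, ⟨-, c2, c3, c4, c5, c6⟩, -⟩ := exists_two C hj hR hm (r := 10) (by omega)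
  obtain ⟨q₂, hq₂⟩ := Finset.card_pos.1 h2
  obtain ⟨q₄, hq₄⟩ := Finset.card_pos.1 h4
  obtain ⟨s2, r2, j2⟩ := (mem_P C).1 hq₂
  obtain ⟨s4, r4, j4⟩ := (mem_P C).1 hq₄
  have m2 : q₂ ∈ Q C k j := (mem_Q C).2 ⟨s2, by unfold IsO; omega, by omega, j2⟩
  have m4 : q₄ ∈ Q C k j := (mem_Q C).2 ⟨s4, by unfold IsO; omega, by omega, j4⟩
  have l13 : g C k j y₁ < g C k j y₃ := by
    refine Finset.card_lt_card ?_
    rw [Finset.ssubset_iff_of_subset]
    · refine ⟨q₂, Finset.mem_filter.2 ⟨m2, ?_⟩, fun hcon => ?_⟩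
      · unfold Np lv; omega
      · have := (Finset.mem_filter.1 hcon).2
        unfold Np lv at this; omega
    · intro q hq
      rw [Finset.mem_filter] at *
      refine ⟨hq.1, ?_⟩
      have := hq.2
      unfold Np lv at *; omega
  have l35 : g C k j y₃ < g C k j y₅ := by
    refine Finset.card_lt_card ?_
    rw [Finset.ssubset_iff_of_subset]
    · refine ⟨q₄, Finset.mem_filter.2 ⟨m4, ?_⟩, fun hcon => ?_⟩
      · unfold Np lv; omega
      · have := (Finset.mem_filter.1 hcon).2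
        unfold Np lv at this; omega
    · intro q hq
      rw [Finset.mem_filter] at *
      refine ⟨hq.1, ?_⟩
      have := hq.2
      unfold Np lv at *; omega
  have l5 : g C k j y₅ ≤ (Q C k j).card := Finset.card_filter_le _ _
  -- the union of the sharp `X` tokens of colour `c`
  set T := ((Pc C (k + 1) 2 j c ∪ Pc C (k + 1) 4 j c) ∪ Pc C (k + 1) 6 j c) ∪
    Pc C (k + 1) 8 j c with hT
  have hTmem : ∀ x ∈ T, C.sharp (k + 1) x ∧ IsD x ∧ x % 11 ≠ 10 ∧ blk C.t x = j ∧ C.f x = c := by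
    intro x hx
    simp only [hT, Finset.mem_union, mem_Pc] at hx
    rcases hx with ((h | h) | h) | h <;>
      exact ⟨h.1.1, by unfold IsD; omega, by omega, h.1.2.2, h.2⟩
  have hTcard : T.card = (Pc C (k + 1) 2 j c).card + (Pc C (k + 1) 4 j c).card
      + (Pc C (k + 1) 6 j c).card + (Pc C (k + 1) 8 j c).card := by
    rw [hT, Finset.card_union_of_disjoint, Finset.card_union_of_disjoint,
      Finset.card_union_of_disjoint]
    · rw [Finset.disjoint_left]; intro x; simp only [mem_Pc]; intro h1 h2; omega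
    · rw [Finset.disjoint_left]; intro x; simp only [Finset.mem_union, mem_Pc]
      intro h1 h2; rcases h1 with h1 | h1 <;> omega
    · rw [Finset.disjoint_left]; intro x; simp only [Finset.mem_union, mem_Pc]
      intro h1 h2; rcases h1 with (h1 | h1) | h1 <;> omega
  have hcard : T.card ≤ ((((Finset.range ((Q C k j).card + 1)).erase (g C k j y₁)).erase
      (g C k j y₃)).erase (g C k j y₅)).card := by
    refine Finset.card_le_card_of_injOn (g C k j) ?_ ?_
    · intro x hx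
      obtain ⟨t1, t2, t3, t4, t5⟩ := hTmem x hx
      simp only [Finset.coe_erase, Set.mem_sdiff, Finset.mem_coe, Finset.mem_range,
        Set.mem_singleton_iff]
      have hle : g C k j x ≤ (Q C k j).card := Finset.card_filter_le _ _
      exact ⟨⟨⟨by omega, g_ne C hj hR hm (r := 2) (by omega) t1 t2 t3 t4 t5 a2 a3 a4⟩,
        g_ne C hj hR hm (r := 6) (by omega) t1 t2 t3 t4 t5 b2 b3 b4⟩,
        g_ne C hj hR hm (r := 10) (by omega) t1 t2 t3 t4 t5 c2 c3 c4⟩
    · intro x hx y hy hxy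
      obtain ⟨t1, t2, t3, t4, t5⟩ := hTmem x hx
      obtain ⟨u1, u2, u3, u4, u5⟩ := hTmem y hy
      exact (g_inj C t1 t2 t3 t4 u1.1 u2 (C.nonexc_of_ne u3) u4 (by rw [t5, u5]) hxy).symm
  rw [Finset.card_erase_of_mem, Finset.card_erase_of_mem, Finset.card_erase_of_mem,
    Finset.card_range] at hcard
  · omega
  · rw [Finset.mem_range]; omega
  · rw [Finset.mem_erase, Finset.mem_range]; omega
  · rw [Finset.mem_erase, Finset.mem_erase, Finset.mem_range]; omega

/-- (4) -/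
lemma four {j k l h i : ℕ} {c : Fin 3} (hj : j < C.t)
    (hR : C.Res k l h)
    (hm : (C.S.filter fun x => IsD x ∧ blk C.t x = j ∧ C.f x ≠ c).card ≤ 1)
    (hi : i = 1 ∨ i = 2 ∨ i = 3 ∨ i = 4) :
    (Pc C (k + 1) (2 * i) j c).card ≤ (P C k (2 * i - 1) j).card := by
  classical
  obtain ⟨y, -, -, ⟨-, a2, a3, a4, a5, a6⟩, -⟩ := exists_two C hj hR hm (r := 2 * i) (by omega)
  set A := ((Q C k j).filter fun q => lv q < i).card with hA
  have hrange : ∀ x, x % 11 = 2 * i → A ≤ g C k j x ∧ g C k j x ≤ A + (P C k (2 * i - 1) j).card := by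
    intro x hx
    constructor
    · refine Finset.card_le_card ?_
      intro q hq
      rw [Finset.mem_filter] at *
      refine ⟨hq.1, ?_⟩
      have := hq.2
      unfold Np lv at *; omega
    · have h1 : ((Q C k j).filter fun q => Np x q) ⊆
          ((Q C k j).filter fun q => lv q < i) ∪ P C k (2 * i - 1) j := by
        intro q hq
        rw [Finset.mem_filter] at hq
        obtain ⟨q1, q2, q3, q4⟩ := (mem_Q C).1 hq.1
        rw [Finset.mem_union, Finset.mem_filter, mem_P]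
        by_cases hlv : lv q < i
        · exact Or.inl ⟨hq.1, hlv⟩
        · right
          refine ⟨q1, ?_, q4⟩
          have := hq.2
          unfold IsO at q2
          unfold Np lv at *; omega
      exact (Finset.card_le_card h1).trans (Finset.card_union_le _ _)
  have hcard : (Pc C (k + 1) (2 * i) j c).card ≤
      ((Finset.Icc A (A + (P C k (2 * i - 1) j).card)).erase (g C k j y)).card := by
    refine Finset.card_le_card_of_injOn (g C k j) ?_ ?_
    · intro x hx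
      obtain ⟨⟨t1, t2, t3⟩, t4⟩ := (mem_Pc C).1 hx
      simp only [Finset.coe_erase, Set.mem_sdiff, Finset.mem_coe, Finset.mem_Icc,
        Set.mem_singleton_iff]
      exact ⟨hrange x t2, g_ne C hj hR hm (r := 2 * i) (by omega) t1 (by unfold IsD; omega)
        (by omega) t3 t4 a2 a3 a4⟩
    · intro x hx y hy hxy
      obtain ⟨⟨t1, t2, t3⟩, t4⟩ := (mem_Pc C).1 hx
      obtain ⟨⟨u1, u2, u3⟩, u4⟩ := (mem_Pc C).1 hy
      exact (g_inj C t1 (by unfold IsD; omega) (by omega) t3 u1.1 (by unfold IsD; omega)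
        (C.nonexc_of_ne (by omega)) u3 (by rw [t4, u4]) hxy).symm
  rw [Finset.card_erase_of_mem (Finset.mem_Icc.2 (hrange y a4)), Nat.card_Icc] at hcard
  omega

end Mono

open Mono in
theorem mono_out (C : Cfg) {j k l h : ℕ} {c : Fin 3} (hj : j < C.t) (hNS : C.NSw j (k + 1))
    (hR : C.Res k l h)
    (hm : (C.S.filter fun x => IsD x ∧ blk C.t x = j ∧ C.f x ≠ c).card ≤ 1) :
    C.out (k + 1) j ≤ max 1 (C.inn (k + 1) j - 1) := by
  have se := sum_e C (k := k + 1) hm
  have ho := out_le C hj hNS hR hm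
  rw [inn_eq]
  have c1 := cut_le C hNS (r := 0) (by omega)
  have c2 := cut_le C hNS (r := 2) (by omega)
  have c3 := cut_le C hNS (r := 4) (by omega)
  have c4 := cut_le C hNS (r := 6) (by omega)
  norm_num at c1 c2 c3 c4
  have p2 := card_P C (k + 1) 2 j c
  have p4 := card_P C (k + 1) 4 j c
  have p6 := card_P C (k + 1) 6 j c
  have p8 := card_P C (k + 1) 8 j c
  have f2 := four C hj hR hm (i := 2) (by omega)
  have f3 := four C hj hR hm (i := 3) (by omega)
  have f4 := four C hj hR hm (i := 4) (by omega)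
  norm_num at f2 f3 f4
  have hQ := Q_card C k j
  by_cases h2 : 0 < (P C k 3 j).card
  · by_cases h4 : 0 < (P C k 7 j).card
    · have h3 := three C hj hR hm h2 h4
      omega
    · omega
  · omega

end Cfg

end MP91e814.BP
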