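import Pool.Agent.MP_91e814_lc.BPAbsorb
import Pool.Agent.MP_91e814_lc.BPMono

/-!
The block that contains a colour class of stage 0 which is unseen by some position emits at most
one sharp `Y`.
-/

namespace MP91e814.BP

namespace Cfg

namespace CB

/-- Hypotheses common to all cases. -/
structure Hyp (C : Cfg) (j k : ℕ) (c : Fin 3) : Prop where
  hc : ∀ x ∈ C.S, C.f x = c → blk C.t x = j
  H1 : ∀ i ≤ k + 1, ∀ x, C.V i x → C.f x ≠ c → ∀ n, ¬ C.un i n x
  H3 : ∀ u, C.sharp k u → u % 11 = 10 → blk C.t (u + 1) ≠ j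

variable {C : Cfg} {j k : ℕ} {c : Fin 3}

lemma aV (H : Hyp C j k c) {i a : ℕ} (hi : i ≤ k + 1) (ha : a ∈ C.S) (hb : blk C.t a = j)
    (h0 : a % 11 = 0) : C.V i a := by
  refine C.V_anti hi (C.V_of_not_D ha (by unfold IsD; omega) ?_)
  intro w hw hs
  exact H.H3 w hs (by omega) (by rw [hw, hb])

lemma a_colour (H : Hyp C j k c) {i a : ℕ} (hi : i ≤ k + 1) (hs : C.sharp i a)
    (hb : blk C.t a = j) (h0 : a % 11 = 0) : C.f a = c := by
  by_contra hf
  exact H.H1 i hi a (aV H hi hs.1 hb h0) hf (a + 1) hs.2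

lemma not_V (H : Hyp C j k c) {i u : ℕ} (hi : i ≤ k + 1) (hs : C.sharp i u) (hf : C.f u ≠ c) :
    ¬ C.V i u := fun hV => H.H1 i hi u hV hf (u + 1) hs.2

lemma centre_pred (H : Hyp C j k c) {i u : ℕ} (hi : i ≤ k + 1) (hs : C.sharp i u)
    (hb : blk C.t u = j) (hf : C.f u ≠ c) (hD : ¬ IsD u) :
    u % 11 ≠ 0 ∧ ∃ i' w, i = i' + 1 ∧ w + 1 = u ∧ C.sharp i' w ∧ blk C.t w = j := by
  have h0 : u % 11 ≠ 0 := fun h0 => hf (a_colour H hi hs hb h0)
  refine ⟨h0, ?_⟩
  have hV := not_V H hi hs hf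
  cases i with
  | zero => exact absurd (C.V_zero hs.1) hV
  | succ i =>
    obtain ⟨w, hw, hsw⟩ := C.not_V_of_not_D hs.1 hD hV
    refine ⟨i, w, rfl, hw, hsw, ?_⟩
    rw [← hb, ← hw, blk_succ_of_ne]
    omega

lemma D_unseen (H : Hyp C j k c) {i u : ℕ} (hi : i ≤ k + 1) (hs : C.sharp i u)
    (hf : C.f u ≠ c) : ∃ i' z, i = i' + 1 ∧ z ∈ C.S ∧ C.un i' u z := by
  have hV := not_V H hi hs hf
  cases i with
  | zero => exact absurd (C.V_zero hs.1) hV
  | succ i =>
    obtain ⟨z, hz, hun⟩ := C.exists_un_of_not_V hs.1 hV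
    exact ⟨i, z, rfl, hz, hun⟩

lemma lvl0 (H : Hyp C j k c) {i z : ℕ} (hi : i ≤ k + 1) (hz : z ∈ C.S)
    (h : ∀ u ∈ C.S, C.E i z u → u % 11 = 0 ∧ blk C.t u = j) : C.f z = c := by
  by_contra hf
  have hz0 := h z hz (C.E_refl i z)
  refine H.H1 i hi z (aV H hi hz hz0.2 hz0.1) hf (z + 2) ?_
  refine C.un_of_level_zero (j := j) (by unfold IsD; omega) ?_ h
  rw [← hz0.2, blk_succ_of_ne (by omega), blk_succ_of_ne (by omega)]

/-! ### The chain case -/

lemma chain (H : Hyp C j k c) {x₀ : ℕ} (hx₀ : x₀ ∈ C.S) (hf₀ : C.f x₀ = c) (h8 : 8 ≤ x₀ % 11)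
    {n : ℕ} (hn : ∀ x ∈ C.S, C.f x = c → NN C.t n x) :
    ∀ i ≤ k + 1, (∀ v ∈ C.S, C.f v = c → v ≠ x₀ → C.V i v ∧ C.V i x₀) ∧
      ∀ u, C.sharp i u → blk C.t u = j → x₀ ≤ u ∧ u ≤ x₀ + 2 ∧ 8 ≤ u % 11 := by
  have hO₀ : ¬ IsO x₀ := by unfold IsO; omega
  have hn₀ : x₀ + 1 = n := (hn x₀ hx₀ hf₀).eq_of_not_O hO₀
  have hb₀ : blk C.t x₀ = j := H.hc x₀ hx₀ hf₀
  -- the other tokens of the colour
  have other : ∀ v ∈ C.S, C.f v = c → v ≠ x₀ → IsO v ∧ x₀ % 11 = 9 := by
    intro v hv hfv hne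
    rcases hn v hv hfv with h1 | ⟨h1, h2, h3, h4⟩
    · omega
    · refine ⟨h3, ?_⟩
      rw [← hn₀] at h2
      unfold IsD at h2
      omega
  intro i
  induction i using Nat.strong_induction_on with
  | _ i ih =>
  intro hi
  have hVc : ∀ v ∈ C.S, C.f v = c → v ≠ x₀ → C.V i v ∧ C.V i x₀ := by
    intro v hv hfv hne
    obtain ⟨hO, h9⟩ := other v hv hfv hne
    have hbv : blk C.t v = j := H.hc v hv hfv
    cases i with
    | zero => exact ⟨C.V_zero hv, C.V_zero hx₀⟩
    | succ i =>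
      have ih' := (ih i (by omega) (by omega)).2
      constructor
      · by_cases hv0 : v % 11 = 0
        · exact aV H hi hv hbv hv0
        · refine C.V_of_not_D hv hO.not_D ?_
          intro w hw hs
          have hbw : blk C.t w = j := by rw [← hbv, ← hw, blk_succ_of_ne]; omega
          have := ih' w hs hbw
          unfold IsO at hO
          omega
      · refine C.V_of_not_D hx₀ (by unfold IsD; omega) ?_
        intro w hw hs
        have hbw : blk C.t w = j := by rw [← hb₀, ← hw, blk_succ_of_ne]; omega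
        have := ih' w hs hbw
        omega
  refine ⟨hVc, ?_⟩
  intro u hs hb
  by_cases hf : C.f u = c
  · by_cases hu : u = x₀
    · subst hu; omega
    · exfalso
      obtain ⟨h1, h2⟩ := hVc u hs.1 hf hu
      have hE : C.E i u x₀ := C.V_E h1 h2 (by rw [hf, hf₀])
      have := (hs.2 x₀ hx₀ hE).eq_of_not_O hO₀
      omega
  · by_cases hD : IsD u
    · obtain ⟨i', z, rfl, hz, hun⟩ := D_unseen H hi hs hf
      have ih' := ih i' (by omega) (by omega)
      by_cases hnx : C.nonexc i' u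
      · exfalso
        have hcl : ∀ v ∈ C.S, C.E i' z v → IsO v ∧ blk C.t v = j := by
          intro v hv hE
          obtain ⟨h1, h2, h3⟩ := C.un_D hD hnx hun hv hE
          exact ⟨h1, by rw [h2, hb]⟩
        rcases C.exists_rep hz hcl with h0 | ⟨q, hq1, hq2, hq3, hq4, -⟩
        · have hcl0 : ∀ v ∈ C.S, C.E i' z v → v % 11 = 0 ∧ blk C.t v = j :=
            fun v hv hE => ⟨h0 v hv hE, (hcl v hv hE).2⟩
          have hfz := lvl0 H (by omega) hz hcl0
          have hz0 := h0 z hz (C.E_refl _ _)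
          obtain ⟨h1, h2⟩ := ih'.1 z hz hfz (by rintro rfl; omega)
          have hE : C.E i' z x₀ := C.V_E h1 h2 (by rw [hfz, hf₀])
          have := h0 x₀ hx₀ hE
          omega
        · have := (ih'.2 q hq1 hq4)
          unfold IsO at hq2
          omega
      · unfold nonexc at hnx
        push Not at hnx
        obtain ⟨w, hw, h10, hsw⟩ := hnx
        have hbw : blk C.t w = j := by rw [← hb, ← hw, blk_succ_of_ne]; omega
        have := ih'.2 w hsw hbw
        omega
    · obtain ⟨h0, i', w, rfl, hw, hsw, hbw⟩ := centre_pred H hi hs hb hf hD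
      have := (ih i' (by omega) (by omega)).2 w hsw hbw
      unfold IsD at hD
      omega

/-! ### The seed case -/

/-- The tokens of `D` in block `j` which do not see the seed `T`. -/
def W (C : Cfg) (j : ℕ) (T : ℕ → Prop) (x : ℕ) : Prop :=
  x ∈ C.S ∧ IsD x ∧ blk C.t x = j ∧ (∃ v, T v) ∧ ∀ v, T v → Np x v

/-- `μ` is the only token of its colour in `W`. -/
def Mn (C : Cfg) (j : ℕ) (c : Fin 3) (T : ℕ → Prop) (μ : ℕ) : Prop :=
  W C j T μ ∧ C.f μ ≠ c ∧ ∀ x, W C j T x → C.f x = C.f μ → x = μ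

/-- The possible sharp tokens. -/
def G (C : Cfg) (j : ℕ) (c : Fin 3) (T : ℕ → Prop) (u : ℕ) : Prop :=
  C.f u = c ∨ T u ∨ ∃ μ, Mn C j c T μ ∧
    (u = μ ∨ (u = μ + 1 ∧ u % 11 ≠ 0) ∨ (u = μ + 2 ∧ u % 11 = 10))

/-- First kind of seeds: the colour class itself, contained in `O` and not a single `a`. -/
def Seed1 (C : Cfg) (c : Fin 3) (T : ℕ → Prop) : Prop :=
  (∀ v, T v ↔ v ∈ C.S ∧ C.f v = c) ∧ (∀ v, T v → IsO v) ∧
    ∀ a, T a → a % 11 = 0 → ∃ v, T v ∧ v ≠ a

/-- Second kind of seeds: the colour class is a single `X_s` with `s ≤ 3`, and the seed is its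
successor. -/
def Seed2 (C : Cfg) (c : Fin 3) (T : ℕ → Prop) : Prop :=
  ∃ x₀ ∈ C.S, (∀ v ∈ C.S, C.f v = c ↔ v = x₀) ∧
    (x₀ % 11 = 2 ∨ x₀ % 11 = 4 ∨ x₀ % 11 = 6) ∧ ∀ v, T v ↔ v = x₀ + 1 ∧ v ∈ C.S

lemma seed_O {T : ℕ → Prop} (hT : Seed1 C c T ∨ Seed2 C c T) {v : ℕ} (hv : T v) : IsO v := by
  rcases hT with hT | ⟨x₀, hx₀, h1, h2, h3⟩
  · exact hT.2.1 v hv
  · have := (h3 v).1 hv
    unfold IsO; omega

lemma seed_S {T : ℕ → Prop} (hT : Seed1 C c T ∨ Seed2 C c T) {v : ℕ} (hv : T v) : v ∈ C.S := by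
  rcases hT with hT | ⟨x₀, hx₀, h1, h2, h3⟩
  · exact ((hT.1 v).1 hv).1
  · exact ((h3 v).1 hv).2

lemma seed_blk (H : Hyp C j k c) {T : ℕ → Prop} (hT : Seed1 C c T ∨ Seed2 C c T) {v : ℕ}
    (hv : T v) : blk C.t v = j := by
  rcases hT with hT | ⟨x₀, hx₀, h1, h2, h3⟩
  · exact H.hc v ((hT.1 v).1 hv).1 ((hT.1 v).1 hv).2
  · have h4 := ((h3 v).1 hv).1
    rw [h4, blk_succ_of_ne (by omega)]
    exact H.hc x₀ hx₀ ((h1 x₀ hx₀).2 rfl)

lemma W_colour {T : ℕ → Prop} (hT : Seed1 C c T ∨ Seed2 C c T) {x : ℕ} (hx : W C j T x) :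
    C.f x ≠ c := by
  intro hf
  rcases hT with hT | ⟨x₀, hx₀, h1, h2, h3⟩
  · exact hx.2.1.not_O (hT.2.1 x ((hT.1 x).2 ⟨hx.1, hf⟩))
  · have hxx : x = x₀ := (h1 x hx.1).1 hf
    subst hxx
    obtain ⟨v, hv⟩ := hx.2.2.2.1
    have h4 := hx.2.2.2.2 v hv
    have h5 := ((h3 v).1 hv).1
    subst h5
    unfold Np lv at h4
    omega

/-- Reservoir tokens `Y` belong to `W`. -/
lemma W_of_Y {T : ℕ → Prop} (hT : Seed1 C c T ∨ Seed2 C c T) (hne : ∃ v, T v) {y : ℕ}
    (hy : y ∈ C.S) (h10 : y % 11 = 10) (hb : blk C.t y = j) : W C j T y :=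
  ⟨hy, by unfold IsD; omega, hb, hne, fun v hv => Np_of_Y h10 (seed_O hT hv)⟩

/-- A reservoir contains a token of a given kind different from two given ones. -/
lemma res_token {i l m : ℕ} (hR : C.Res i l m) {o : ℕ} (ho : o < 11) (hj : j < C.t) (p q : ℕ) :
    ∃ y ∈ C.S, l < y ∧ y ≤ m ∧ y % 11 = o ∧ blk C.t y = j ∧ y ≠ p ∧ y ≠ q := by
  classical
  have h5 := hR.2 o ho j hj
  set s := C.S.filter fun x => l < x ∧ x ≤ m ∧ x % 11 = o ∧ blk C.t x = j with hs
  have : ((s.erase p).erase q).Nonempty := by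
    rw [← Finset.card_pos]
    have h1 := Finset.pred_card_le_card_erase (s := s) (a := p)
    have h2 := Finset.pred_card_le_card_erase (s := s.erase p) (a := q)
    omega
  obtain ⟨y, hy⟩ := this
  simp only [hs, Finset.mem_erase, Finset.mem_filter] at hy
  exact ⟨y, hy.2.2.1, hy.2.2.2.1, hy.2.2.2.2.1, hy.2.2.2.2.2.1, hy.2.2.2.2.2.2, hy.2.1, hy.1⟩

lemma Mn_unique {T : ℕ → Prop} (hT : Seed1 C c T ∨ Seed2 C c T) {i l m : ℕ}
    (hR : C.Res i l m) (hj : j < C.t) {μ μ' : ℕ} (h : Mn C j c T μ) (h' : Mn C j c T μ') :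
    μ = μ' := by
  by_contra hne
  obtain ⟨y, hy, -, -, hy10, hyb, hy1, hy2⟩ := res_token hR (o := 10) (by omega) hj μ μ'
  have hW := W_of_Y hT h.1.2.2.2.1 hy hy10 hyb
  have h1 : C.f y ≠ C.f μ := fun hf => hy1 (h.2.2 y hW hf)
  have h2 : C.f y ≠ C.f μ' := fun hf => hy2 (h'.2.2 y hW hf)
  have h3 : C.f μ ≠ C.f μ' := fun hf => hne (h'.2.2 μ h.1 hf)
  have h4 := W_colour hT hW
  have h5 := h.2.1
  have h6 := h'.2.1
  generalize C.f y = a at *
  generalize C.f μ = b at *
  generalize C.f μ' = d at *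
  omega

/-- The main induction of the seed case. -/
lemma seed_main (H : Hyp C j k c) (hj : j < C.t) {T : ℕ → Prop}
    (hT : Seed1 C c T ∨ Seed2 C c T) {l m h : ℕ} (R1 : C.Res k l m) (R2 : C.Res k m h) :
    ∀ i ≤ k + 1, (Seed1 C c T → ∀ v, T v → C.V i v) ∧
      ∀ u, C.sharp i u → blk C.t u = j → G C j c T u := by
  intro i
  induction i using Nat.strong_induction_on with
  | _ i ih =>
  intro hi
  -- the seed of the first kind stays in `V`
  have hVc : Seed1 C c T → ∀ v, T v → C.V i v := by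
    intro hT1 v hv
    have hvS := seed_S hT hv
    have hvO := seed_O hT hv
    have hvb := seed_blk H hT hv
    cases i with
    | zero => exact C.V_zero hvS
    | succ i =>
      by_cases hv0 : v % 11 = 0
      · exact aV H hi hvS hvb hv0
      · refine C.V_of_not_D hvS hvO.not_D ?_
        intro w hw hs
        have hbw : blk C.t w = j := by rw [← hvb, ← hw, blk_succ_of_ne]; omega
        have hTw : T w → False := by
          intro hTw
          have hwO := seed_O hT hTw
          have hcl : v = w := by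
            refine C.sharp_class_of_not_D hs (by rw [hw]; exact hvO.not_D) hvS ?_
            refine C.V_E ((ih i (by omega) (by omega)).1 hT1 w hTw)
              ((ih i (by omega) (by omega)).1 hT1 v hv) ?_
            rw [((hT1.1 w).1 hTw).2, ((hT1.1 v).1 hv).2]
          omega
        rcases (ih i (by omega) (by omega)).2 w hs hbw with h1 | h1 | ⟨μ, hμ, h1⟩
        · exact hTw ((hT1.1 w).2 ⟨hs.1, h1⟩)
        · exact hTw h1
        · have hμD := hμ.1.2.1
          have hμv := hμ.1.2.2.2.2 v hv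
          unfold IsD at hμD
          unfold IsO at hvO
          unfold Np lv at hμv
          omega
  refine ⟨hVc, ?_⟩
  intro u hs hb
  by_cases hf : C.f u = c
  · exact Or.inl hf
  by_cases hD : IsD u
  · -- `u` in `D`
    obtain ⟨i', z, rfl, hz, hun⟩ := D_unseen H hi hs hf
    have ih' := ih i' (by omega) (by omega)
    -- tokens of the seed or of the colour are no `d`
    have r2 : ∀ w, w ∈ C.S → (C.f w = c ∨ T w) → w % 11 ≠ 9 := by
      intro w hwS hw
      rcases hw with hw | hw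
      · rcases hT with hT1 | ⟨x₀, hx₀, h1, h2, h3⟩
        · have := hT1.2.1 w ((hT1.1 w).2 ⟨hwS, hw⟩)
          unfold IsO at this; omega
        · have := (h1 w hwS).1 hw
          omega
      · have := seed_O hT hw
        unfold IsO at this; omega
    by_cases hnx : C.nonexc i' u
    · -- nonexceptional
      have hcl : ∀ v ∈ C.S, C.E i' z v → IsO v ∧ blk C.t v = j := by
        intro v hv hE
        obtain ⟨h1, h2, h3⟩ := C.un_D hD hnx hun hv hE
        exact ⟨h1, by rw [h2, hb]⟩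
      -- `u` is in `W`
      have hWu : W C j T u := by
        rcases C.exists_rep hz hcl with h0 | ⟨q, hq1, hq2, hq3, hq4, hq5, -, hq7⟩
        · have hfz := lvl0 H (by omega) hz (fun v hv hE => ⟨h0 v hv hE, (hcl v hv hE).2⟩)
          have hz0 := h0 z hz (C.E_refl _ _)
          rcases hT with hT1 | ⟨x₀, hx₀, h1, h2, h3⟩
          · have hTz : T z := (hT1.1 z).2 ⟨hz, hfz⟩
            refine ⟨hs.1, hD, hb, ⟨z, hTz⟩, fun v hv => ?_⟩
            have hE : C.E i' z v := by
              refine C.V_E (ih'.1 hT1 z hTz) (ih'.1 hT1 v hv) ?_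
              rw [hfz, ((hT1.1 v).1 hv).2]
            exact Np_of_a hD (h0 v ((hT1.1 v).1 hv).1 hE)
          · have := (h1 z hz).1 hfz
            omega
        · have hunq : C.un i' u q := (C.un_congr hq5).1 hun
          have hNpq : Np u q := (hq7 u hD hb).1 hun
          have hTq : T q → W C j T u := by
            intro hTq
            refine ⟨hs.1, hD, hb, ⟨q, hTq⟩, fun v hv => ?_⟩
            rcases hT with hT1 | ⟨x₀, hx₀, h1, h2, h3⟩
            · have hE : C.E i' q v := by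
                refine C.V_E (ih'.1 hT1 q hTq) (ih'.1 hT1 v hv) ?_
                rw [((hT1.1 q).1 hTq).2, ((hT1.1 v).1 hv).2]
              exact (C.un_D hD hnx hunq ((hT1.1 v).1 hv).1 hE).2.2
            · have e1 := ((h3 q).1 hTq).1
              have e2 := ((h3 v).1 hv).1
              have : v = q := by omega
              rw [this]; exact hNpq
          rcases ih'.2 q hq1 hq4 with h1 | h1 | ⟨μ, hμ, h1⟩
          · rcases hT with hT1 | ⟨x₀, hx₀, h2, h3, h4⟩
            · exact hTq ((hT1.1 q).2 ⟨hq1.1, h1⟩)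
            · exfalso
              have := (h2 q hq1.1).1 h1
              unfold IsO at hq2; omega
          · exact hTq h1
          · have hμD := hμ.1.2.1
            refine ⟨hs.1, hD, hb, hμ.1.2.2.2.1, fun v hv => ?_⟩
            have h2 := hμ.1.2.2.2.2 v hv
            have h3 := seed_O hT hv
            unfold IsO at hq2 h3
            unfold IsD at hμD hD
            unfold Np lv at *
            omega
      -- equivalence with other tokens of `W`
      have hEq : ∀ y, W C j T y → C.f u = C.f y → C.nonexc i' y →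
          (∀ μ, Mn C j c T μ → IsO (μ + 1) → (μ + 1) % 11 ≠ 0 →
            (Np u (μ + 1) ↔ Np y (μ + 1))) → y = u := by
        intro y hy hfy hny hμy
        have hE : C.E (i' + 1) u y := by
          refine C.gcl hD hy.2.1 hb hy.2.2.1 hfy hnx hny ?_
          intro q hq1 hq2 hq3 hq4
          have hTq : T q → (Np u q ↔ Np y q) :=
            fun hTq => ⟨fun _ => hy.2.2.2.2 q hTq, fun _ => hWu.2.2.2.2 q hTq⟩
          rcases ih'.2 q hq1 hq4 with h1 | h1 | ⟨μ, hμ, h1⟩
          · rcases hT with hT1 | ⟨x₀, hx₀, h2, h3, h4⟩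
            · exact hTq ((hT1.1 q).2 ⟨hq1.1, h1⟩)
            · exfalso
              have := (h2 q hq1.1).1 h1
              unfold IsO at hq2; omega
          · exact hTq h1
          · have hμD := hμ.1.2.1
            have hq : q = μ + 1 := by
              unfold IsO at hq2
              unfold IsD at hμD
              omega
            rw [hq] at hq2 hq3 ⊢
            exact hμy μ hμ hq2 hq3
        exact C.sharp_class_of_D hs hD hy.1 hE
      by_cases hMu : Mn C j c T u
      · exact Or.inr (Or.inr ⟨u, hMu, Or.inl rfl⟩)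
      exfalso
      have hx : ∃ x, W C j T x ∧ C.f x = C.f u ∧ x ≠ u := by
        by_contra hcon
        push Not at hcon
        exact hMu ⟨hWu, hf, hcon⟩
      obtain ⟨x, hWx, hfx, hxu⟩ := hx
      by_cases hM : ∃ μ, Mn C j c T μ
      · obtain ⟨μ, hμ⟩ := hM
        have hμu : μ ≠ u := by rintro rfl; exact hMu hμ
        have hfμ : C.f μ ≠ C.f u := fun hfμ => hμu ((hμ.2.2 u hWu hfμ.symm).symm)
        -- all other tokens of `W` have the colour of `u`
        have hcol : ∀ y, W C j T y → y ≠ μ → C.f u = C.f y := by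
          intro y hy hyμ
          have h1 : C.f y ≠ C.f μ := fun hf' => hyμ (hμ.2.2 y hy hf')
          have h2 := W_colour hT hy
          have h3 := hμ.2.1
          generalize C.f y = a at *
          generalize C.f μ = b at *
          generalize C.f u = d at *
          omega
        have huniq : ∀ μ', Mn C j c T μ' → μ' = μ := fun μ' hμ' => Mn_unique hT R1 hj hμ' hμ
        have hT0 := hμ.1.2.2.2.1
        by_cases hcase : IsO (μ + 1) ∧ (μ + 1) % 11 ≠ 0 ∧ ¬ Np u (μ + 1)
        · obtain ⟨hμO, hμ0, hNu⟩ := hcase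
          have hμD := hμ.1.2.1
          by_cases hpos : μ + 2 ≤ m
          · -- a token one level above
            obtain ⟨y, hyS, hy1, hy2, hyo, hyb, hyu, -⟩ :=
              res_token R2 (o := μ % 11 + 2) (by unfold IsO at hμO; unfold IsD at hμD; omega) hj u 0
            have hyD : IsD y := by unfold IsO at hμO; unfold IsD at *; omega
            have hWy : W C j T y := by
              refine ⟨hyS, hyD, hyb, hT0, fun v hv => ?_⟩
              have h2 := hμ.1.2.2.2.2 v hv
              unfold IsD at hμD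
              unfold Np lv at *
              omega
            refine hyu (hEq y hWy (hcol y hWy (by rintro rfl; omega)) ?_ ?_)
            · refine C.nonexc_of_ne ?_
              unfold IsO at hμO; unfold IsD at hμD; omega
            · intro μ' hμ' _ _
              rw [huniq μ' hμ']
              refine ⟨fun hN => absurd hN hNu, fun hN => ?_⟩
              exfalso
              unfold IsD at hμD
              unfold Np lv at hN
              omega
          · -- a token on the level of `μ`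
            obtain ⟨y, hyS, hy1, hy2, hyo, hyb, hyu, hyμ⟩ :=
              res_token R1 (o := μ % 11) (by omega) hj u μ
            have hyD : IsD y := by unfold IsD at *; omega
            have hWy : W C j T y := by
              refine ⟨hyS, hyD, hyb, hT0, fun v hv => ?_⟩
              have h2 := hμ.1.2.2.2.2 v hv
              unfold Np lv at *
              omega
            refine hyu (hEq y hWy (hcol y hWy hyμ) ?_ ?_)
            · refine C.nonexc_of_ne ?_
              unfold IsO at hμO; unfold IsD at hμD; omega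
            · intro μ' hμ' _ _
              rw [huniq μ' hμ']
              refine ⟨fun hN => absurd hN hNu, fun hN => ?_⟩
              exfalso
              unfold IsD at hμD
              unfold Np lv at hN
              omega
        · -- a token `Y`
          obtain ⟨y, hyS, hy1, hy2, hyo, hyb, hyu, hyμ⟩ :=
            res_token R1 (o := 10) (by omega) hj u μ
          have hWy : W C j T y := W_of_Y hT hT0 hyS hyo hyb
          refine hyu (hEq y hWy (hcol y hWy hyμ) ?_ ?_)
          · intro w hw _ hsw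
            exact R1.1 w (by omega) (by omega) (C.sharp_mono (by omega) hsw)
          · intro μ' hμ' hO' h0'
            rw [huniq μ' hμ'] at hO' h0' ⊢
            have hNu : Np u (μ + 1) := by
              by_contra hNu
              exact hcase ⟨hO', h0', hNu⟩
            exact ⟨fun _ => Np_of_Y hyo hO', fun _ => hNu⟩
      · -- no token `μ`
        refine hxu (hEq x hWx hfx.symm ?_ (fun μ hμ => absurd ⟨μ, hμ⟩ hM))
        intro w hw h10 hsw
        have hbw : blk C.t w = j := by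
          rw [← hWx.2.2.1, ← hw, blk_succ_of_ne]; omega
        rcases ih'.2 w hsw hbw with h1 | h1 | ⟨μ, hμ, -⟩
        · exact r2 w hsw.1 (Or.inl h1) (by omega)
        · exact r2 w hsw.1 (Or.inr h1) (by omega)
        · exact hM ⟨μ, hμ⟩
    · -- exceptional
      unfold nonexc at hnx
      push Not at hnx
      obtain ⟨w, hw, h10, hsw⟩ := hnx
      have hbw : blk C.t w = j := by rw [← hb, ← hw, blk_succ_of_ne]; omega
      rcases ih'.2 w hsw hbw with h1 | h1 | ⟨μ, hμ, h1⟩
      · exact absurd (by omega) (r2 w hsw.1 (Or.inl h1))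
      · exact absurd (by omega) (r2 w hsw.1 (Or.inr h1))
      · refine Or.inr (Or.inr ⟨μ, hμ, Or.inr (Or.inr ?_)⟩)
        have hμD := hμ.1.2.1
        unfold IsD at hμD
        omega
  · -- `u` outside `D`
    obtain ⟨h0, i', w, rfl, hw, hsw, hbw⟩ := centre_pred H hi hs hb hf hD
    have ih' := ih i' (by omega) (by omega)
    have hTw : T w → C.f w = c → False := by
      intro hTw hfw
      rcases hT with hT1 | ⟨x₀, hx₀, h1, h2, h3⟩
      · have hwO := hT1.2.1 w hTw
        have hw0 : w % 11 = 0 := by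
          unfold IsO at hwO; unfold IsD at hD; omega
        obtain ⟨v, hv, hvw⟩ := hT1.2.2 w hTw hw0
        refine hvw (C.sharp_class_of_not_D hsw (by rw [hw]; exact hD) ((hT1.1 v).1 hv).1 ?_)
        refine C.V_E (ih'.1 hT1 w hTw) (ih'.1 hT1 v hv) ?_
        rw [hfw, ((hT1.1 v).1 hv).2]
      · have e1 := ((h3 w).1 hTw).1
        have e2 := (h1 w hsw.1).1 hfw
        omega
    rcases ih'.2 w hsw hbw with h1 | h1 | ⟨μ, hμ, h1⟩
    · rcases hT with hT1 | ⟨x₀, hx₀, h2, h3, h4⟩
      · exact absurd h1 (fun h1 => hTw ((hT1.1 w).2 ⟨hsw.1, h1⟩) h1)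
      · refine Or.inr (Or.inl ((h4 u).2 ⟨?_, hs.1⟩))
        have := (h2 w hsw.1).1 h1
        omega
    · rcases hT with hT1 | ⟨x₀, hx₀, h2, h3, h4⟩
      · exact absurd h1 (fun h1 => hTw h1 ((hT1.1 w).1 h1).2)
      · exfalso
        have := ((h4 w).1 h1).1
        unfold IsD at hD
        omega
    · have hμD := hμ.1.2.1
      refine Or.inr (Or.inr ⟨μ, hμ, Or.inr (Or.inl ?_)⟩)
      unfold IsD at hμD hD
      omega

/-- The seed case: at most one sharp `Y`. -/
lemma seed_out (H : Hyp C j k c) (hj : j < C.t) {T : ℕ → Prop}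
    (hT : Seed1 C c T ∨ Seed2 C c T) {l m h : ℕ} (R1 : C.Res k l m) (R2 : C.Res k m h) :
    C.out (k + 1) j ≤ 1 := by
  have key : ∀ u, C.sharp (k + 1) u → u % 11 = 10 → blk C.t u = j →
      ∃ μ, Mn C j c T μ ∧ (u = μ ∨ u = μ + 2) := by
    intro u hs h10 hb
    rcases (seed_main H hj hT R1 R2 (k + 1) le_rfl).2 u hs hb with h1 | h1 | ⟨μ, hμ, h1⟩
    · exfalso
      rcases hT with hT1 | ⟨x₀, hx₀, h2, h3, h4⟩
      · have := hT1.2.1 u ((hT1.1 u).2 ⟨hs.1, h1⟩)
        unfold IsO at this; omega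
      · have := (h2 u hs.1).1 h1
        omega
    · exfalso
      have := seed_O hT h1
      unfold IsO at this; omega
    · refine ⟨μ, hμ, ?_⟩
      have hμD := hμ.1.2.1
      unfold IsD at hμD
      omega
  unfold out
  rw [Finset.card_le_one]
  intro u hu u' hu'
  rw [Finset.mem_filter, mem_Sh] at hu hu'
  obtain ⟨μ, hμ, h1⟩ := key u hu.1 hu.2.1 hu.2.2
  obtain ⟨μ', hμ', h1'⟩ := key u' hu'.1 hu'.2.1 hu'.2.2
  have := Mn_unique hT R1 hj hμ hμ'
  omega

/-- The case of a single token `a`. -/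
lemma single_out (H : Hyp C j k c) (hj : j < C.t) {a : ℕ} (ha0 : a % 11 = 0)
    (hac : ∀ v ∈ C.S, C.f v = c → v = a) {l m : ℕ} (R1 : C.Res k l m) :
    C.out (k + 1) j ≤ 1 := by
  classical
  have hNS : C.NSw j (k + 1) := by
    intro i hi x hx hxb n hun
    have hf : C.f x = c := by
      by_contra hf
      exact H.H1 i hi x hx hf n hun
    have hxa := hac x hx.1 hf
    refine ⟨by rw [hxa]; exact ha0, fun u hu hE => ?_⟩
    rw [hxa, hac u hu (by rw [← C.E_f hE, hf])]
  have hin : C.inn (k + 1) j ≤ 1 := by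
    unfold inn
    rw [Finset.card_le_one]
    intro u hu u' hu'
    rw [Finset.mem_filter, mem_Sh] at hu hu'
    rw [hac u hu.1.1 (a_colour H le_rfl hu.1 hu.2.2 hu.2.1),
      hac u' hu'.1.1 (a_colour H le_rfl hu'.1 hu'.2.2 hu'.2.1)]
  by_cases hmono : ∃ c', (C.S.filter fun x => IsD x ∧ blk C.t x = j ∧ C.f x ≠ c').card ≤ 1
  · obtain ⟨c', hc'⟩ := hmono
    have := C.mono_out hj hNS R1 hc'
    omega
  · push Not at hmono
    have habs := C.absorb hNS hin (by
      intro x hx hxb hx0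
      have hfx : C.f x ≠ c := by
        intro hfx
        have := hac x hx hfx
        omega
      have h3 : ∀ a b : Fin 3, a ≠ b → ∃ c' : Fin 3, ∀ d, d ≠ a → d ≠ c' → d = b := by decide
      obtain ⟨c', hc'⟩ := h3 c (C.f x) (Ne.symm hfx)
      obtain ⟨y₁, hy₁, y₂, hy₂, hne⟩ := Finset.one_lt_card.1 (hmono c')
      rw [Finset.mem_filter] at hy₁ hy₂
      have hcol : ∀ y ∈ C.S, IsD y → C.f y ≠ c' → C.f y = C.f x := by
        intro y hy hyD hyc
        refine hc' _ (fun hyf => ?_) hyc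
        have := hac y hy hyf
        unfold IsD at hyD
        omega
      exact ⟨y₁, hy₁.1, y₂, hy₂.1, hne, hy₁.2.1, hy₂.2.1, hy₁.2.2.1, hy₂.2.2.1,
        hcol y₁ hy₁.1 hy₁.2.1 hy₁.2.2.2, hcol y₂ hy₂.1 hy₂.2.1 hy₂.2.2.2⟩)
    have : C.out (k + 1) j = 0 := by
      unfold out
      rw [Finset.card_eq_zero, Finset.filter_eq_empty_iff]
      intro u hu hu2
      rw [mem_Sh] at hu
      have := habs u hu hu2.2
      omega
    omega

end CB

/-- The block of an unseen colour class emits at most one sharp `Y`. -/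
theorem cblock (C : Cfg) {j k l m h : ℕ} {c : Fin 3} (hj : j < C.t)
    (hc : ∀ x ∈ C.S, C.f x = c → blk C.t x = j)
    (hp : ∃ n, ∀ x ∈ C.S, C.f x = c → NN C.t n x)
    (hne : ∃ x ∈ C.S, C.f x = c)
    (H1 : ∀ i ≤ k + 1, ∀ x, C.V i x → C.f x ≠ c → ∀ n, ¬ C.un i n x)
    (H3 : ∀ u, C.sharp k u → u % 11 = 10 → blk C.t (u + 1) ≠ j)
    (R1 : C.Res k l m) (R2 : C.Res k m h) : C.out (k + 1) j ≤ 1 := by
  have H : CB.Hyp C j k c := ⟨hc, H1, H3⟩
  obtain ⟨n, hn⟩ := hp
  by_cases h8 : ∃ x₀ ∈ C.S, C.f x₀ = c ∧ 8 ≤ x₀ % 11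
  · obtain ⟨x₀, hx₀, hf₀, h8⟩ := h8
    have key := (CB.chain H hx₀ hf₀ h8 hn (k + 1) le_rfl).2
    unfold out
    rw [Finset.card_le_one]
    intro u hu u' hu'
    rw [Finset.mem_filter, mem_Sh] at hu hu'
    have h1 := key u hu.1 hu.2.2
    have h2 := key u' hu'.1 hu'.2.2
    omega
  push Not at h8
  by_cases hD : ∃ x₀ ∈ C.S, C.f x₀ = c ∧ IsD x₀
  · obtain ⟨x₀, hx₀, hf₀, hD₀⟩ := hD
    have h8' := h8 x₀ hx₀ hf₀
    have hn₀ := (hn x₀ hx₀ hf₀).eq_of_D hD₀
    refine CB.seed_out H hj (T := fun v => v = x₀ + 1 ∧ v ∈ C.S) (Or.inr ⟨x₀, hx₀, ?_, ?_, ?_⟩)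
      R1 R2
    · intro v hv
      constructor
      · intro hfv
        have := (hn v hv hfv).eq_of_not_D (by unfold IsD at *; omega)
        omega
      · rintro rfl; exact hf₀
    · unfold IsD at hD₀; omega
    · intro v; rfl
  push Not at hD
  have hO : ∀ v ∈ C.S, C.f v = c → IsO v := by
    intro v hv hfv
    have h1 := h8 v hv hfv
    have h2 := hD v hv hfv
    unfold IsD at h2; unfold IsO; omega
  by_cases ha : ∃ a ∈ C.S, C.f a = c ∧ a % 11 = 0 ∧ ∀ v ∈ C.S, C.f v = c → v = a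
  · obtain ⟨a, -, -, ha0, hac⟩ := ha
    exact CB.single_out H hj ha0 hac R1
  push Not at ha
  refine CB.seed_out H hj (T := fun v => v ∈ C.S ∧ C.f v = c) (Or.inl ⟨fun v => Iff.rfl,
    fun v hv => hO v hv.1 hv.2, ?_⟩) R1 R2
  intro a haT ha0
  obtain ⟨v, hv, hfv, hva⟩ := ha a haT.1 haT.2 ha0
  exact ⟨v, ⟨hv, hfv⟩, hva⟩

end Cfg

end MP91e814.BP
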