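import Pool.Agent.MP_91e814_lc.BPBase

/-!
Normal blocks: quiet input means quiet block, arrivals come from the preceding block.
-/

namespace MP91e814.BP

namespace Cfg

theorem pred_sharp (C : Cfg) {j k i u : ℕ} (hNS : C.NSw j k) (hi : i ≤ k) (hu : C.sharp i u)
    (hb : blk C.t u = j) (hD : ¬ IsD u) (h0 : u % 11 ≠ 0) :
    ∃ i' w, i = i' + 1 ∧ w + 1 = u ∧ C.sharp i' w := by
  have hV : ¬ C.V i u := fun hV => h0 (hNS i hi u hV hb (u + 1) hu.2).1
  cases i with
  | zero => exact absurd (C.V_zero hu.1) hV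
  | succ i =>
    obtain ⟨w, hw, hsw⟩ := C.not_V_of_not_D hu.1 hD hV
    exact ⟨i, w, rfl, hw, hsw⟩

theorem level_zero (C : Cfg) {j k i z : ℕ} (hNS : C.NSw j k) (hi : i ≤ k) (hz : z ∈ C.S)
    (h : ∀ u ∈ C.S, C.E i z u → u % 11 = 0 ∧ blk C.t u = j) :
    C.sharp i z ∧ ∀ u ∈ C.S, C.E i z u → u = z := by
  have hz0 := h z hz (C.E_refl i z)
  have hcl : ∀ u ∈ C.S, C.E i z u → u = z := by
    by_cases hV : C.V i z
    · refine (hNS i hi z hV hz0.2 (z + 2) ?_).2
      refine C.un_of_level_zero (j := j) (by unfold IsD; omega) ?_ h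
      rw [← hz0.2, blk_succ_of_ne (by omega), blk_succ_of_ne (by omega)]
    · cases i with
      | zero => exact absurd (C.V_zero hz) hV
      | succ i =>
        obtain ⟨w, hw, hsw⟩ := C.not_V_of_not_D hz (by unfold IsD; omega) hV
        intro u hu hE
        have hun : C.un i z w := by rw [← hw]; exact hsw.2
        have hun' : C.un i u w := (C.E_succ_un hE hsw.1).1 hun
        have hu0 := (h u hu hE).1
        have := (C.un_not_D_sharp (by unfold IsD; omega) hun' hsw.1).1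
        omega
  refine ⟨⟨hz, fun u hu hE => ?_⟩, hcl⟩
  rw [hcl u hu hE]
  exact NN_succ _ _

theorem quiet (C : Cfg) {j k : ℕ} (hNS : C.NSw j k)
    (h : ∀ u, C.sharp k u → blk C.t u = j → u % 11 ≠ 0) :
    ∀ u, C.sharp k u → blk C.t u ≠ j := by
  have main : ∀ i ≤ k, ∀ u, C.sharp i u → blk C.t u ≠ j := by
    intro i
    induction i using Nat.strong_induction_on with
    | _ i ih =>
    intro hi u hs hb
    have h0 : u % 11 ≠ 0 := h u (C.sharp_mono hi hs) hb
    by_cases hD : IsD u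
    · have hV : ¬ C.V i u := fun hV => h0 (hNS i hi u hV hb (u + 1) hs.2).1
      cases i with
      | zero => exact hV (C.V_zero hs.1)
      | succ i =>
        have ih' := ih i (by omega) (by omega)
        obtain ⟨z, hz, hun⟩ := C.exists_un_of_not_V hs.1 hV
        have hnx : C.nonexc i u := by
          intro w hw h10 hsw
          refine ih' w hsw ?_
          rw [← hb, ← hw, blk_succ_of_ne]; omega
        have hcl : ∀ v ∈ C.S, C.E i z v → IsO v ∧ blk C.t v = j := by
          intro v hv hE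
          obtain ⟨h1, h2, h3⟩ := C.un_D hD hnx hun hv hE
          exact ⟨h1, by rw [h2, hb]⟩
        rcases C.exists_rep hz hcl with h0 | ⟨q, hq1, hq2, hq3, hq4, -⟩
        · have hcl0 : ∀ v ∈ C.S, C.E i z v → v % 11 = 0 ∧ blk C.t v = j :=
            fun v hv hE => ⟨h0 v hv hE, (hcl v hv hE).2⟩
          exact ih' z (C.level_zero hNS (by omega) hz hcl0).1 (hcl z hz (C.E_refl _ _)).2
        · exact ih' q hq1 hq4
    · obtain ⟨i', w, rfl, hw, hsw⟩ := C.pred_sharp hNS hi hs hb hD h0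
      refine ih i' (by omega) (by omega) w hsw ?_
      rw [← hb, ← hw, blk_succ_of_ne]; omega
  exact main k le_rfl

theorem quiet_V (C : Cfg) {j k : ℕ} (hNS : C.NSw j k)
    (h : ∀ u, C.sharp k u → blk C.t u ≠ j) :
    ∀ x ∈ C.S, IsD x → blk C.t x = j → C.V (k + 1) x := by
  intro x hx hD hb
  rw [C.V_succ_iff]
  refine ⟨hx, fun z hz hun => ?_⟩
  have hnx : C.nonexc k x := by
    intro w hw h10 hsw
    refine h w hsw ?_
    rw [← hb, ← hw, blk_succ_of_ne]; omega
  have hcl : ∀ v ∈ C.S, C.E k z v → IsO v ∧ blk C.t v = j := by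
    intro v hv hE
    obtain ⟨h1, h2, h3⟩ := C.un_D hD hnx hun hv hE
    exact ⟨h1, by rw [h2, hb]⟩
  rcases C.exists_rep hz hcl with h0 | ⟨q, hq1, hq2, hq3, hq4, -⟩
  · have hcl0 : ∀ v ∈ C.S, C.E k z v → v % 11 = 0 ∧ blk C.t v = j :=
      fun v hv hE => ⟨h0 v hv hE, (hcl v hv hE).2⟩
    exact h z (C.level_zero hNS le_rfl hz hcl0).1 (hcl z hz (C.E_refl _ _)).2
  · exact h q hq1 hq4

lemma add_one_mod_inj {t a b : ℕ} (ha : a < t) (hb : b < t) (h : (a + 1) % t = (b + 1) % t) :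
    a = b := by
  have h1 : ∀ x < t, (x + 1) % t = if x + 1 = t then 0 else x + 1 := by
    intro x hx
    split_ifs with h
    · rw [h, Nat.mod_self]
    · exact Nat.mod_eq_of_lt (by omega)
  rw [h1 a ha, h1 b hb] at h
  split_ifs at h <;> omega

theorem inn_le (C : Cfg) {j k : ℕ} (hj : j < C.t) (hNS : C.NS ((j + 1) % C.t) (k + 1)) :
    C.inn (k + 1) ((j + 1) % C.t) ≤ C.out k j := by
  unfold inn out
  have key : ∀ a, C.sharp (k + 1) a → a % 11 = 0 → blk C.t a = (j + 1) % C.t →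
      ∃ w, w + 1 = a ∧ C.sharp k w ∧ w % 11 = 10 ∧ blk C.t w = j := by
    intro a hs h0 hb
    have hV : ¬ C.V (k + 1) a := fun hV => hNS (k + 1) le_rfl a hV hb (a + 1) hs.2
    obtain ⟨w, hw, hsw⟩ := C.not_V_of_not_D hs.1 (by unfold IsD; omega) hV
    refine ⟨w, hw, hsw, by omega, ?_⟩
    have h1 : blk C.t (w + 1) = (blk C.t w + 1) % C.t := blk_succ_of_eq (by omega)
    rw [hw, hb] at h1
    exact (add_one_mod_inj hj (blk_lt C.ht w) h1).symm
  refine Finset.card_le_card_of_injOn (fun a => a - 1) ?_ ?_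
  · intro a ha
    simp only [Finset.coe_filter, mem_Sh, Set.mem_ofPred_eq] at ha ⊢
    obtain ⟨w, hw, h1, h2, h3⟩ := key a ha.1 ha.2.1 ha.2.2
    have : a - 1 = w := by omega
    rw [this]
    exact ⟨h1, h2, h3⟩
  · intro a ha b hb hab
    simp only [Finset.coe_filter, mem_Sh, Set.mem_ofPred_eq] at ha hb hab
    obtain ⟨w, hw, -⟩ := key a ha.1 ha.2.1 ha.2.2
    obtain ⟨w', hw', -⟩ := key b hb.1 hb.2.1 hb.2.2
    omega

theorem bad_card (C : Cfg) (k : ℕ) (Bd : Finset ℕ) (hBd : ∀ j ∈ Bd, j < C.t ∧ ¬ C.NS j k) :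
    Bd.card ≤ 3 := by
  have key : ∀ j ∈ Bd, ∃ i, i ≤ k ∧ ∃ x, C.V i x ∧ blk C.t x = j ∧ ∃ n, C.un i n x := by
    intro j hj
    have := (hBd j hj).2
    unfold NS at this
    push Not at this
    obtain ⟨i, hi, x, hx, hb, n, hun⟩ := this
    exact ⟨i, hi, x, hx, hb, n, hun⟩
  choose! i hi x hx hb n hun using key
  have hcard : Bd.card ≤ (Finset.univ : Finset (Fin 3)).card := by
    refine Finset.card_le_card_of_injOn (fun j => C.f (x j)) (fun _ _ => by simp) ?_
    intro j hj j' hj' hf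
    have main : ∀ j ∈ Bd, ∀ j' ∈ Bd, C.f (x j) = C.f (x j') → i j ≤ i j' → j = j' := by
      intro j hj j' hj' hf hle
      have hE : C.E (i j) (x j) (x j') := C.V_E (hx j hj) (C.V_anti hle (hx j' hj')) hf
      have h1 := hun j hj (x j) (hx j hj).1 (C.E_refl _ _)
      have h2 := hun j hj (x j') (hx j' hj').1 hE
      rw [← hb j hj, ← hb j' hj']
      exact h1.blk_eq_blk h2
    rcases le_total (i j) (i j') with hle | hle
    · exact main j hj j' hj' hf hle
    · exact (main j' hj' j hj hf.symm hle).symm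
  simpa using hcard

end Cfg

end MP91e814.BP
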