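import Pool.Agent.MP_91e814_lc.BPBase
import Pool.Agent.MP_91e814_lc.BPQuiet
import Pool.Agent.MP_91e814_lc.BPAbsorb
import Pool.Agent.MP_91e814_lc.BPMono
import Pool.Agent.MP_91e814_lc.BPCBlock

/-!
The case of two blocks which have `D` tokens of two colours each.
-/

namespace MP91e814.BP

namespace Cfg

namespace CaseOne

/-- The cyclic distance from `j₀` to `j`. -/
def dist (t j₀ j : ℕ) : ℕ := if j₀ ≤ j then j - j₀ else j + t - j₀

lemma exists_third (c d : Fin 3) (h : d ≠ c) : ∃ c' : Fin 3, ∀ e, e ≠ c → e ≠ c' → e = d := by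
  revert c d; decide

/-- In a nonmono block without tokens of colour `c` there are two `D` tokens of every colour
other than `c`. -/
lemma two_of (C : Cfg) {j₀ j : ℕ} {c d : Fin 3} (hj : j ≠ j₀)
    (hc : ∀ x ∈ C.S, C.f x = c → blk C.t x = j₀)
    (hn : ∀ c', 2 ≤ (C.S.filter fun x => IsD x ∧ blk C.t x = j ∧ C.f x ≠ c').card)
    (hd : d ≠ c) : ∃ y₁ ∈ C.S, ∃ y₂ ∈ C.S, y₁ ≠ y₂ ∧
      IsD y₁ ∧ IsD y₂ ∧ blk C.t y₁ = j ∧ blk C.t y₂ = j ∧ C.f y₁ = d ∧ C.f y₂ = d := by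
  obtain ⟨c', hc'⟩ := exists_third c d hd
  obtain ⟨y₁, hy₁, y₂, hy₂, hne⟩ := Finset.one_lt_card.1 (hn c')
  rw [Finset.mem_filter] at hy₁ hy₂
  refine ⟨y₁, hy₁.1, y₂, hy₂.1, hne, hy₁.2.1, hy₂.2.1, hy₁.2.2.1, hy₂.2.2.1, ?_, ?_⟩
  · refine hc' _ (fun hf => hj ?_) hy₁.2.2.2
    rw [← hy₁.2.2.1, hc _ hy₁.1 hf]
  · refine hc' _ (fun hf => hj ?_) hy₂.2.2.2
    rw [← hy₂.2.2.1, hc _ hy₂.1 hf]

/-- If the `D` tokens of a nonmono block see everything then all classes of tokens that see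
everything and have a colour other than `c` are seen by everybody. -/
lemma not_un (C : Cfg) {j₀ j₂ k : ℕ} {c : Fin 3} (hj : j₂ ≠ j₀)
    (hc : ∀ x ∈ C.S, C.f x = c → blk C.t x = j₀)
    (hn : ∀ c', 2 ≤ (C.S.filter fun x => IsD x ∧ blk C.t x = j₂ ∧ C.f x ≠ c').card)
    (hd : ∀ x ∈ C.S, IsD x → blk C.t x = j₂ → C.V k x) :
    ∀ i ≤ k, ∀ x, C.V i x → C.f x ≠ c → ∀ n, ¬ C.un i n x := by
  intro i hi x hx hf n hun
  obtain ⟨y₁, hy₁, y₂, hy₂, hne, a1, a2, b1, b2, f1, f2⟩ := two_of C hj hc hn hf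
  have e1 := hun y₁ hy₁ (C.V_E hx (C.V_anti hi (hd y₁ hy₁ a1 b1)) f1.symm)
  have e2 := hun y₂ hy₂ (C.V_E hx (C.V_anti hi (hd y₂ hy₂ a2 b2)) f2.symm)
  have := e1.eq_of_D a1
  have := e2.eq_of_D a2
  omega

lemma NS_of (C : Cfg) {j₀ j₂ k j : ℕ} {c : Fin 3} (hj : j₂ ≠ j₀) (hj' : j ≠ j₀)
    (hc : ∀ x ∈ C.S, C.f x = c → blk C.t x = j₀)
    (hn : ∀ c', 2 ≤ (C.S.filter fun x => IsD x ∧ blk C.t x = j₂ ∧ C.f x ≠ c').card)
    (hd : ∀ x ∈ C.S, IsD x → blk C.t x = j₂ → C.V k x) : C.NS j k := by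
  intro i hi x hx hb n
  refine not_un C hj hc hn hd i hi x hx (fun hf => hj' ?_) n
  rw [← hb, hc x hx.1 hf]

lemma exists_pred {t j : ℕ} (hj : j < t) : ∃ j' < t, (j' + 1) % t = j := by
  by_cases h : j = 0
  · subst h
    exact ⟨t - 1, by omega, by rw [Nat.sub_add_cancel (by omega), Nat.mod_self]⟩
  · exact ⟨j - 1, by omega, by rw [Nat.sub_add_cancel (by omega), Nat.mod_eq_of_lt hj]⟩

lemma dist_pred {t j₀ j' : ℕ} (h0 : j₀ < t) (hj : j' < t) (hne : (j' + 1) % t ≠ j₀) :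
    dist t j₀ ((j' + 1) % t) = dist t j₀ j' + 1 := by
  by_cases h : j' + 1 = t
  · have h' : (j' + 1) % t = 0 := by rw [h, Nat.mod_self]
    rw [h'] at hne ⊢
    unfold dist
    split_ifs <;> omega
  · have h' : (j' + 1) % t = j' + 1 := Nat.mod_eq_of_lt (by omega)
    rw [h'] at hne ⊢
    unfold dist
    split_ifs <;> omega

lemma dist_last {t j₀ j' : ℕ} (h0 : j₀ < t) (hj : j' < t) (hne : (j' + 1) % t = j₀) :
    dist t j₀ j' = t - 1 := by
  by_cases h : j' + 1 = t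
  · rw [h, Nat.mod_self] at hne
    subst hne
    unfold dist
    split_ifs <;> omega
  · rw [Nat.mod_eq_of_lt (by omega)] at hne
    unfold dist
    split_ifs <;> omega

lemma dist_le {t j₀ j : ℕ} (hj : j < t) : dist t j₀ j ≤ t - 1 := by
  unfold dist; split_ifs <;> omega

lemma dist_pos {t j₀ j : ℕ} (h0 : j₀ < t) (h : j ≠ j₀) : 0 < dist t j₀ j := by
  unfold dist; split_ifs <;> omega

lemma dist_inj {t j₀ j j' : ℕ} (h0 : j₀ < t) (hj : j < t) (hj' : j' < t)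
    (h : dist t j₀ j = dist t j₀ j') : j = j' := by
  unfold dist at h; split_ifs at h <;> omega

lemma out_eq_zero (C : Cfg) {k j : ℕ} (h : ∀ u, C.sharp k u → blk C.t u = j → u % 11 ≠ 10) :
    C.out k j = 0 := by
  classical
  unfold out
  rw [Finset.card_eq_zero, Finset.filter_eq_empty_iff]
  rintro u hu ⟨h1, h2⟩
  exact h u ((C.mem_Sh).1 hu) h2 h1

lemma not_sharp_of_out (C : Cfg) {k j u : ℕ} (h : C.out k j = 0) (hu : C.sharp k u)
    (hb : blk C.t u = j) : u % 11 ≠ 10 := by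
  classical
  intro h10
  unfold out at h
  rw [Finset.card_eq_zero, Finset.filter_eq_empty_iff] at h
  exact h ((C.mem_Sh).2 hu) ⟨h10, hb⟩

lemma not_sharp_of_inn (C : Cfg) {k j u : ℕ} (h : C.inn k j = 0) (hu : C.sharp k u)
    (hb : blk C.t u = j) : u % 11 ≠ 0 := by
  classical
  intro h10
  unfold inn at h
  rw [Finset.card_eq_zero, Finset.filter_eq_empty_iff] at h
  exact h ((C.mem_Sh).2 hu) ⟨h10, hb⟩

theorem core (C : Cfg) {j₀ j₁ j₂ K l m h : ℕ} {c : Fin 3}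
    (h0 : j₀ < C.t) (h1 : j₁ < C.t) (h2 : j₂ < C.t) (h01 : j₁ ≠ j₀) (h02 : j₂ ≠ j₀)
    (h12 : dist C.t j₀ j₁ < dist C.t j₀ j₂)
    (hmin : ∀ j < C.t, j ≠ j₀ → dist C.t j₀ j < dist C.t j₀ j₁ →
      ∃ c', (C.S.filter fun x => IsD x ∧ blk C.t x = j ∧ C.f x ≠ c').card ≤ 1)
    (hc : ∀ x ∈ C.S, C.f x = c → blk C.t x = j₀)
    (hp : ∃ n, ∀ x ∈ C.S, C.f x = c → NN C.t n x)
    (hne : ∃ x ∈ C.S, C.f x = c)
    (hn1 : ∀ c', 2 ≤ (C.S.filter fun x => IsD x ∧ blk C.t x = j₁ ∧ C.f x ≠ c').card)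
    (hn2 : ∀ c', 2 ≤ (C.S.filter fun x => IsD x ∧ blk C.t x = j₂ ∧ C.f x ≠ c').card)
    (R1 : C.Res K l m) (R2 : C.Res K m h) : ∀ k ≤ K + 1,
      (∀ j < C.t, C.out k j ≤ 1) ∧
      (∀ j < C.t, dist C.t j₀ j₁ ≤ dist C.t j₀ j → C.out k j = 0) ∧
      (∀ x ∈ C.S, IsD x → blk C.t x = j₂ → C.V (k + 1) x) := by
  intro k
  induction k with
  | zero =>
    intro _
    have hd0 : ∀ x ∈ C.S, IsD x → blk C.t x = j₂ → C.V 0 x := fun x hx _ _ => C.V_zero hx
    have hun := not_un C h02 hc hn2 hd0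
    -- sharp tokens of stage 0 have colour `c`
    have hsc : ∀ u, C.sharp 0 u → C.f u = c := by
      intro u hu
      by_contra hf
      exact hun 0 le_rfl u (C.V_zero hu.1) hf (u + 1) hu.2
    have hj0 : ∀ u, C.sharp 0 u → blk C.t u = j₀ := fun u hu => hc u hu.1 (hsc u hu)
    have hout : ∀ j, j ≠ j₀ → C.out 0 j = 0 := by
      intro j hj
      exact out_eq_zero C fun u hu hb => absurd ((hb.symm.trans (hj0 u hu))) hj
    refine ⟨?_, ?_, ?_⟩
    · intro j _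
      classical
      unfold out
      rw [Finset.card_le_one]
      intro u hu v hv
      rw [Finset.mem_filter, mem_Sh] at hu hv
      exact C.sharp_unique hu.1 hv.1 ((hsc u hu.1).trans (hsc v hv.1).symm)
    · intro j _ hdist
      refine hout j ?_
      rintro rfl
      have := dist_pos h0 h01
      have : dist C.t j j = 0 := by unfold dist; simp
      omega
    · refine C.quiet_V (NS_of C h02 h02 hc hn2 hd0).toNSw ?_
      intro u hu hb
      exact h02 (hb.symm.trans (hj0 u hu))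
  | succ k ih =>
    intro hk
    obtain ⟨ia, ib, ic⟩ := ih (by omega)
    have hun := not_un C h02 hc hn2 ic
    have hNS : ∀ j, j ≠ j₀ → C.NS j (k + 1) := fun j hj => NS_of C h02 hj hc hn2 ic
    have R1' := Res.anti (by omega : k ≤ K) R1
    have R2' := Res.anti (by omega : k ≤ K) R2
    -- the block `j₀`
    have b0 : C.out (k + 1) j₀ ≤ 1 := by
      refine C.cblock h0 hc hp hne hun ?_ R1' R2'
      intro u hu h10 hb
      rw [blk_succ_of_eq h10] at hb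
      have hlt := blk_lt C.ht u
      have hd := dist_last h0 hlt hb
      have := ib (blk C.t u) hlt (by rw [hd]; exact dist_le h1)
      exact not_sharp_of_out C this hu rfl h10
    -- incoming tokens
    have hinn : ∀ j < C.t, j ≠ j₀ → ∃ j' < C.t, dist C.t j₀ j = dist C.t j₀ j' + 1 ∧
        C.inn (k + 1) j ≤ C.out k j' := by
      intro j hj hj0
      obtain ⟨j', hj', rfl⟩ := exists_pred hj
      exact ⟨j', hj', dist_pred h0 hj' hj0, C.inn_le hj' (hNS _ hj0)⟩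
    -- blocks before `j₁`
    have bmono : ∀ j < C.t, j ≠ j₀ → dist C.t j₀ j < dist C.t j₀ j₁ → C.out (k + 1) j ≤ 1 := by
      intro j hj hj0 hd
      obtain ⟨c', hc'⟩ := hmin j hj hj0 hd
      have h3 := C.mono_out hj (hNS j hj0).toNSw R1' hc'
      obtain ⟨j', hj', -, hle⟩ := hinn j hj hj0
      have := ia j' hj'
      have h4 : max 1 (C.inn (k + 1) j - 1) ≤ 1 := by
        rw [max_le_iff]; omega
      omega
    -- the block `j₁`
    have b1 : C.out (k + 1) j₁ = 0 := by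
      obtain ⟨j', hj', -, hle⟩ := hinn j₁ h1 h01
      have := ia j' hj'
      refine out_eq_zero C ?_
      intro u hu hb h10
      have := C.absorb (hNS j₁ h01).toNSw (by omega) (by
        intro x hx hxb _
        refine two_of C h01 hc hn1 (fun hf => h01 ?_)
        rw [← hxb, hc x hx hf]) u hu hb
      omega
    -- the blocks after `j₁`
    have bq : ∀ j < C.t, dist C.t j₀ j₁ < dist C.t j₀ j → ∀ u, C.sharp (k + 1) u →
        blk C.t u ≠ j := by
      intro j hj hd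
      have hj0 : j ≠ j₀ := by
        rintro rfl
        have : dist C.t j j = 0 := by unfold dist; simp
        omega
      obtain ⟨j', hj', hd', hle⟩ := hinn j hj hj0
      have := ib j' hj' (by omega)
      exact C.quiet (hNS j hj0).toNSw
        (fun u hu hb => not_sharp_of_inn C (by omega) hu hb)
    have hb' : ∀ j < C.t, dist C.t j₀ j₁ ≤ dist C.t j₀ j → C.out (k + 1) j = 0 := by
      intro j hj hd
      rcases Nat.lt_or_ge (dist C.t j₀ j₁) (dist C.t j₀ j) with hlt | hge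
      · exact out_eq_zero C fun u hu hb => absurd hb (bq j hj hlt u hu)
      · have : j = j₁ := dist_inj h0 hj h1 (by omega)
        rw [this]; exact b1
    refine ⟨?_, hb', ?_⟩
    · intro j hj
      by_cases hj0 : j = j₀
      · rw [hj0]; exact b0
      · rcases Nat.lt_or_ge (dist C.t j₀ j) (dist C.t j₀ j₁) with hlt | hge
        · exact bmono j hj hj0 hlt
        · rw [hb' j hj hge]; omega
    · exact C.quiet_V (hNS j₂ h02).toNSw (bq j₂ h2 h12)

end CaseOne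

open CaseOne in
theorem case_one (C : Cfg) {j₀ j₁ j₂ K l m h : ℕ} {c : Fin 3}
    (h0 : j₀ < C.t) (h1 : j₁ < C.t) (h2 : j₂ < C.t) (h01 : j₁ ≠ j₀) (h02 : j₂ ≠ j₀)
    (h12 : j₁ ≠ j₂)
    (hc : ∀ x ∈ C.S, C.f x = c → blk C.t x = j₀)
    (hp : ∃ n, ∀ x ∈ C.S, C.f x = c → NN C.t n x)
    (hne : ∃ x ∈ C.S, C.f x = c)
    (hn1 : ∀ c', 2 ≤ (C.S.filter fun x => IsD x ∧ blk C.t x = j₁ ∧ C.f x ≠ c').card)
    (hn2 : ∀ c', 2 ≤ (C.S.filter fun x => IsD x ∧ blk C.t x = j₂ ∧ C.f x ≠ c').card)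
    (R1 : C.Res K l m) (R2 : C.Res K m h) : ∀ j < C.t, C.out (K + 1) j ≤ 1 := by
  classical
  set N : Finset ℕ := (Finset.range C.t).filter (fun j => j ≠ j₀ ∧
    ∀ c', 2 ≤ (C.S.filter fun x => IsD x ∧ blk C.t x = j ∧ C.f x ≠ c').card) with hN
  have m1 : j₁ ∈ N := by rw [hN, Finset.mem_filter, Finset.mem_range]; exact ⟨h1, h01, hn1⟩
  have m2 : j₂ ∈ N := by rw [hN, Finset.mem_filter, Finset.mem_range]; exact ⟨h2, h02, hn2⟩
  obtain ⟨i₁, hi₁, hmin⟩ := N.exists_min_image (dist C.t j₀) ⟨j₁, m1⟩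
  obtain ⟨i₂, hi₂, hne12⟩ : ∃ i₂ ∈ N, i₂ ≠ i₁ := by
    by_cases h : j₁ = i₁
    · exact ⟨j₂, m2, fun h' => h12 (h.trans h'.symm)⟩
    · exact ⟨j₁, m1, h⟩
  have hle := hmin i₂ hi₂
  have hi₁' := hi₁
  have hi₂' := hi₂
  rw [hN, Finset.mem_filter, Finset.mem_range] at hi₁' hi₂'
  have hlt : dist C.t j₀ i₁ < dist C.t j₀ i₂ := by
    rcases Nat.lt_or_ge (dist C.t j₀ i₁) (dist C.t j₀ i₂) with h | h
    · exact h
    · exact absurd (dist_inj h0 hi₂'.1 hi₁'.1 (by omega)) hne12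
  have hmin' : ∀ j < C.t, j ≠ j₀ → dist C.t j₀ j < dist C.t j₀ i₁ →
      ∃ c', (C.S.filter fun x => IsD x ∧ blk C.t x = j ∧ C.f x ≠ c').card ≤ 1 := by
    intro j hj hj0 hd
    by_contra hcon
    push Not at hcon
    have hjN : j ∈ N := by
      rw [hN, Finset.mem_filter, Finset.mem_range]
      exact ⟨hj, hj0, fun c' => hcon c'⟩
    have := hmin j hjN
    omega
  exact (core C h0 hi₁'.1 hi₂'.1 hi₁'.2.1 hi₂'.2.1 hlt hmin' hc hp hne hi₁'.2.2 hi₂'.2.2
    R1 R2 (K + 1) le_rfl).1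

end Cfg

end MP91e814.BP
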