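import Pool.Agent.MP_91e814_lc.BPBase

/-!
Crude counting of sharp tokens (module A of the negative answer to `MP_91e814_lc`).
-/

namespace MP91e814.BP

namespace Crude

/-- The kind of a position. -/
def kd (t n : ℕ) : ℕ := n % (11 * t)

lemma kd_eq (t n : ℕ) : kd t n = n % 11 + 11 * blk t n := by
  unfold kd blk
  rw [Nat.mod_mul]

lemma kd_iff {t n m : ℕ} : kd t n = kd t m ↔ n % 11 = m % 11 ∧ blk t n = blk t m := by
  rw [kd_eq, kd_eq]
  have h1 := Nat.mod_lt n (show 11 > 0 by norm_num)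
  have h2 := Nat.mod_lt m (show 11 > 0 by norm_num)
  omega

lemma kd_lt {t : ℕ} (ht : 0 < t) (n : ℕ) : kd t n < 11 * t := Nat.mod_lt _ (by omega)

lemma kd_succ (t n : ℕ) : kd t (n + 1) = (kd t n + 1) % (11 * t) := by
  unfold kd
  rw [Nat.mod_add_mod]

lemma kd_succ_iff {t n r : ℕ} (ht : 0 < t) (hr : r < 11 * t) :
    kd t (n + 1) = (r + 1) % (11 * t) ↔ kd t n = r := by
  constructor
  · intro h
    rw [kd_succ] at h
    have h1 := kd_lt ht n
    have h2 : (kd t n + 1) ≡ (r + 1) [MOD 11 * t] := h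
    have h3 : kd t n ≡ r [MOD 11 * t] := Nat.ModEq.add_right_cancel' 1 h2
    have h4 := h3
    unfold Nat.ModEq at h4
    rwa [Nat.mod_eq_of_lt h1, Nat.mod_eq_of_lt hr] at h4
  · intro h
    rw [kd_succ, h]

/-! ### Two counting lemmas -/

lemma card_pairs {A U : Finset ℕ} (h : ∀ x ∈ A, ∀ y ∈ A, x ≠ y → x ∈ U ∨ y ∈ U) :
    A.card ≤ 1 + U.card := by
  classical
  have h1 : (A.filter fun x => x ∉ U).card ≤ 1 := by
    rw [Finset.card_le_one]
    intro a ha b hb
    rw [Finset.mem_filter] at ha hb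
    by_contra hab
    rcases h a ha.1 b hb.1 hab with h' | h'
    · exact ha.2 h'
    · exact hb.2 h'
  have h2 : (A.filter fun x => x ∈ U).card ≤ U.card :=
    Finset.card_le_card fun x hx => (Finset.mem_filter.1 hx).2
  have h3 := Finset.card_filter_add_card_filter_not (s := A) (fun x => x ∈ U)
  omega

lemma card_gaps {A U : Finset ℕ} (h : ∀ x ∈ A, ∀ y ∈ A, x < y → ∃ v ∈ U, x ≤ v ∧ v < y) :
    A.card ≤ 1 + U.card := by
  classical
  have key : ∀ x ∈ A, ∀ y ∈ A, x < y →
      (U.filter fun v => v < x).card < (U.filter fun v => v < y).card := by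
    intro x hx y hy hxy
    obtain ⟨v, hv, h1, h2⟩ := h x hx y hy hxy
    apply Finset.card_lt_card
    rw [Finset.ssubset_iff_of_subset]
    · exact ⟨v, by simp [hv, h2], by simp [h1]⟩
    · intro w hw
      rw [Finset.mem_filter] at *
      exact ⟨hw.1, by omega⟩
  have h1 : A.card ≤ (Finset.range (U.card + 1)).card := by
    apply Finset.card_le_card_of_injOn (fun x => (U.filter fun v => v < x).card)
    · intro x _
      simp only [Finset.coe_range, Set.mem_Iio]
      exact Nat.lt_succ_of_le (Finset.card_le_card (Finset.filter_subset _ _))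
    · intro x hx y hy hxy
      simp only at hxy
      rcases Nat.lt_trichotomy x y with h' | h' | h'
      · have := key x hx y hy h'; omega
      · exact h'
      · have := key y hy x hx h'; omega
  rw [Finset.card_range] at h1
  omega

end Crude

open Crude

namespace Cfg

variable (C : Cfg)

open scoped Classical in
/-- Successors of sharp tokens of one kind in an interval. -/
noncomputable def DD (k r l h : ℕ) : Finset ℕ :=
  (C.Sh k).filter fun u => kd C.t (u + 1) = r ∧ l ≤ u + 1 ∧ u + 1 ≤ h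

open scoped Classical in
/-- Sharp tokens of one kind in an interval. -/
noncomputable def NR (k r l h : ℕ) : Finset ℕ :=
  (C.Sh k).filter fun u => kd C.t u = r ∧ l ≤ u ∧ u ≤ h

lemma mem_DD {k r l h u : ℕ} :
    u ∈ C.DD k r l h ↔ C.sharp k u ∧ kd C.t (u + 1) = r ∧ l ≤ u + 1 ∧ u + 1 ≤ h := by
  unfold DD
  rw [Finset.mem_filter, mem_Sh]

lemma mem_NR {k r l h u : ℕ} :
    u ∈ C.NR k r l h ↔ C.sharp k u ∧ kd C.t u = r ∧ l ≤ u ∧ u ≤ h := by
  unfold NR
  rw [Finset.mem_filter, mem_Sh]

/-- The crude estimate. -/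
lemma crude {k r l h : ℕ} {c : Fin 3} (A : Finset ℕ)
    (hA : ∀ x ∈ A, x ∈ C.S ∧ kd C.t x = r ∧ C.f x = c ∧ l ≤ x ∧ x ≤ h)
    (hne : ∀ x ∈ A, ∀ y ∈ A, x ≠ y → ¬ C.E (k + 1) x y) :
    A.card ≤ 1 + (C.DD k r l h).card := by
  classical
  rw [← Finset.card_image_of_injective (C.DD k r l h) (Nat.succ_injective)]
  rcases A.eq_empty_or_nonempty with rfl | ⟨x₀, hx₀⟩
  · simp
  have hk : ∀ x ∈ A, x % 11 = x₀ % 11 ∧ blk C.t x = blk C.t x₀ := by
    intro x hx
    rw [← kd_iff, (hA x hx).2.1, (hA x₀ hx₀).2.1]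
  have hf : ∀ x ∈ A, ∀ y ∈ A, C.f x = C.f y := by
    intro x hx y hy
    rw [(hA x hx).2.2.1, (hA y hy).2.2.1]
  -- a token whose predecessor is sharp is in the image
  have himg : ∀ x ∈ A, ∀ w, w + 1 = x → C.sharp k w →
      x ∈ (C.DD k r l h).image Nat.succ := by
    intro x hx w hw hs
    rw [Finset.mem_image]
    refine ⟨w, ?_, hw⟩
    rw [mem_DD, hw]
    exact ⟨hs, (hA x hx).2.1, (hA x hx).2.2.2.1, (hA x hx).2.2.2.2⟩
  by_cases hD : IsD x₀
  · by_cases hY : x₀ % 11 = 10
    · -- `Y`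
      apply card_pairs
      intro x hx y hy hxy
      by_contra hcon
      push Not at hcon
      refine hne x hx y hy hxy ?_
      have hxD : IsD x := by have := (hk x hx).1; unfold IsD at *; omega
      have hyD : IsD y := by have := (hk y hy).1; unfold IsD at *; omega
      refine C.gcl (j := blk C.t x₀) hxD hyD (hk x hx).2 (hk y hy).2 (hf x hx y hy) ?_ ?_ ?_
      · intro w hw _ hs
        exact hcon.1 (himg x hx w hw hs)
      · intro w hw _ hs
        exact hcon.2 (himg y hy w hw hs)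
      · intro q _ hq _ _
        exact ⟨fun _ => Np_of_Y (by rw [(hk y hy).1, hY]) hq,
          fun _ => Np_of_Y (by rw [(hk x hx).1, hY]) hq⟩
    · -- `X`
      apply card_gaps
      intro x hx y hy hxy
      have h1 := hne x hx y hy (by omega)
      by_contra hcon
      push Not at hcon
      apply h1
      have hx11 := (hk x hx).1
      have hy11 := (hk y hy).1
      have hxD : IsD x := by unfold IsD at *; omega
      have hyD : IsD y := by unfold IsD at *; omega
      refine C.gcl (j := blk C.t x₀) hxD hyD (hk x hx).2 (hk y hy).2 (hf x hx y hy)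
        (C.nonexc_of_ne (by omega)) (C.nonexc_of_ne (by omega)) ?_
      intro q hs hqO hq0 hqj
      by_contra hiff
      -- `q` is a cut between `x` and `y`
      have hlv : lv x = lv y := by unfold lv; omega
      have hq1 : lv q = lv x ∧ x ≤ q + 1 ∧ q + 1 < y := by
        unfold Np at hiff
        omega
      have hq11 : (q + 1) % 11 = x % 11 := by
        have := hq1.1
        unfold lv at this
        unfold IsO at hqO
        unfold IsD at hxD
        omega
      have hblk : blk C.t (q + 1) = blk C.t x := by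
        rw [blk_succ_of_ne (by unfold IsO at hqO; omega), hqj, (hk x hx).2]
      have hmem : q + 1 ∈ (C.DD k r l h).image Nat.succ := by
        rw [Finset.mem_image]
        refine ⟨q, ?_, rfl⟩
        rw [mem_DD]
        refine ⟨hs, ?_, ?_, ?_⟩
        · rw [← (hA x hx).2.1, kd_iff]
          exact ⟨hq11, hblk⟩
        · have := (hA x hx).2.2.2.1
          omega
        · have := (hA y hy).2.2.2.2
          omega
      have := hcon (q + 1) hmem hq1.2.1
      omega
  · -- centres
    apply card_pairs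
    intro x hx y hy hxy
    by_contra hcon
    push Not at hcon
    have hxD : ¬ IsD x := by have := (hk x hx).1; unfold IsD at *; omega
    have hyD : ¬ IsD y := by have := (hk y hy).1; unfold IsD at *; omega
    refine hne x hx y hy hxy ?_
    refine C.V_E ?_ ?_ (hf x hx y hy)
    · exact C.V_of_not_D (hA x hx).1 hxD fun w hw hs => hcon.1 (himg x hx w hw hs)
    · exact C.V_of_not_D (hA y hy).1 hyD fun w hw hs => hcon.2 (himg y hy w hw hs)

/-- One token of each colour. -/
lemma card_le_three {A : Finset ℕ} (h : ∀ x ∈ A, ∀ y ∈ A, x ≠ y → C.f x ≠ C.f y) :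
    A.card ≤ 3 := by
  have h1 : A.card ≤ (Finset.univ : Finset (Fin 3)).card :=
    Finset.card_le_card_of_injOn C.f (fun _ _ => Finset.mem_coe.2 (Finset.mem_univ _))
      (fun x hx y hy hxy => by
        by_contra hne
        exact h x hx y hy hne hxy)
  simpa using h1

theorem Sh_zero_card (C : Cfg) : (C.Sh 0).card ≤ 3 := by
  apply C.card_le_three
  intro x hx y hy hxy hf
  rw [mem_Sh] at hx hy
  exact hxy (C.sharp_unique hx hy hf)

lemma card_three (A : Finset ℕ) (b : ℕ) (h : ∀ c : Fin 3, (A.filter fun x => C.f x = c).card ≤ b) :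
    A.card ≤ 3 * b := by
  classical
  have h1 := Finset.card_eq_sum_card_fiberwise (f := C.f) (s := A) (t := Finset.univ)
    (fun x _ => Finset.mem_coe.2 (Finset.mem_univ _))
  rw [h1]
  calc _ ≤ ∑ _c : Fin 3, b := Finset.sum_le_sum fun c _ => h c
    _ = 3 * b := by simp

/-- The recurrence, first form. -/
lemma NR_le_DD (k r l h : ℕ) : (C.NR (k + 1) r l h).card ≤ 3 * (1 + (C.DD k r l h).card) := by
  classical
  apply C.card_three
  intro c
  apply C.crude (c := c)
  · intro x hx
    rw [Finset.mem_filter, mem_NR] at hx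
    exact ⟨hx.1.1.1, hx.1.2.1, hx.2, hx.1.2.2.1, hx.1.2.2.2⟩
  · intro x hx y hy hxy hE
    rw [Finset.mem_filter, mem_NR] at hx hy
    exact hxy (C.sharp_unique hx.1.1 hy.1.1 hE)

lemma DD_le_zero {k r h : ℕ} (hr : r < 11 * C.t) :
    (C.DD k ((r + 1) % (11 * C.t)) 0 h).card ≤ (C.NR k r 0 h).card := by
  apply Finset.card_le_card
  intro u hu
  rw [mem_DD, kd_succ_iff C.ht hr] at hu
  rw [mem_NR]
  exact ⟨hu.1, hu.2.1, Nat.zero_le _, by omega⟩

lemma DD_le {k r l h : ℕ} (hr : r < 11 * C.t) :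
    (C.DD k ((r + 1) % (11 * C.t)) l h).card ≤ (C.NR k r l h).card + 1 := by
  classical
  have h1 : C.DD k ((r + 1) % (11 * C.t)) l h ⊆ insert (l - 1) (C.NR k r l h) := by
    intro u hu
    rw [mem_DD, kd_succ_iff C.ht hr] at hu
    rw [Finset.mem_insert, mem_NR]
    by_cases hl : l ≤ u
    · right
      exact ⟨hu.1, hu.2.1, hl, by omega⟩
    · left
      omega
  exact (Finset.card_le_card h1).trans (Finset.card_insert_le _ _)

lemma NR_mono {i k r l h : ℕ} (hik : i ≤ k) : (C.NR i r l h).card ≤ (C.NR k r l h).card := by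
  apply Finset.card_le_card
  intro u hu
  rw [mem_NR] at *
  exact ⟨C.sharp_mono hik hu.1, hu.2⟩

lemma NR_zero_le (r l h : ℕ) : (C.NR 0 r l h).card ≤ 3 := by
  refine le_trans (Finset.card_le_card ?_) C.Sh_zero_card
  intro u hu
  rw [mem_NR] at hu
  exact (C.mem_Sh).2 hu.1

/-- A bound for all tokens. -/
noncomputable def top : ℕ := C.S.sup id + 1

lemma lt_top' {u : ℕ} (hu : u ∈ C.S) : u + 1 ≤ C.top := by
  unfold top
  have := Finset.le_sup (f := id) hu
  simp only [id] at this
  omega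

lemma steps {k r : ℕ} (hr : r < 11 * C.t) (i : ℕ) :
    2 * (C.NR (k + 1) ((r + (i + 1)) % (11 * C.t)) 0 C.top).card + 3 ≤
      3 ^ (i + 1) * (2 * (C.NR k r 0 C.top).card + 3) := by
  have hP : 0 < 11 * C.t := by have := C.ht; omega
  induction i with
  | zero =>
    have h1 := C.NR_le_DD k ((r + 1) % (11 * C.t)) 0 C.top
    have h2 := C.DD_le_zero (k := k) (h := C.top) hr
    simp only [zero_add, pow_one]
    omega
  | succ i ih =>
    have h1 := C.NR_le_DD k ((r + (i + 1 + 1)) % (11 * C.t)) 0 C.top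
    have h2 := C.DD_le_zero (k := k) (h := C.top)
      (Nat.mod_lt (r + (i + 1)) hP)
    rw [show ((r + (i + 1)) % (11 * C.t) + 1) % (11 * C.t) = (r + (i + 1 + 1)) % (11 * C.t) by
      rw [Nat.mod_add_mod]; rfl] at h2
    have h3 := C.NR_mono (i := k) (k := k + 1) (r := (r + (i + 1)) % (11 * C.t)) (l := 0)
      (h := C.top) (Nat.le_succ k)
    rw [pow_succ]
    nlinarith

lemma out_eq {k j : ℕ} : C.out k j = (C.NR k (11 * j + 10) 0 C.top).card := by
  classical
  unfold out
  congr 1
  ext u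
  rw [mem_NR, Finset.mem_filter, mem_Sh, kd_eq]
  constructor
  · rintro ⟨h1, h2, h3⟩
    have := C.lt_top' h1.1
    exact ⟨h1, by rw [h2, h3]; omega, Nat.zero_le _, by omega⟩
  · rintro ⟨h1, h2, h3⟩
    have := Nat.mod_lt u (show 11 > 0 by norm_num)
    exact ⟨h1, by omega, by omega⟩

lemma step_of_out {k j i : ℕ} (hj : j < C.t) (hi : i < 11) :
    (C.NR (k + 1) ((11 * j + 10 + (i + 1)) % (11 * C.t)) 0 C.top).card ≤
      3 ^ 12 * (1 + C.out k j) := by
  have h1 := C.steps (k := k) (r := 11 * j + 10) (by omega) i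
  rw [← C.out_eq] at h1
  have h2 : 3 ^ (i + 1) ≤ 3 ^ 11 := Nat.pow_le_pow_right (by norm_num) (by omega)
  have h3 : 3 ^ (i + 1) * (2 * C.out k j + 3) ≤ 3 ^ 11 * (2 * C.out k j + 3) :=
    Nat.mul_le_mul_right _ h2
  omega

theorem out_crude (C : Cfg) {k j : ℕ} (hj : j < C.t) :
    C.out (k + 1) ((j + 1) % C.t) ≤ 3 ^ 12 * (1 + C.out k j) := by
  have h1 := C.step_of_out (k := k) (i := 10) hj (by norm_num)
  have h2 : (11 * j + 10 + (10 + 1)) % (11 * C.t) = 11 * ((j + 1) % C.t) + 10 := by
    rw [Nat.mod_mul]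
    have e1 : (11 * j + 10 + (10 + 1)) % 11 = 10 := by omega
    have e2 : (11 * j + 10 + (10 + 1)) / 11 = j + 1 := by omega
    rw [e1, e2]
    omega
  rw [h2, ← C.out_eq] at h1
  exact h1

lemma card_kinds (A : Finset ℕ) (b : ℕ)
    (h : ∀ r < 11 * C.t, (A.filter fun x => kd C.t x = r).card ≤ b) :
    A.card ≤ 11 * C.t * b := by
  classical
  have h1 := Finset.card_eq_sum_card_fiberwise (f := kd C.t) (s := A)
    (t := Finset.range (11 * C.t))
    (fun x _ => by
      rw [Finset.mem_coe, Finset.mem_range]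
      exact kd_lt C.ht x)
  rw [h1]
  calc _ ≤ ∑ _r ∈ Finset.range (11 * C.t), b :=
        Finset.sum_le_sum fun r hr => h r (Finset.mem_range.1 hr)
    _ = 11 * C.t * b := by simp

theorem Sh_card_le (C : Cfg) {k B : ℕ} (h : ∀ j < C.t, C.out k j ≤ B) :
    (C.Sh (k + 1)).card ≤ 11 * C.t * (3 ^ 12 * (1 + B)) := by
  classical
  have ht := C.ht
  apply C.card_kinds
  intro r hr
  obtain ⟨j, i, hj, hi, hr'⟩ : ∃ j i, j < C.t ∧ i < 11 ∧
      r = (11 * j + 10 + (i + 1)) % (11 * C.t) := by
    by_cases h0 : r / 11 = 0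
    · refine ⟨C.t - 1, r % 11, by omega, by omega, ?_⟩
      have : 11 * (C.t - 1) + 10 + (r % 11 + 1) = r + 11 * C.t := by omega
      rw [this, Nat.add_mod_right, Nat.mod_eq_of_lt hr]
    · refine ⟨r / 11 - 1, r % 11, by omega, by omega, ?_⟩
      have : 11 * (r / 11 - 1) + 10 + (r % 11 + 1) = r := by omega
      rw [this, Nat.mod_eq_of_lt hr]
  have h1 := C.step_of_out (k := k) hj hi
  rw [← hr'] at h1
  have h2 : ((C.Sh (k + 1)).filter fun x => kd C.t x = r) ⊆ C.NR (k + 1) r 0 C.top := by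
    intro u hu
    rw [Finset.mem_filter, mem_Sh] at hu
    rw [mem_NR]
    have := C.lt_top' hu.1.1
    exact ⟨hu.1, hu.2, Nat.zero_le _, by omega⟩
  have h3 : 3 ^ 12 * (1 + C.out k j) ≤ 3 ^ 12 * (1 + B) :=
    Nat.mul_le_mul_left _ (by have := h j hj; omega)
  exact (Finset.card_le_card h2).trans (h1.trans h3)

lemma round_aux {l h c r : ℕ} (hr : r < 11 * C.t)
    (hc : ∀ k, (C.NR k r l h).card ≤ c) (i : ℕ) :
    ∀ k, (C.NR k ((r + i) % (11 * C.t)) l h).card + 3 ≤ 3 ^ i * (c + 3) := by
  have hP : 0 < 11 * C.t := by have := C.ht; omega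
  induction i with
  | zero =>
    intro k
    have := hc k
    rw [add_zero, Nat.mod_eq_of_lt hr]
    omega
  | succ i ih =>
    intro k
    rw [pow_succ]
    have hpos : 0 < 3 ^ i := by positivity
    cases k with
    | zero =>
      have h1 := C.NR_zero_le ((r + (i + 1)) % (11 * C.t)) l h
      nlinarith
    | succ k =>
      have h1 := C.NR_le_DD k ((r + (i + 1)) % (11 * C.t)) l h
      have h2 := C.DD_le (k := k) (l := l) (h := h) (Nat.mod_lt (r + i) hP)
      rw [show ((r + i) % (11 * C.t) + 1) % (11 * C.t) = (r + (i + 1)) % (11 * C.t) by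
        rw [Nat.mod_add_mod]; rfl] at h2
      have h3 := ih k
      nlinarith

theorem rich_of_many (t c : ℕ) : ∃ X : ℕ, 0 < X ∧ ∀ C : Cfg, C.t = t → ∀ k l h : ℕ,
    X ≤ ((C.Sh k).filter fun u => l ≤ u ∧ u ≤ h).card → ∀ o < 11, ∀ j < C.t,
      c ≤ (C.S.filter fun x => l < x ∧ x ≤ h ∧ x % 11 = o ∧ blk C.t x = j).card := by
  classical
  refine ⟨11 * t * (3 ^ (11 * t) * (c + 3)) + 1, Nat.succ_pos _, ?_⟩
  rintro C rfl k l h hX o ho j hj
  by_contra hcon
  push Not at hcon
  have hr : o + 11 * j < 11 * C.t := by omega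
  have hc : ∀ k, (C.NR k (o + 11 * j) l h).card ≤ c := by
    intro k
    have h1 : C.NR k (o + 11 * j) l h ⊆
        insert l (C.S.filter fun x => l < x ∧ x ≤ h ∧ x % 11 = o ∧ blk C.t x = j) := by
      intro u hu
      rw [mem_NR, kd_eq] at hu
      rw [Finset.mem_insert, Finset.mem_filter]
      by_cases hl : u = l
      · left; exact hl
      · right
        have := Nat.mod_lt u (show 11 > 0 by norm_num)
        refine ⟨hu.1.1, by omega, hu.2.2.2, ?_, ?_⟩
        · omega
        · omega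
    have h2 := (Finset.card_le_card h1).trans (Finset.card_insert_le _ _)
    omega
  have h1 : ((C.Sh k).filter fun u => l ≤ u ∧ u ≤ h).card ≤
      11 * C.t * (3 ^ (11 * C.t) * (c + 3)) := by
    apply C.card_kinds
    intro s hs
    obtain ⟨i, hi, hsi⟩ : ∃ i ≤ 11 * C.t, s = (o + 11 * j + i) % (11 * C.t) := by
      by_cases h0 : o + 11 * j ≤ s
      · refine ⟨s - (o + 11 * j), by omega, ?_⟩
        rw [show o + 11 * j + (s - (o + 11 * j)) = s by omega, Nat.mod_eq_of_lt hs]
      · refine ⟨s + 11 * C.t - (o + 11 * j), by omega, ?_⟩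
        rw [show o + 11 * j + (s + 11 * C.t - (o + 11 * j)) = s + 11 * C.t by omega,
          Nat.add_mod_right, Nat.mod_eq_of_lt hs]
    have h2 := C.round_aux hr hc i k
    rw [← hsi] at h2
    have h3 : 3 ^ i ≤ 3 ^ (11 * C.t) := Nat.pow_le_pow_right (by norm_num) hi
    have h4 : 3 ^ i * (c + 3) ≤ 3 ^ (11 * C.t) * (c + 3) := Nat.mul_le_mul_right _ h3
    have h5 : (((C.Sh k).filter fun u => l ≤ u ∧ u ≤ h).filter fun x => kd C.t x = s) ⊆
        C.NR k s l h := by
      intro u hu
      rw [Finset.mem_filter, Finset.mem_filter, mem_Sh] at hu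
      rw [mem_NR]
      exact ⟨hu.1.1, hu.2, hu.1.2.1, hu.1.2.2⟩
    have h6 := Finset.card_le_card h5
    omega
  omega

theorem classes_le (C : Cfg) {k : ℕ} (A : Finset ℕ) (hA : A ⊆ C.S)
    (hne : ∀ x ∈ A, ∀ y ∈ A, x ≠ y → ¬ C.E k x y) :
    A.card ≤ 33 * C.t + 3 * (C.Sh k).card := by
  classical
  have ht := C.ht
  cases k with
  | zero =>
    have h1 := C.card_le_three (A := A) (fun x hx y hy hxy => hne x hx y hy hxy)
    omega
  | succ k =>
    have h1 := Finset.card_eq_sum_card_fiberwise (f := kd C.t) (s := A)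
      (t := Finset.range (11 * C.t))
      (fun x _ => by
        rw [Finset.mem_coe, Finset.mem_range]
        exact kd_lt C.ht x)
    have h2 : ∀ r ∈ Finset.range (11 * C.t), (A.filter fun x => kd C.t x = r).card ≤
        3 * (1 + (C.DD k r 0 C.top).card) := by
      intro r _
      apply C.card_three
      intro c
      apply C.crude (c := c)
      · intro x hx
        rw [Finset.mem_filter, Finset.mem_filter] at hx
        have := C.lt_top' (hA hx.1.1)
        exact ⟨hA hx.1.1, hx.1.2, hx.2, Nat.zero_le _, by omega⟩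
      · intro x hx y hy hxy
        rw [Finset.mem_filter, Finset.mem_filter] at hx hy
        exact hne x hx.1.1 y hy.1.1 hxy
    have h3 := Finset.card_eq_sum_card_fiberwise (f := fun u => kd C.t (u + 1)) (s := C.Sh k)
      (t := Finset.range (11 * C.t))
      (fun x _ => by
        rw [Finset.mem_coe, Finset.mem_range]
        exact kd_lt C.ht (x + 1))
    have h4 : ∀ r ∈ Finset.range (11 * C.t), (C.DD k r 0 C.top).card ≤
        ((C.Sh k).filter fun u => kd C.t (u + 1) = r).card := by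
      intro r _
      apply Finset.card_le_card
      intro u hu
      rw [mem_DD] at hu
      rw [Finset.mem_filter, mem_Sh]
      exact ⟨hu.1, hu.2.1⟩
    have h5 := Finset.card_le_card (C.Sh_mono (Nat.le_succ k))
    calc A.card ≤ ∑ r ∈ Finset.range (11 * C.t), 3 * (1 + (C.DD k r 0 C.top).card) := by
          rw [h1]; exact Finset.sum_le_sum h2
      _ ≤ ∑ r ∈ Finset.range (11 * C.t),
          3 * (1 + ((C.Sh k).filter fun u => kd C.t (u + 1) = r).card) :=
          Finset.sum_le_sum fun r hr => by have := h4 r hr; omega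
      _ = 33 * C.t + 3 * (C.Sh k).card := by
          rw [h3, ← Finset.mul_sum, Finset.sum_add_distrib]
          simp
          ring
      _ ≤ _ := by
          have : (C.Sh k).card ≤ (C.Sh (k + 1)).card := h5
          omega

end Cfg

end MP91e814.BP
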