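import Pool.Agent.MP_91e814_lc.BPMain

/-!
Block paths: the number of classes is bounded.
-/

namespace MP91e814.BP

namespace FinalAux

/-- An increasing enumeration of a finite set of naturals. -/
lemma exists_enum (T : Finset ℕ) : ∃ g : ℕ → ℕ, (∀ i < T.card, g i ∈ T) ∧
    ∀ i j, i < j → j < T.card → g i < g j := by
  let e := T.orderEmbOfFin rfl
  refine ⟨fun i => if h : i < T.card then e ⟨i, h⟩ else 0, ?_, ?_⟩
  · intro i hi
    simp only [dif_pos hi]
    exact T.orderEmbOfFin_mem rfl _
  · intro i j hij hj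
    simp only [dif_pos hj, dif_pos (hij.trans hj)]
    exact e.strictMono hij

lemma card_between {T : Finset ℕ} {g : ℕ → ℕ} (hg : ∀ i < T.card, g i ∈ T)
    (hmono : ∀ i j, i < j → j < T.card → g i < g j) {a n : ℕ} (hn : a + n < T.card) :
    n + 1 ≤ (T.filter fun u => g a ≤ u ∧ u ≤ g (a + n)).card := by
  have hle : ∀ i j, i ≤ j → j < T.card → g i ≤ g j := by
    intro i j hij hj
    rcases Nat.lt_or_ge i j with h | h
    · exact (hmono i j h hj).le
    · rw [show i = j by omega]
  have h1 : (Finset.range (n + 1)).card ≤ (T.filter fun u => g a ≤ u ∧ u ≤ g (a + n)).card := by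
    refine Finset.card_le_card_of_injOn (fun i => g (a + i)) ?_ ?_
    · intro i hi
      simp only [Finset.coe_range, Set.mem_Iio] at hi
      simp only [Finset.coe_filter, Set.mem_ofPred_eq]
      exact ⟨hg _ (by omega), hle _ _ (by omega) (by omega), hle _ _ (by omega) hn⟩
    · intro i hi j hj he
      simp only [Finset.coe_range, Set.mem_Iio] at hi hj
      simp only at he
      rcases Nat.lt_trichotomy i j with h | h | h
      · have := hmono (a + i) (a + j) (by omega) (by omega)
        omega
      · exact h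
      · have := hmono (a + j) (a + i) (by omega) (by omega)
        omega
  simpa using h1

lemma out_mono (C : Cfg) (k j : ℕ) : C.out k j ≤ C.out (k + 1) j := by
  unfold Cfg.out
  exact Finset.card_le_card (Finset.filter_subset_filter _ (C.Sh_mono (by omega)))

end FinalAux

open FinalAux in
theorem Sh_bound : ∃ t M : ℕ, 0 < t ∧ ∀ C : Cfg, C.t = t → ∀ k : ℕ, (C.Sh k).card ≤ M := by
  obtain ⟨t, B, ht, hmain⟩ := mainLemma
  obtain ⟨X, hX, hrich⟩ := Cfg.rich_of_many t 5
  set H := 11 * t * (3 ^ 12 * (1 + B)) + 3 with hH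
  refine ⟨t, (H + 1) * (2 * X), ht, ?_⟩
  intro C hCt k
  by_contra hcon
  push Not at hcon
  obtain ⟨g, hg, hmono⟩ := exists_enum (C.Sh k)
  have hle : ∀ i j, i ≤ j → j < (C.Sh k).card → g i ≤ g j := by
    intro i j hij hj
    rcases Nat.lt_or_ge i j with h | h
    · exact (hmono i j h hj).le
    · rw [show i = j by omega]
  have hidx : ∀ r < H + 1, r * (2 * X) + 2 * X ≤ (H + 1) * (2 * X) := by
    intro r hr
    have := Nat.mul_le_mul_right (2 * X) (show r + 1 ≤ H + 1 by omega)
    linarith [this, add_mul r 1 (2 * X)]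
  -- touched ranges
  let T : ℕ → Prop := fun i => ∀ r < H + 1, ∃ u, g (r * (2 * X)) ≤ u ∧
    u ≤ g (r * (2 * X) + (2 * X - 1)) ∧ C.sharp i u
  have hT : ∀ i, T i → H + 1 ≤ (C.Sh i).card := by
    intro i hi
    choose! p hp1 hp2 hp3 using hi
    have h1 : (Finset.range (H + 1)).card ≤ (C.Sh i).card := by
      refine Finset.card_le_card_of_injOn p ?_ ?_
      · intro r hr
        simp only [Finset.coe_range, Set.mem_Iio] at hr
        exact (C.mem_Sh).2 (hp3 r hr)
      · have aux : ∀ r r', r < H + 1 → r' < H + 1 → r < r' → p r < p r' := by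
          intro r r' hr hr' hlt
          have h2 := hp2 r hr
          have h3 := hp1 r' hr'
          have h4 := hidx r hr
          have h5 : r * (2 * X) + 2 * X ≤ r' * (2 * X) := by
            have := Nat.mul_le_mul_right (2 * X) (show r + 1 ≤ r' by omega)
            linarith [this, add_mul r 1 (2 * X)]
          have h6 := hidx r' hr'
          have h7 := hmono (r * (2 * X) + (2 * X - 1)) (r' * (2 * X)) (by omega) (by omega)
          omega
        intro r hr r' hr' he
        simp only [Finset.coe_range, Set.mem_Iio] at hr hr'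
        rcases Nat.lt_trichotomy r r' with h | h | h
        · have := aux r r' hr hr' h
          omega
        · exact h
        · have := aux r' r hr' hr h
          omega
    simpa using h1
  have hT0 : ¬ T 0 := by
    intro h0
    have h1 := hT 0 h0
    have h2 := C.Sh_zero_card
    omega
  have hTk : T k := by
    intro r hr
    have h1 := hidx r hr
    have h2 : r * (2 * X) < (C.Sh k).card := by omega
    exact ⟨g (r * (2 * X)), le_rfl, hle _ _ (by omega) (by omega), (C.mem_Sh).1 (hg _ h2)⟩
  obtain ⟨K, hK1, hK2⟩ := Nat.exists_not_and_succ_of_not_zero_of_exists hT0 ⟨k, hTk⟩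
  have hK3 : ∃ r < H + 1, ∀ u, g (r * (2 * X)) ≤ u → u ≤ g (r * (2 * X) + (2 * X - 1)) →
      ¬ C.sharp K u := by
    by_contra hx
    push Not at hx
    exact hK1 hx
  obtain ⟨r, hr, hfree⟩ := hK3
  have h1 := hidx r hr
  have R1 : C.Res K (g (r * (2 * X))) (g (r * (2 * X) + X)) := by
    refine ⟨fun u hu1 hu2 => hfree u hu1 (hu2.trans (hle _ _ (by omega) (by omega))), ?_⟩
    refine hrich C hCt k _ _ ?_
    have := card_between hg hmono (a := r * (2 * X)) (n := X) (by omega)
    omega
  have R2 : C.Res K (g (r * (2 * X) + X)) (g (r * (2 * X) + X + (X - 1))) := by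
    refine ⟨fun u hu1 hu2 => hfree u ((hle _ _ (by omega) (by omega)).trans hu1)
      (hu2.trans (hle _ _ (by omega) (by omega))), ?_⟩
    refine hrich C hCt k _ _ ?_
    have := card_between hg hmono (a := r * (2 * X) + X) (n := X - 1) (by omega)
    omega
  have h2 := hmain C hCt K _ _ _ R1 R2
  have h3 := C.Sh_card_le (k := K) (B := B) (fun j hj => (out_mono C K j).trans (h2 j hj))
  have h4 := hT _ hK2
  rw [hCt] at h3
  omega

theorem class_bound : ∃ t M : ℕ, 0 < t ∧ ∀ C : Cfg, C.t = t → ∀ (k : ℕ) (A : Finset ℕ),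
    A ⊆ C.S → (∀ x ∈ A, ∀ y ∈ A, x ≠ y → ¬ C.E k x y) → A.card ≤ M := by
  obtain ⟨t, M, ht, h⟩ := Sh_bound
  refine ⟨t, 33 * t + 3 * M, ht, ?_⟩
  intro C hCt k A hA hne
  have h1 := C.classes_le A hA hne
  have h2 := h C hCt k
  rw [hCt] at h1
  omega

end MP91e814.BP
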