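import Pool.Agent.MP_91e814_lc.Defs
import Pool.Agent.MP_91e814_lc.BPBase

/-!
Kripke semantics for the unimodal language, the logic of a sequence of frames, the stages of the
bisimulation refinement, and the frames with twin points built on block paths.
-/

namespace MP91e814.BP

open MP91e814 MP91e814.Form

/-- Truth at a point of a Kripke model. -/
def Sat {W V : Type} (R : W → W → Prop) (v : V → W → Prop) : W → Form Unit V → Prop
  | x, var p => v p x
  | _, bot => False
  | x, imp φ ψ => Sat R v x φ → Sat R v x ψ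
  | x, box _ φ => ∀ y, R x y → Sat R v y φ

/-- The logic of a sequence of frames. -/
def LogOf {W : ℕ → Type} (R : ∀ n, W n → W n → Prop) : Set (Form Unit ℕ) :=
  {φ | ∀ n (v : ℕ → W n → Prop) (x : W n), Sat (R n) v x φ}

/-- The stages of the bisimulation refinement of a colouring of a frame. -/
def sim {W γ : Type} (R : W → W → Prop) (F : W → γ) : ℕ → W → W → Prop
  | 0, x, y => F x = F y
  | k + 1, x, y => sim R F k x y ∧ ∀ z, ((∃ u, sim R F k z u ∧ R x u) ↔ (∃ u, sim R F k z u ∧ R y u))

/-- The block path frame with twin points: a point is a position below `n` together with a bit;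
points with bit `true` (twins) are seen by all points, and `(x, _)` sees the real point
`(y, false)` iff not `NN t x y`. -/
def YR (t n : ℕ) (p q : Fin n × Bool) : Prop := q.2 = true ∨ ¬ NN t (p.1 : ℕ) (q.1 : ℕ)

section semantics

variable {W V V' : Type} (R : W → W → Prop) (v : V → W → Prop)

lemma sat_boolVal (x : W) : BoolVal (Sat R v x) := ⟨fun h => h, fun _ _ => Iff.rfl⟩

lemma sat_neg (x : W) (φ : Form Unit V) : Sat R v x φ.neg ↔ ¬ Sat R v x φ := Iff.rfl

lemma sat_conj2 (x : W) (φ ψ : Form Unit V) :
    Sat R v x (conj2 φ ψ) ↔ Sat R v x φ ∧ Sat R v x ψ := by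
  simp only [conj2, Sat, Form.neg]; tauto

lemma sat_equiv (x : W) (φ ψ : Form Unit V) :
    Sat R v x (equiv φ ψ) ↔ (Sat R v x φ ↔ Sat R v x ψ) := by
  rw [equiv, sat_conj2]
  simp only [Sat]
  tauto

lemma sat_dia (x : W) (φ : Form Unit V) :
    Sat R v x (dia () φ) ↔ ∃ y, R x y ∧ Sat R v y φ := by
  simp only [dia, Form.neg, Sat]
  constructor
  · intro h
    by_contra hcon
    exact h fun y hy hs => hcon ⟨y, hy, hs⟩
  · rintro ⟨y, hy, hs⟩ h
    exact h y hy hs

lemma sat_conj (x : W) (l : List (Form Unit V)) :
    Sat R v x (conj l) ↔ ∀ φ ∈ l, Sat R v x φ := by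
  induction l with
  | nil => simp [conj, Form.top, Form.neg, Sat]
  | cons a l ih => rw [conj, sat_conj2, ih]; simp

lemma sat_subst (σ : V → Form Unit V') (w : V' → W → Prop) (x : W) (φ : Form Unit V) :
    Sat R w x (φ.subst σ) ↔ Sat R (fun p y => Sat R w y (σ p)) x φ := by
  induction φ generalizing x with
  | var p => rfl
  | bot => rfl
  | imp φ ψ h1 h2 => simp only [Form.subst, Sat]; rw [h1, h2]
  | box m φ h => simp only [Form.subst, Sat]; exact forall_congr' fun y => by rw [h]

end semantics

theorem logOf_normal {W : ℕ → Type} (R : ∀ n, W n → W n → Prop) : IsNormalLogic (LogOf R) where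
  taut := fun φ h n v x => h _ (sat_boolVal (R n) v x)
  axK := by
    intro m φ ψ n v x
    simp only [Sat]
    intro h1 h2 y hy
    exact h1 y hy (h2 y hy)
  mp := fun φ ψ h1 h2 n v x => h1 n v x (h2 n v x)
  nec := fun m φ h n v x y _ => h n v y
  subst := by
    intro σ φ h n v x
    rw [sat_subst]
    exact h n _ x

/-- Membership in the logic of a formula in finitely many variables. -/
lemma emb_mem_logOf {W : ℕ → Type} (R : ∀ n, W n → W n → Prop) {k : ℕ} (φ : Form Unit (Fin k)) :
    emb φ ∈ LogOf R ↔ ∀ n (v : Fin k → W n → Prop) (x : W n), Sat (R n) v x φ := by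
  constructor
  · intro h n v x
    have := h n (fun p y => if hp : p < k then v ⟨p, hp⟩ y else False) x
    rw [emb, sat_subst] at this
    simpa [Sat] using this
  · intro h n v x
    rw [emb, sat_subst]
    exact h n _ x

end MP91e814.BP
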