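import Pool.Agent.MP_91e814_lc.BPCrude
import Pool.Agent.MP_91e814_lc.BPQuiet
import Pool.Agent.MP_91e814_lc.BPMono
import Pool.Agent.MP_91e814_lc.BPCaseOne

/-!
Block paths: the cyclic recurrence and the main lemma (a bound for the number of sharp `Y`).
-/

namespace MP91e814.BP

namespace MainAux

/-- The growth at a bad position. -/
def F (A x : ℕ) : ℕ := A * (1 + x) + x

lemma F_mono (A : ℕ) : Monotone (F A) := by
  intro x y h
  unfold F
  have : A * (1 + x) ≤ A * (1 + y) := Nat.mul_le_mul_left A (by omega)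
  omega

lemma id_le_F (A : ℕ) : id ≤ F A := by
  intro x
  simp only [F, id]
  omega

lemma iter_mono (A : ℕ) {r s : ℕ} (h : r ≤ s) : (F A)^[r] 3 ≤ (F A)^[s] 3 :=
  Function.monotone_iterate_of_id_le (id_le_F A) h 3

lemma three_le (A r : ℕ) : 3 ≤ (F A)^[r] 3 := iter_mono A (Nat.zero_le r)

end MainAux

open MainAux in
/-- Pure arithmetic of a cyclic recurrence. -/
theorem cyc (A b : ℕ) : ∃ t B : ℕ, 0 < t ∧ ∀ Bad : Finset ℕ, Bad.card ≤ b →
    ∀ (K : ℕ) (o : ℕ → ℕ → ℕ), (∀ j < t, o 0 j ≤ 3) →
      (∀ k < K, ∀ j < t, o (k + 1) ((j + 1) % t) ≤ A * (1 + o k j)) →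
      (∀ k < K, ∀ j < t, (j + 1) % t ∉ Bad → o (k + 1) ((j + 1) % t) ≤ max 1 (o k j - 1)) →
      ∀ k ≤ K, ∀ j < t, o k j ≤ B := by
  classical
  set B := (F A)^[b] 3 with hB
  set L := B + 2 with hL
  have hB3 : 3 ≤ B := three_le A b
  have htpos : 0 < (b + 1) * L := by positivity
  refine ⟨(b + 1) * L, B, htpos, ?_⟩
  set t := (b + 1) * L with ht
  intro Bad hBad K o h0 hcrude hgood
  -- a run of good positions
  have hrun : ∃ w < b + 1, ∀ i < L, w * L + i ∉ Bad := by
    by_contra hcon
    push Not at hcon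
    have h1 : Finset.range (b + 1) ⊆ Bad.image (· / L) := by
      intro w hw
      obtain ⟨i, hi, hm⟩ := hcon w (Finset.mem_range.1 hw)
      refine Finset.mem_image.2 ⟨_, hm, ?_⟩
      show (w * L + i) / L = w
      rw [mul_comm, Nat.mul_add_div (by omega), Nat.div_eq_of_lt hi, add_zero]
    have h2 := Finset.card_le_card h1
    have h3 := h2.trans Finset.card_image_le
    rw [Finset.card_range] at h3
    omega
  obtain ⟨w, hw, hrun⟩ := hrun
  set s₀ := w * L with hs₀
  have hs₀L : s₀ + L ≤ t := by
    have : (w + 1) * L ≤ (b + 1) * L := Nat.mul_le_mul_right L (by omega)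
    rw [add_mul, one_mul] at this
    omega
  have hLt : L ≤ t := by omega
  -- the number of bad positions
  let r : ℕ → ℕ := fun m => ((Finset.range (m + 1)).filter fun i => (s₀ + i) % t ∈ Bad).card
  have hr_succ : ∀ m, r (m + 1) = r m + if (s₀ + (m + 1)) % t ∈ Bad then 1 else 0 := by
    intro m
    show ((Finset.range (m + 1 + 1)).filter _).card = _
    rw [Finset.range_add_one, Finset.filter_insert]
    split_ifs with h
    · rw [Finset.card_insert_of_notMem (by simp)]
    · rfl
  have hr_le : ∀ m < t, r m ≤ b := by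
    intro m hm
    refine le_trans ?_ hBad
    refine Finset.card_le_card_of_injOn (fun i => (s₀ + i) % t) ?_ ?_
    · intro i hi
      simp only [Finset.coe_filter, Set.mem_ofPred_eq] at hi
      exact hi.2
    · intro i hi i' hi' he
      simp only [Finset.coe_filter, Finset.mem_range, Set.mem_ofPred_eq] at hi hi'
      have h1 : s₀ + i ≡ s₀ + i' [MOD t] := he
      have h2 := Nat.ModEq.add_left_cancel' s₀ h1
      rw [Nat.ModEq, Nat.mod_eq_of_lt (by omega), Nat.mod_eq_of_lt (by omega)] at h2
      exact h2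
  let β : ℕ → ℕ := fun m => if m < L then max 3 (B - m) else (F A)^[r m] 3
  have hβ3 : ∀ m, 3 ≤ β m := by
    intro m
    show 3 ≤ if m < L then max 3 (B - m) else (F A)^[r m] 3
    split_ifs
    · exact le_max_left _ _
    · exact three_le A _
  have hβB : ∀ m < t, β m ≤ B := by
    intro m hm
    show (if m < L then max 3 (B - m) else (F A)^[r m] 3) ≤ B
    split_ifs
    · exact max_le hB3 (by omega)
    · exact iter_mono A (hr_le m hm)
  have key : ∀ k ≤ K, ∀ m < t, o k ((s₀ + m) % t) ≤ β m := by
    intro k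
    induction k with
    | zero =>
      intro _ m _
      exact (h0 _ (Nat.mod_lt _ htpos)).trans (hβ3 m)
    | succ k ih =>
      intro hk m hm
      rcases Nat.eq_zero_or_pos m with rfl | hmpos
      · -- the first position of the run
        have h1 : (s₀ + 0) % t = ((s₀ + (t - 1)) % t + 1) % t := by
          rw [Nat.mod_add_mod, add_zero, show s₀ + (t - 1) + 1 = s₀ + t by omega,
            Nat.add_mod_right]
        have h2 : ((s₀ + (t - 1)) % t + 1) % t ∉ Bad := by
          rw [← h1, Nat.mod_eq_of_lt (by omega)]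
          exact hrun 0 (by omega)
        have h3 := ih (by omega) (t - 1) (by omega)
        have h4 := hβB (t - 1) (by omega)
        have h5 := hgood k (by omega) _ (Nat.mod_lt _ htpos) h2
        rw [h1]
        refine h5.trans ?_
        show _ ≤ if 0 < L then max 3 (B - 0) else _
        rw [if_pos (by omega)]
        omega
      · obtain ⟨m, rfl⟩ : ∃ m', m = m' + 1 := ⟨m - 1, by omega⟩
        have h1 : (s₀ + (m + 1)) % t = ((s₀ + m) % t + 1) % t := by
          rw [Nat.mod_add_mod, add_assoc]
        have h3 := ih (by omega) m (by omega)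
        by_cases hbad : (s₀ + (m + 1)) % t ∈ Bad
        · have hmL : ¬ m + 1 < L := by
            intro hlt
            rw [Nat.mod_eq_of_lt (by omega)] at hbad
            exact hrun _ hlt hbad
          have h5 := hcrude k (by omega) _ (Nat.mod_lt (s₀ + m) htpos)
          rw [← h1] at h5
          have h6 : β (m + 1) = F A ((F A)^[r m] 3) := by
            show (if m + 1 < L then _ else (F A)^[r (m + 1)] 3) = _
            rw [if_neg hmL, hr_succ, if_pos hbad, Function.iterate_succ_apply']
          have h7 : β m ≤ (F A)^[r m] 3 := by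
            show (if m < L then max 3 (B - m) else (F A)^[r m] 3) ≤ _
            split_ifs with h8
            · have : B - m ≤ 3 := by omega
              exact max_le (three_le A _) (this.trans (three_le A _))
            · exact le_rfl
          rw [h6]
          have h8 : F A (o k ((s₀ + m) % t)) ≤ F A ((F A)^[r m] 3) := F_mono A (h3.trans h7)
          refine le_trans h5 (le_trans ?_ h8)
          unfold F
          omega
        · have h5 := hgood k (by omega) _ (Nat.mod_lt (s₀ + m) htpos) (by rwa [← h1])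
          rw [← h1] at h5
          refine h5.trans ?_
          show _ ≤ if m + 1 < L then max 3 (B - (m + 1)) else (F A)^[r (m + 1)] 3
          have h6 : β m = if m < L then max 3 (B - m) else (F A)^[r m] 3 := rfl
          rw [h6] at h3
          split_ifs with h7
          · rw [if_pos (by omega)] at h3
            omega
          · have h9 := three_le A (r (m + 1))
            by_cases h8 : m < L
            · rw [if_pos h8] at h3
              omega
            · rw [if_neg h8] at h3
              have h10 := iter_mono A (show r m ≤ r (m + 1) by rw [hr_succ]; omega)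
              omega
  intro k hk j hj
  have h1 : (s₀ + (j + t - s₀) % t) % t = j := by
    rw [Nat.add_mod_mod, show s₀ + (j + t - s₀) = j + t by omega, Nat.add_mod_right,
      Nat.mod_eq_of_lt hj]
  have h2 := key k hk ((j + t - s₀) % t) (Nat.mod_lt _ htpos)
  rw [h1] at h2
  exact h2.trans (hβB _ (Nat.mod_lt _ htpos))

namespace MainAux

lemma E_of_f {C : Cfg} (h : ∀ z ∈ C.S, ∀ n, ¬ C.un 0 n z) (k : ℕ) :
    ∀ x y, C.f x = C.f y → C.E k x y := by
  induction k with
  | zero => intro x y hxy; exact hxy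
  | succ k ih =>
    intro x y hxy
    rw [C.E_succ_iff]
    have key : ∀ x, ∀ z ∈ C.S, ¬ C.un k x z := by
      intro x z hz hun
      exact h z hz x (fun u hu hE => hun u hu (ih _ _ hE))
    exact ⟨hxy, fun z hz => ⟨fun h' => absurd h' (key x z hz), fun h' => absurd h' (key y z hz)⟩⟩

lemma not_un {C : Cfg} (h : ∀ z ∈ C.S, ∀ n, ¬ C.un 0 n z) (k : ℕ) :
    ∀ z ∈ C.S, ∀ n, ¬ C.un k n z := by
  intro z hz n hun
  exact h z hz n (fun u hu hE => hun u hu (E_of_f h k _ _ hE))

end MainAux

open MainAux in
theorem mainLemma : ∃ t B : ℕ, 0 < t ∧ ∀ C : Cfg, C.t = t → ∀ K l m h : ℕ,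
    C.Res K l m → C.Res K m h → ∀ j < C.t, C.out (K + 1) j ≤ B := by
  classical
  obtain ⟨t, B₀, ht, hcyc⟩ := cyc (3 ^ 12) 5
  refine ⟨t, max B₀ 1, ht, ?_⟩
  intro C hCt K l m h R1 R2
  by_cases hun : ∀ z ∈ C.S, ∀ n, ¬ C.un 0 n z
  · intro j _
    have h0 : C.Sh (K + 1) = ∅ := by
      refine Finset.eq_empty_of_forall_notMem ?_
      intro u hu
      rw [C.mem_Sh] at hu
      exact not_un hun (K + 1) u hu.1 _ hu.2
    unfold Cfg.out
    rw [h0]
    simp
  push Not at hun
  obtain ⟨z₀, hz₀, n₀, hn₀⟩ := hun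
  have hNN : ∀ x ∈ C.S, C.f x = C.f z₀ → NN C.t n₀ x := fun x hx hf => hn₀ x hx hf.symm
  have hc : ∀ x ∈ C.S, C.f x = C.f z₀ → blk C.t x = blk C.t z₀ := fun x hx hf =>
    (hNN x hx hf).blk_eq_blk (hNN z₀ hz₀ rfl)
  let NM : Finset ℕ := (Finset.range C.t).filter fun j => j ≠ blk C.t z₀ ∧
    ∀ c', 2 ≤ (C.S.filter fun x => IsD x ∧ blk C.t x = j ∧ C.f x ≠ c').card
  by_cases hNM : 1 < NM.card
  · obtain ⟨j₁, hj₁, j₂, hj₂, h12⟩ := Finset.one_lt_card.1 hNM
    simp only [NM, Finset.mem_filter, Finset.mem_range] at hj₁ hj₂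
    intro j hj
    exact (C.case_one (blk_lt C.ht z₀) hj₁.1 hj₂.1 hj₁.2.1 hj₂.2.1 h12 hc ⟨n₀, hNN⟩
      ⟨z₀, hz₀, rfl⟩ hj₁.2.2 hj₂.2.2 R1 R2 j hj).trans (le_max_right _ _)
  · let N3 : Finset ℕ := (Finset.range C.t).filter fun j => ¬ C.NS j (K + 1)
    have hN3 : N3.card ≤ 3 := by
      refine C.bad_card (K + 1) N3 ?_
      intro j hj
      simpa [N3] using hj
    have hBad : (N3 ∪ {blk C.t z₀} ∪ NM).card ≤ 5 := by
      have h1 := Finset.card_union_le (N3 ∪ {blk C.t z₀}) NM
      have h2 := Finset.card_union_le N3 {blk C.t z₀}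
      rw [Finset.card_singleton] at h2
      omega
    have hmain := hcyc _ hBad (K + 1) C.out ?_ ?_ ?_
    · intro j hj
      exact (hmain (K + 1) le_rfl j (by omega)).trans (le_max_left _ _)
    · intro j _
      exact (Finset.card_filter_le _ _).trans C.Sh_zero_card
    · intro k _ j hj
      rw [← hCt]
      exact C.out_crude (by omega)
    · intro k hk j hj hnb
      rw [← hCt] at hnb ⊢
      have hj' : (j + 1) % C.t < C.t := Nat.mod_lt _ C.ht
      simp only [Finset.mem_union, Finset.mem_singleton, not_or] at hnb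
      obtain ⟨⟨hn1, hn2⟩, hn3⟩ := hnb
      have hNS : C.NS ((j + 1) % C.t) (K + 1) := by
        by_contra hx
        exact hn1 (by simp [N3, hj', hx])
      have hmono : ∃ c', (C.S.filter fun x => IsD x ∧ blk C.t x = (j + 1) % C.t ∧
          C.f x ≠ c').card ≤ 1 := by
        by_contra hx
        push Not at hx
        refine hn3 ?_
        simp only [NM, Finset.mem_filter, Finset.mem_range]
        exact ⟨hj', hn2, fun c' => hx c'⟩
      obtain ⟨c', hc'⟩ := hmono
      have hNS' : C.NS ((j + 1) % C.t) (k + 1) := hNS.anti (by omega)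
      have h1 := C.mono_out hj' hNS'.toNSw (R1.anti (by omega)) hc'
      have h2 := C.inn_le (by omega) hNS'
      omega

end MP91e814.BP
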