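import Pool.Agent.MP_91e814_lc.Defs
import Pool.Agent.MP_91e814_lc.BPFrame

/-!
Module L2: the logic of the block path frames with twins is not locally tabular.
-/

namespace MP91e814.BP

open MP91e814 MP91e814.Form

/-- The valuation which marks the residues of the positions modulo `11 * t`. -/
private def nlv (t N : ℕ) (q : Fin (11 * t + 1)) (w : Fin N × Bool) : Prop :=
  w.2 = false ∧ (((q : ℕ) = 11 * t ∧ (w.1 : ℕ) = 0) ∨
    ((q : ℕ) ≠ 11 * t ∧ 1 ≤ (w.1 : ℕ) ∧ (w.1 : ℕ) % (11 * t) = q))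

private lemma nl_arith {t n y : ℕ} (hy : n + 1 ≤ y)
    (hmod : y % (11 * t) = (n + 1) % (11 * t)) : NN t y n ↔ y = n + 1 := by
  have h11 : y % 11 = (n + 1) % 11 := by
    have h1 : y % (11 * t) % 11 = y % 11 := Nat.mod_mod_of_dvd y (dvd_mul_right 11 t)
    have h2 : (n + 1) % (11 * t) % 11 = (n + 1) % 11 :=
      Nat.mod_mod_of_dvd (n + 1) (dvd_mul_right 11 t)
    rw [← h1, ← h2, hmod]
  constructor
  · intro h
    rcases h with h | ⟨_, hD, hO, hN⟩
    · exact h.symm
    · unfold IsD at hD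
      unfold IsO at hO
      unfold Np lv at hN
      omega
  · rintro rfl
    exact NN_succ t n

private lemma nl_exists {t : ℕ} (ht : 0 < t) (n : ℕ) : ∃ φ : Form Unit (Fin (11 * t + 1)),
    ∀ N, n < N → ∀ w : Fin N × Bool,
      Sat (YR t N) (nlv t N) w φ ↔ (w.1 : ℕ) = n ∧ w.2 = false := by
  induction n using Nat.strong_induction_on with
  | _ n ih =>
  rcases n with _ | n
  · refine ⟨var ⟨11 * t, by omega⟩, fun N hN w => ?_⟩
    simp only [Sat, nlv]
    constructor
    · rintro ⟨h1, h2 | h2⟩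
      · exact ⟨h2.2, h1⟩
      · exact absurd rfl h2.1
    · rintro ⟨h1, h2⟩
      exact ⟨h2, Or.inl ⟨by simp, h1⟩⟩
  · have : Nonempty (Form Unit (Fin (11 * t + 1))) := ⟨bot⟩
    choose! c hc using ih
    have hlt : (n + 1) % (11 * t) < 11 * t := Nat.mod_lt _ (by omega)
    refine ⟨conj2 (var ⟨(n + 1) % (11 * t), by omega⟩) (conj2 (neg (dia () (c n)))
      (conj (((List.range (n + 1)).filter fun m => m % (11 * t) = (n + 1) % (11 * t)).map
        fun m => neg (c m)))), fun N hN w => ?_⟩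
    rw [sat_conj2, sat_conj2, sat_neg, sat_dia, sat_conj]
    simp only [List.mem_map, List.mem_filter, List.mem_range, decide_eq_true_eq,
      forall_exists_index, and_imp]
    have hdia : (∃ y, YR t N w y ∧ Sat (YR t N) (nlv t N) y (c n)) ↔ ¬ NN t (w.1 : ℕ) n := by
      constructor
      · rintro ⟨y, hy, hs⟩
        obtain ⟨h1, h2⟩ := (hc n (by omega) N (by omega) y).1 hs
        rcases hy with hy | hy
        · rw [hy] at h2; exact absurd h2 (by simp)
        · rwa [h1] at hy
      · intro h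
        exact ⟨(⟨n, by omega⟩, false), Or.inr h, (hc n (by omega) N (by omega) _).2 ⟨rfl, rfl⟩⟩
    rw [hdia, not_not]
    constructor
    · rintro ⟨h1, h2, h3⟩
      simp only [Sat, nlv] at h1
      obtain ⟨h4, h5⟩ := h1
      have h6 : 1 ≤ (w.1 : ℕ) ∧ (w.1 : ℕ) % (11 * t) = (n + 1) % (11 * t) := by
        rcases h5 with h5 | h5
        · omega
        · exact h5.2
      have h7 : n + 1 ≤ (w.1 : ℕ) := by
        by_contra hcon
        have h8 := h3 _ (w.1 : ℕ) (by omega) h6.2 rfl
        rw [sat_neg] at h8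
        exact h8 ((hc (w.1 : ℕ) (by omega) N (by omega) w).2 ⟨rfl, h4⟩)
      exact ⟨(nl_arith h7 h6.2).1 h2, h4⟩
    · rintro ⟨h1, h2⟩
      refine ⟨?_, ?_, ?_⟩
      · simp only [Sat, nlv]
        refine ⟨h2, Or.inr ⟨by omega, by omega, ?_⟩⟩
        rw [h1]
      · rw [h1]
        exact NN_succ t n
      · intro φ m hm _ hφ
        rw [← hφ, sat_neg]
        intro hs
        have := ((hc m (by omega) N (by omega) w).1 hs).1
        omega

theorem not_locallyTabular {t : ℕ} (ht : 0 < t) :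
    ¬ LocallyTabular (LogOf fun n => YR t n) := by
  intro hL
  obtain ⟨S, hS, hφ⟩ := hL (11 * t + 1)
  choose c hc using nl_exists ht
  choose g hgS hg using hφ
  have : Finite S := hS
  obtain ⟨a, b, hab, hgab⟩ :=
    Finite.exists_ne_map_eq_of_infinite (fun n : ℕ => (⟨g (c n), hgS _⟩ : S))
  have hgab' : g (c a) = g (c b) := by simpa using hgab
  have key : ∀ n, n < max a b + 1 → ∀ w : Fin (max a b + 1) × Bool,
      Sat (YR t (max a b + 1)) (nlv t (max a b + 1)) w (g (c n)) ↔ (w.1 : ℕ) = n ∧ w.2 = false := by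
    intro n hn w
    have h1 := (emb_mem_logOf (fun n => YR t n) _).1 (hg (c n)) (max a b + 1)
      (nlv t (max a b + 1)) w
    rw [sat_equiv] at h1
    rw [← h1]
    exact hc n _ hn w
  have ha := (key a (by omega) (⟨a, by omega⟩, false)).2 ⟨rfl, rfl⟩
  rw [hgab'] at ha
  exact hab ((key b (by omega) (⟨a, by omega⟩, false)).1 ha).1

end MP91e814.BP
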