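import Pool.Agent.MP_91e814_lc.Defs
import Pool.Agent.MP_91e814_lc.BPFrame

/-!
Module L1: if the stages of the bisimulation refinement of all colourings with 4 colours of the
frames `R n` have boundedly many classes then the logic of the frames is 2-tabular.
-/

namespace MP91e814.BP

open MP91e814 MP91e814.Form

section TabAux

variable {W γ : Type} (R : W → W → Prop) (F : W → γ)

private lemma tab_sim_refl (k : ℕ) (x : W) : sim R F k x x := by
  induction k with
  | zero => rfl
  | succ k ih => exact ⟨ih, fun _ => Iff.rfl⟩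

private lemma tab_sim_symm {k : ℕ} {x y : W} (h : sim R F k x y) : sim R F k y x := by
  induction k with
  | zero => exact Eq.symm h
  | succ k ih => exact ⟨ih h.1, fun z => (h.2 z).symm⟩

private lemma tab_sim_trans {k : ℕ} {x y z : W} (h : sim R F k x y) (h' : sim R F k y z) :
    sim R F k x z := by
  induction k with
  | zero => exact Eq.trans h h'
  | succ k ih => exact ⟨ih h.1 h'.1, fun w => (h.2 w).trans (h'.2 w)⟩

private lemma tab_sim_col {k : ℕ} {x y : W} (h : sim R F k x y) : F x = F y := by
  induction k with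
  | zero => exact h
  | succ k ih => exact ih h.1

/-- On a finite frame the refinement stops. -/
private lemma tab_stable [Finite W] : ∃ i, ∀ x y, sim R F i x y → sim R F (i + 1) x y := by
  by_contra hcon
  push Not at hcon
  have hcard : ∀ i, ({p : W × W | sim R F i p.1 p.2} : Set (W × W)).ncard + i ≤
      (Set.univ : Set (W × W)).ncard := by
    intro i
    induction i with
    | zero =>
      simp only [add_zero]
      exact Set.ncard_le_ncard (Set.subset_univ _) (Set.toFinite _)
    | succ i ih =>
      have hlt : ({p : W × W | sim R F (i + 1) p.1 p.2} : Set (W × W)).ncard <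
          ({p : W × W | sim R F i p.1 p.2} : Set (W × W)).ncard := by
        refine Set.ncard_lt_ncard ?_ (Set.toFinite _)
        rw [Set.ssubset_iff_exists]
        refine ⟨fun p hp => hp.1, ?_⟩
        obtain ⟨x, y, h1, h2⟩ := hcon i
        exact ⟨(x, y), h1, h2⟩
      omega
  have := hcard ((Set.univ : Set (W × W)).ncard + 1)
  omega

/-- The collapse of a finite model onto a model with `M + 1` points. -/
private lemma tab_collapse [Finite W] (v : Fin 2 → W → Prop) (M : ℕ)
    (h : ∀ (F : W → Fin 4) (k : ℕ) (A : Finset W),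
      (∀ x ∈ A, ∀ y ∈ A, x ≠ y → ¬ sim R F k x y) → A.card ≤ M) (x₀ : W) :
    ∃ (R' : Fin (M + 1) → Fin (M + 1) → Prop) (v' : Fin 2 → Fin (M + 1) → Prop)
      (a : Fin (M + 1)), ∀ φ : Form Unit (Fin 2), Sat R v x₀ φ ↔ Sat R' v' a φ := by
  classical
  set F : W → Fin 4 := fun w => if v 0 w then (if v 1 w then 3 else 2) else
    (if v 1 w then 1 else 0) with hF
  obtain ⟨i, hi⟩ := tab_stable R F
  let st : Setoid W := ⟨sim R F i, tab_sim_refl R F i, tab_sim_symm R F, tab_sim_trans R F⟩
  have hQ : Finite (Quotient st) := inferInstance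
  have : Fintype (Quotient st) := Fintype.ofFinite _
  have hcard : Fintype.card (Quotient st) ≤ M := by
    have h1 := h F i (Finset.univ.image (Quotient.out : Quotient st → W)) (by
      intro x hx y hy hxy hs
      simp only [Finset.mem_image, Finset.mem_univ, true_and] at hx hy
      obtain ⟨a, rfl⟩ := hx
      obtain ⟨b, rfl⟩ := hy
      apply hxy
      have : a = b := by
        rw [← Quotient.out_eq a, ← Quotient.out_eq b]
        exact Quotient.sound hs
      rw [this])
    rw [Finset.card_image_of_injective _ Quotient.out_injective] at h1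
    simpa using h1
  obtain ⟨e⟩ : Nonempty (Quotient st ↪ Fin (M + 1)) := by
    apply Function.Embedding.nonempty_of_card_le
    simp only [Fintype.card_fin]
    omega
  set p : W → Fin (M + 1) := fun x => e (Quotient.mk st x) with hp
  have hpiff : ∀ x y, p x = p y ↔ sim R F i x y := by
    intro x y
    constructor
    · intro hxy
      exact Quotient.exact (e.injective hxy)
    · intro hxy
      exact congrArg e (Quotient.sound hxy)
  refine ⟨fun a b => ∃ x y, p x = a ∧ p y = b ∧ R x y, fun j a => ∃ x, p x = a ∧ v j x, p x₀, ?_⟩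
  intro φ
  induction φ generalizing x₀ with
  | var j =>
    simp only [Sat]
    constructor
    · intro hv
      exact ⟨x₀, rfl, hv⟩
    · rintro ⟨x, hx, hv⟩
      have h1 : F x = F x₀ := tab_sim_col R F ((hpiff x x₀).1 hx)
      simp only [hF] at h1
      fin_cases j
      · simp only [Fin.zero_eta, Fin.isValue] at hv ⊢
        by_contra hn
        rw [if_pos hv, if_neg hn] at h1
        split_ifs at h1 <;> revert h1 <;> decide
      · simp only [Fin.mk_one, Fin.isValue] at hv ⊢
        by_contra hn
        rw [if_pos hv, if_pos hv, if_neg hn, if_neg hn] at h1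
        split_ifs at h1 <;> revert h1 <;> decide
  | bot => exact Iff.rfl
  | imp φ ψ h1 h2 =>
    simp only [Sat]
    rw [h1 x₀, h2 x₀]
  | box m φ ih =>
    simp only [Sat]
    constructor
    · rintro hs b ⟨x, y, hx, hy, hxy⟩
      have h1 := hi _ _ ((hpiff x x₀).1 hx)
      obtain ⟨u, hu, hxu⟩ := (h1.2 y).1 ⟨y, tab_sim_refl R F i y, hxy⟩
      have h2 := (ih u).1 (hs u hxu)
      rwa [← (hpiff y u).2 hu, hy] at h2
    · intro hs y hy
      exact (ih y).2 (hs (p y) ⟨x₀, y, rfl, rfl, hy⟩)

end TabAux

theorem tabular_of_bounded {W : ℕ → Type} [∀ n, Finite (W n)] (R : ∀ n, W n → W n → Prop)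
    (M : ℕ) (h : ∀ n (F : W n → Fin 4) (k : ℕ) (A : Finset (W n)),
      (∀ x ∈ A, ∀ y ∈ A, x ≠ y → ¬ sim (R n) F k x y) → A.card ≤ M) :
    Tabular (LogOf R) 2 := by
  classical
  let T : Form Unit (Fin 2) → Set ((Fin (M + 1) → Fin (M + 1) → Prop) ×
    (Fin 2 → Fin (M + 1) → Prop) × Fin (M + 1)) := fun φ => {m | Sat m.1 m.2.1 m.2.2 φ}
  let g : Set ((Fin (M + 1) → Fin (M + 1) → Prop) ×
    (Fin 2 → Fin (M + 1) → Prop) × Fin (M + 1)) → Form Unit (Fin 2) := fun S =>
      if hS : ∃ φ, T φ = S then hS.choose else bot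
  refine ⟨Set.range g, Set.finite_range g, fun φ => ⟨g (T φ), ⟨T φ, rfl⟩, ?_⟩⟩
  have hex : ∃ ψ, T ψ = T φ := ⟨φ, rfl⟩
  have hg : T (g (T φ)) = T φ := by
    have : g (T φ) = hex.choose := dif_pos hex
    rw [this]
    exact hex.choose_spec
  rw [emb_mem_logOf]
  intro n v x
  rw [sat_equiv]
  obtain ⟨R', v', a, ha⟩ := tab_collapse (R n) v M (h n) x
  rw [ha, ha]
  have h1 : (R', v', a) ∈ T (g (T φ)) ↔ (R', v', a) ∈ T φ := by rw [hg]
  exact h1.symm

end MP91e814.BP
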