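import Pool.Agent.MP_91e814_lc.BPBase
import Pool.Agent.MP_91e814_lc.BPFrame

/-!
Twin points reduce four cells to three (module T of the negative answer to `MP_91e814_lc`).
-/

namespace MP91e814.BP

namespace Twin

section sim

variable {W γ : Type} (R : W → W → Prop) (F : W → γ)

lemma sim_refl (k : ℕ) (x : W) : sim R F k x x := by
  induction k with
  | zero => rfl
  | succ k ih => exact ⟨ih, fun _ => Iff.rfl⟩

lemma sim_symm {k : ℕ} {x y : W} (h : sim R F k x y) : sim R F k y x := by
  induction k with
  | zero => exact Eq.symm h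
  | succ k ih => exact ⟨ih h.1, fun z => (h.2 z).symm⟩

lemma sim_trans {k : ℕ} {x y z : W} (h : sim R F k x y) (h' : sim R F k y z) :
    sim R F k x z := by
  induction k with
  | zero => exact Eq.trans h h'
  | succ k ih => exact ⟨ih h.1 h'.1, fun w => (h.2 w).trans (h'.2 w)⟩

lemma sim_mono {i k : ℕ} {x y : W} (hik : i ≤ k) (h : sim R F k x y) : sim R F i x y := by
  induction k with
  | zero => obtain rfl : i = 0 := by omega
            exact h
  | succ k ih =>
    rcases Nat.lt_or_ge i (k + 1) with h' | h'
    · exact ih (by omega) h.1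
    · obtain rfl : i = k + 1 := by omega
      exact h

/-- `x` sees the stage `k` class of `z`. -/
def sees (k : ℕ) (x z : W) : Prop := ∃ u, sim R F k z u ∧ R x u

lemma sees_lower {i k : ℕ} {x z : W} (hik : i ≤ k) :
    sees R F i x z ↔ ∃ w, sim R F i z w ∧ sees R F k x w := by
  constructor
  · rintro ⟨u, h1, h2⟩
    exact ⟨u, h1, u, sim_refl R F k u, h2⟩
  · rintro ⟨w, h1, u, h2, h3⟩
    exact ⟨u, sim_trans R F h1 (sim_mono R F hik h2), h3⟩

lemma sim_succ_iff {k : ℕ} {x y : W} :
    sim R F (k + 1) x y ↔ F x = F y ∧ ∀ z, (sees R F k x z ↔ sees R F k y z) := by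
  constructor
  · intro h
    exact ⟨sim_mono R F (Nat.zero_le _) h, h.2⟩
  · rintro ⟨hf, h⟩
    have key : ∀ i, i ≤ k + 1 → sim R F i x y := by
      intro i
      induction i with
      | zero => intro _; exact hf
      | succ i ih =>
        intro hi
        refine ⟨ih (by omega), fun z => ?_⟩
        change sees R F i x z ↔ sees R F i y z
        rw [sees_lower R F (show i ≤ k by omega), sees_lower R F (show i ≤ k by omega)]
        simp only [h]
    exact key (k + 1) le_rfl

lemma sees_congr {k : ℕ} {x z z' : W} (h : sim R F k z z') :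
    sees R F k x z ↔ sees R F k x z' := by
  constructor
  · rintro ⟨u, h1, h2⟩
    exact ⟨u, sim_trans R F (sim_symm R F h) h1, h2⟩
  · rintro ⟨u, h1, h2⟩
    exact ⟨u, sim_trans R F h h1, h2⟩

end sim

section twin

variable {t n : ℕ} (F : Fin n × Bool → Fin 4)

/-- The positions `x` and `y` see the same classes of all stages below `i`. -/
def eqv (t : ℕ) (i : ℕ) (x y : Fin n) : Prop :=
  ∀ i' < i, ∀ z, (sees (YR t n) F i' (x, false) z ↔ sees (YR t n) F i' (y, false) z)

variable {F}

lemma eqv_refl (i : ℕ) (x : Fin n) : eqv F t i x x := fun _ _ _ => Iff.rfl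

lemma eqv_symm {i : ℕ} {x y : Fin n} (h : eqv F t i x y) : eqv F t i y x :=
  fun i' hi' z => (h i' hi' z).symm

lemma eqv_trans {i : ℕ} {x y z : Fin n} (h : eqv F t i x y) (h' : eqv F t i y z) :
    eqv F t i x z :=
  fun i' hi' w => (h i' hi' w).trans (h' i' hi' w)

lemma eqv_anti {i k : ℕ} {x y : Fin n} (hik : i ≤ k) (h : eqv F t k x y) : eqv F t i x y :=
  fun i' hi' => h i' (by omega)

lemma sees_bit {i : ℕ} {x : Fin n} {s s' : Bool} {z : Fin n × Bool} :
    sees (YR t n) F i (x, s) z ↔ sees (YR t n) F i (x, s') z := Iff.rfl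

lemma sim_iff {i : ℕ} {x y : Fin n} {s s' : Bool} :
    sim (YR t n) F i (x, s) (y, s') ↔ F (x, s) = F (y, s') ∧ eqv F t i x y := by
  induction i with
  | zero =>
    constructor
    · intro h
      exact ⟨h, fun i' hi' => absurd hi' (Nat.not_lt_zero _)⟩
    · intro h
      exact h.1
  | succ i ih =>
    constructor
    · rintro ⟨h1, h2⟩
      rw [ih] at h1
      refine ⟨h1.1, fun i' hi' z => ?_⟩
      rcases Nat.lt_or_ge i' i with h | h
      · exact h1.2 i' h z
      · obtain rfl : i' = i := by omega
        exact h2 z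
    · rintro ⟨h1, h2⟩
      refine ⟨ih.2 ⟨h1, eqv_anti (Nat.le_succ i) h2⟩, fun z => ?_⟩
      exact h2 i (Nat.lt_succ_self i) z

variable (F) in
/-- The colour `c` is not the colour of a twin of a position equivalent to `x`. -/
def N (t : ℕ) (i : ℕ) (x : Fin n) (c : Fin 4) : Prop := ∀ y, eqv F t i x y → F (y, true) ≠ c

lemma N_mono {i k : ℕ} {x : Fin n} {c : Fin 4} (hik : i ≤ k) (h : N F t i x c) :
    N F t k x c := fun y hy => h y (eqv_anti hik hy)

lemma N_congr {i : ℕ} {x y : Fin n} {c : Fin 4} (h : eqv F t i x y) (hN : N F t i x c) :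
    N F t i y c := fun z hz => hN z (eqv_trans h hz)

lemma N_iff {i : ℕ} {x y : Fin n} {c : Fin 4} (h : eqv F t i x y) :
    N F t i x c ↔ N F t i y c := ⟨N_congr h, N_congr (eqv_symm h)⟩

lemma not_N_twin {i : ℕ} {x : Fin n} : ¬ N F t i x (F (x, true)) :=
  fun h => h x (eqv_refl i x) rfl

/-- A class not seen by somebody consists of real points. -/
lemma N_of_not_sees {i : ℕ} {x z : Fin n × Bool} (h : ¬ sees (YR t n) F i x z) :
    N F t i z.1 (F z) := by
  intro y hy hF
  apply h
  refine ⟨(y, true), ?_, Or.inl rfl⟩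
  obtain ⟨z1, s⟩ := z
  rw [sim_iff]
  exact ⟨hF.symm, hy⟩

lemma real_of_N {i : ℕ} {z : Fin n × Bool} (h : N F t i z.1 (F z)) : z.2 = false := by
  obtain ⟨z1, s⟩ := z
  cases s with
  | false => rfl
  | true => exact absurd h not_N_twin

lemma N_sim {i : ℕ} {z u : Fin n × Bool} (hs : sim (YR t n) F i z u) (h : N F t i z.1 (F z)) :
    N F t i u.1 (F u) := by
  obtain ⟨z1, s⟩ := z
  obtain ⟨u1, s'⟩ := u
  rw [sim_iff] at hs
  simp only at h ⊢
  rw [← hs.1]
  exact N_congr hs.2 h

/-! ### The rank of a colour -/

open scoped Classical in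
variable (F) in
/-- The number of stages at which `c` is not in `N`. -/
noncomputable def L (t k : ℕ) (x : Fin n) (c : Fin 4) : ℕ :=
  ((Finset.range (k + 1)).filter fun i => ¬ N F t i x c).card

lemma L_le_of {i k : ℕ} {x : Fin n} {c : Fin 4} (h : N F t i x c) : L F t k x c ≤ i := by
  classical
  have h1 : ((Finset.range (k + 1)).filter fun i => ¬ N F t i x c) ⊆ Finset.range i := by
    intro j hj
    rw [Finset.mem_filter] at hj
    rw [Finset.mem_range]
    by_contra hcon
    exact hj.2 (N_mono (by omega) h)
  have h2 := Finset.card_le_card h1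
  rw [Finset.card_range] at h2
  exact h2

lemma lt_L_of {i k : ℕ} {x : Fin n} {c : Fin 4} (hi : i ≤ k) (h : ¬ N F t i x c) :
    i < L F t k x c := by
  classical
  have h1 : Finset.range (i + 1) ⊆ ((Finset.range (k + 1)).filter fun i => ¬ N F t i x c) := by
    intro j hj
    rw [Finset.mem_range] at hj
    rw [Finset.mem_filter, Finset.mem_range]
    exact ⟨by omega, fun hN => h (N_mono (by omega) hN)⟩
  have h2 := Finset.card_le_card h1
  rw [Finset.card_range] at h2
  exact h2

lemma L_congr {i k : ℕ} {x y : Fin n} {c : Fin 4} (h : eqv F t i x y) (hN : N F t i x c) :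
    L F t k x c = L F t k y c := by
  classical
  unfold L
  congr 1
  apply Finset.filter_congr
  intro j _
  rcases Nat.lt_or_ge j i with hj | hj
  · rw [N_iff (eqv_anti (by omega) h)]
  · have h1 : N F t j x c := N_mono hj hN
    have h2 : N F t j y c := N_mono hj (N_congr h hN)
    simp [h1, h2]

variable (F) in
/-- The key of a colour. -/
noncomputable def key (t k : ℕ) (x : Fin n) (c : Fin 4) : ℕ := 4 * L F t k x c + (c : ℕ)

lemma key_inj {k : ℕ} {x : Fin n} {c c' : Fin 4} (h : key F t k x c = key F t k x c') :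
    c = c' := by
  unfold key at h
  have h1 := c.isLt
  have h2 := c'.isLt
  apply Fin.ext
  omega

open scoped Classical in
variable (F) in
/-- The colours with smaller key. -/
noncomputable def low (t k : ℕ) (x : Fin n) (c : Fin 4) : Finset (Fin 4) :=
  Finset.univ.filter fun c' => key F t k x c' < key F t k x c

lemma mem_low {k : ℕ} {x : Fin n} {c c' : Fin 4} :
    c' ∈ low F t k x c ↔ key F t k x c' < key F t k x c := by
  unfold low
  rw [Finset.mem_filter]
  exact ⟨fun h => h.2, fun h => ⟨Finset.mem_univ _, h⟩⟩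

variable (F) in
/-- The rank of a colour. -/
noncomputable def rk (t k : ℕ) (x : Fin n) (c : Fin 4) : ℕ := (low F t k x c).card

lemma rk_lt_of {k : ℕ} {x : Fin n} {c c' : Fin 4} (h : key F t k x c < key F t k x c') :
    rk F t k x c < rk F t k x c' := by
  apply Finset.card_lt_card
  rw [Finset.ssubset_iff_of_subset]
  · exact ⟨c, by rw [mem_low]; exact h, by rw [mem_low]; omega⟩
  · intro d hd
    rw [mem_low] at *
    omega

lemma rk_inj {k : ℕ} {x : Fin n} {c c' : Fin 4} (h : rk F t k x c = rk F t k x c') :
    c = c' := by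
  rcases Nat.lt_trichotomy (key F t k x c) (key F t k x c') with h' | h' | h'
  · have := rk_lt_of h'; omega
  · exact key_inj h'
  · have := rk_lt_of h'; omega

lemma rk_lt_three {k : ℕ} {x : Fin n} {c : Fin 4} (h : N F t k x c) : rk F t k x c < 3 := by
  have h1 : rk F t k x c < rk F t k x (F (x, true)) := by
    apply rk_lt_of
    have h2 : L F t k x c ≤ k := L_le_of h
    have h3 : k < L F t k x (F (x, true)) := lt_L_of le_rfl not_N_twin
    unfold key
    have := c.isLt
    omega
  have h4 : rk F t k x (F (x, true)) < 4 := by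
    have h5 : (low F t k x (F (x, true))) ⊂ Finset.univ := by
      rw [Finset.ssubset_iff_of_subset (Finset.subset_univ _)]
      exact ⟨F (x, true), Finset.mem_univ _, by rw [mem_low]; omega⟩
    have h6 := Finset.card_lt_card h5
    simpa [rk] using h6
  omega

lemma rk_congr {i k : ℕ} {x y : Fin n} {c : Fin 4} (hi : i ≤ k) (h : eqv F t i x y)
    (hN : N F t i x c) : rk F t k x c = rk F t k y c := by
  unfold rk
  congr 1
  ext c'
  rw [mem_low, mem_low]
  unfold key
  have h1 := L_congr (k := k) h hN
  have h2 : L F t k x c ≤ i := L_le_of hN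
  have hc := c.isLt
  by_cases hc' : N F t i x c'
  · have h3 := L_congr (k := k) h hc'
    omega
  · have h4 : i < L F t k x c' := lt_L_of hi hc'
    have h5 : i < L F t k y c' := lt_L_of hi (fun hy => hc' (N_congr (eqv_symm h) hy))
    omega

/-- The key step: colours are recovered from ranks. -/
lemma F_eq {i k : ℕ} {x y : Fin n} {c c' : Fin 4} (hi : i ≤ k) (h : eqv F t i x y)
    (hN : N F t i x c) (hr : rk F t k x c = rk F t k y c') : c = c' := by
  rw [rk_congr hi h hN] at hr
  exact rk_inj hr

/-! ### The configuration -/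

open scoped Classical in
variable (F) in
/-- The tokens. -/
noncomputable def tok (t k : ℕ) : Finset ℕ :=
  Finset.image (fun x : Fin n => (x : ℕ))
    (Finset.univ.filter fun x : Fin n => N F t k x (F (x, false)))

open scoped Classical in
variable (F) in
/-- The colours of the tokens. -/
noncomputable def col (t k : ℕ) (x : ℕ) : Fin 3 :=
  if h : x < n then
    if h' : rk F t k ⟨x, h⟩ (F (⟨x, h⟩, false)) < 3 then
      ⟨rk F t k ⟨x, h⟩ (F (⟨x, h⟩, false)), h'⟩ else 0
  else 0

variable (F) in
/-- The configuration. -/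
noncomputable def cf (t : ℕ) (ht : 0 < t) (k : ℕ) : Cfg where
  t := t
  ht := ht
  S := tok F t k
  f := col F t k

lemma mem_tok {k : ℕ} {x : ℕ} :
    x ∈ tok F t k ↔ ∃ h : x < n, N F t k ⟨x, h⟩ (F (⟨x, h⟩, false)) := by
  classical
  unfold tok
  rw [Finset.mem_image]
  constructor
  · rintro ⟨y, hy, rfl⟩
    rw [Finset.mem_filter] at hy
    exact ⟨y.isLt, hy.2⟩
  · rintro ⟨h, hN⟩
    exact ⟨⟨x, h⟩, by simpa using hN, rfl⟩

lemma col_eq {k : ℕ} {x : Fin n} (hx : N F t k x (F (x, false))) :
    (col F t k (x : ℕ) : ℕ) = rk F t k x (F (x, false)) := by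
  unfold col
  rw [dif_pos x.isLt, dif_pos (rk_lt_three hx)]

lemma main {ht : 0 < t} {k : ℕ} (i : ℕ) (hi : i ≤ k) : ∀ x y : Fin n,
    N F t k x (F (x, false)) → N F t k y (F (y, false)) →
    (cf F t ht k).E i x y → eqv F t i x y := by
  induction i with
  | zero => intro x y _ _ _ i' hi'; exact absurd hi' (Nat.not_lt_zero _)
  | succ i ih =>
    have one : ∀ x y : Fin n, (cf F t ht k).E (i + 1) x y →
        ∀ z, sees (YR t n) F i (y, false) z → sees (YR t n) F i (x, false) z := by
      intro x y hE z hy
      by_contra hx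
      obtain ⟨u, hzu, hRu⟩ := hy
      rw [sees_congr (YR t n) F hzu] at hx
      have hN : N F t i u.1 (F u) := N_of_not_sees hx
      have hreal := real_of_N hN
      obtain ⟨u1, s⟩ := u
      simp only at hreal
      subst hreal
      simp only at hN
      have hNk : N F t k u1 (F (u1, false)) := N_mono (by omega) hN
      have huS : (u1 : ℕ) ∈ (cf F t ht k).S := mem_tok.2 ⟨u1.isLt, hNk⟩
      have hnn : ¬ NN t (y : ℕ) (u1 : ℕ) := by
        rcases hRu with h | h
        · exact absurd h (by simp)
        · exact h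
      have hun : (cf F t ht k).un i x u1 := by
        intro w hw hEw
        obtain ⟨hwn, hwN⟩ := mem_tok.1 hw
        have h1 : eqv F t i u1 ⟨w, hwn⟩ := ih (by omega) u1 ⟨w, hwn⟩ hNk hwN hEw
        have h2 : (cf F t ht k).f u1 = (cf F t ht k).f w := (cf F t ht k).E_f hEw
        have h3 : rk F t k u1 (F (u1, false)) = rk F t k ⟨w, hwn⟩ (F (⟨w, hwn⟩, false)) := by
          rw [← col_eq hNk, ← col_eq hwN]
          exact congrArg Fin.val h2
        have h4 : F (u1, false) = F (⟨w, hwn⟩, false) := F_eq (by omega) h1 hN h3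
        by_contra hnw
        apply hx
        exact ⟨(⟨w, hwn⟩, false), sim_iff.2 ⟨h4, h1⟩, Or.inr hnw⟩
      have hun' : (cf F t ht k).un i y u1 := ((cf F t ht k).E_succ_un hE huS).1 hun
      exact hnn (hun' u1 huS ((cf F t ht k).E_refl i u1))
    intro x y hx hy hE i' hi' z
    rcases Nat.lt_or_ge i' i with h | h
    · exact ih (by omega) x y hx hy ((cf F t ht k).E_mono (Nat.le_succ i) hE) i' h z
    · obtain rfl : i' = i := by omega
      exact ⟨one y x ((cf F t ht k).E_symm hE) z, one x y hE z⟩

lemma sim_of_E {ht : 0 < t} {k : ℕ} {x y : Fin n} (hx : N F t k x (F (x, false)))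
    (hy : N F t k y (F (y, false))) (hE : (cf F t ht k).E k x y) :
    sim (YR t n) F k (x, false) (y, false) := by
  have h1 : eqv F t k x y := main k le_rfl x y hx hy hE
  have h2 : (cf F t ht k).f x = (cf F t ht k).f y := (cf F t ht k).E_f hE
  have h3 : rk F t k x (F (x, false)) = rk F t k y (F (y, false)) := by
    rw [← col_eq hx, ← col_eq hy]
    exact congrArg Fin.val h2
  exact sim_iff.2 ⟨F_eq le_rfl h1 hx h3, h1⟩

end twin

end Twin

open Twin

theorem twin_bound {t M : ℕ} (ht : 0 < t)
    (hM : ∀ C : Cfg, C.t = t → ∀ (k : ℕ) (A : Finset ℕ),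
      A ⊆ C.S → (∀ x ∈ A, ∀ y ∈ A, x ≠ y → ¬ C.E k x y) → A.card ≤ M) :
    ∀ (n : ℕ) (F : Fin n × Bool → Fin 4) (k : ℕ) (A : Finset (Fin n × Bool)),
      (∀ x ∈ A, ∀ y ∈ A, x ≠ y → ¬ sim (YR t n) F k x y) → A.card ≤ 4 * 2 ^ M := by
  classical
  intro n F k A hA
  cases k with
  | zero =>
    have h1 : A.card ≤ (Finset.univ : Finset (Fin 4)).card :=
      Finset.card_le_card_of_injOn F (fun _ _ => Finset.mem_coe.2 (Finset.mem_univ _))
        (fun x hx y hy hxy => by
          by_contra hne
          exact hA x hx y hy hne hxy)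
    have h2 : 1 ≤ 2 ^ M := Nat.one_le_two_pow
    simp only [Finset.card_univ, Fintype.card_fin] at h1
    omega
  | succ k =>
    let s : Setoid (Fin n × Bool) := ⟨sim (YR t n) F k, sim_refl _ F k,
      fun h => sim_symm _ F h, fun h h' => sim_trans _ F h h'⟩
    let rep : Fin n × Bool → Fin n × Bool := fun x => (Quotient.mk s x).out
    have hrep : ∀ x, sim (YR t n) F k x (rep x) := by
      intro x
      have : s (rep x) x := Quotient.exact (Quotient.out_eq (Quotient.mk s x))
      exact sim_symm _ F this
    have hrep2 : ∀ x y, sim (YR t n) F k x y → rep x = rep y := by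
      intro x y hxy
      have : Quotient.mk s x = Quotient.mk s y := Quotient.sound hxy
      simp only [rep, this]
    set T : Finset (Fin n × Bool) :=
      (Finset.univ.filter fun z : Fin n × Bool => N F t k z.1 (F z)).image rep with hT
    have hTN : ∀ z ∈ T, N F t k z.1 (F z) := by
      intro z hz
      rw [hT, Finset.mem_image] at hz
      obtain ⟨w, hw, rfl⟩ := hz
      rw [Finset.mem_filter] at hw
      exact N_sim (hrep w) hw.2
    have hTne : ∀ z ∈ T, ∀ w ∈ T, sim (YR t n) F k z w → z = w := by
      intro z hz w hw hzw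
      rw [hT, Finset.mem_image] at hz hw
      obtain ⟨z', _, rfl⟩ := hz
      obtain ⟨w', _, rfl⟩ := hw
      apply hrep2
      exact sim_trans _ F (hrep z') (sim_trans _ F hzw (sim_symm _ F (hrep w')))
    -- the number of classes of real points
    have hTM : T.card ≤ M := by
      have h1 : (T.image fun z => (z.1 : ℕ)).card = T.card := by
        apply Finset.card_image_of_injOn
        intro z hz w hw hzw
        have h2 := real_of_N (hTN z hz)
        have h3 := real_of_N (hTN w hw)
        exact Prod.ext (Fin.ext hzw) (by rw [h2, h3])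
      rw [← h1]
      apply hM (cf F t ht k) rfl k
      · intro x hx
        rw [Finset.mem_image] at hx
        obtain ⟨z, hz, rfl⟩ := hx
        have h2 := hTN z hz
        have h3 := real_of_N h2
        obtain ⟨z1, sz⟩ := z
        simp only at h3 h2 ⊢
        subst h3
        exact mem_tok.2 ⟨z1.isLt, h2⟩
      · intro x hx y hy hxy hE
        rw [Finset.mem_image] at hx hy
        obtain ⟨z, hz, rfl⟩ := hx
        obtain ⟨w, hw, rfl⟩ := hy
        have h2 := hTN z hz
        have h3 := real_of_N h2
        have h2' := hTN w hw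
        have h3' := real_of_N h2'
        obtain ⟨z1, sz⟩ := z
        obtain ⟨w1, sw⟩ := w
        simp only at h3 h2 h3' h2' hxy hE
        subst h3
        subst h3'
        have h4 := sim_of_E h2 h2' hE
        have h5 := hTne _ hz _ hw h4
        apply hxy
        rw [Prod.mk.injEq] at h5
        rw [h5.1]
    have key : A.card ≤ ((Finset.univ : Finset (Fin 4)) ×ˢ T.powerset).card := by
      apply Finset.card_le_card_of_injOn
        (fun x => (F x, T.filter fun z => sees (YR t n) F k x z))
      · intro x _
        rw [Finset.mem_coe, Finset.mem_product, Finset.mem_powerset]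
        exact ⟨Finset.mem_univ _, Finset.filter_subset _ _⟩
      · intro x hx y hy hxy
        by_contra hne
        apply hA x hx y hy hne
        simp only [Prod.mk.injEq] at hxy
        obtain ⟨h1, h2⟩ := hxy
        rw [sim_succ_iff]
        refine ⟨h1, fun z => ?_⟩
        have h3 : ∀ w ∈ T, (sees (YR t n) F k x w ↔ sees (YR t n) F k y w) := by
          intro w hw
          have := Finset.ext_iff.1 h2 w
          simp only [Finset.mem_filter, hw, true_and] at this
          exact this
        have h4 : N F t k z.1 (F z) → (sees (YR t n) F k x z ↔ sees (YR t n) F k y z) := by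
          intro hN
          have hm : rep z ∈ T := by
            rw [hT, Finset.mem_image]
            exact ⟨z, by simp [hN], rfl⟩
          rw [sees_congr _ F (hrep z), sees_congr _ F (hrep z)]
          exact h3 _ hm
        constructor
        · intro hs
          by_contra hns
          exact hns ((h4 (N_of_not_sees hns)).1 hs)
        · intro hs
          by_contra hns
          exact hns ((h4 (N_of_not_sees hns)).2 hs)
    rw [Finset.card_product, Finset.card_powerset, Finset.card_univ, Fintype.card_fin] at key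
    exact key.trans (Nat.mul_le_mul_left 4 (Nat.pow_le_pow_right (by norm_num) hTM))

end MP91e814.BP
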