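import Mathlib

/-!
Polymodal formulas, normal modal logics, tabularity.
-/

namespace MP91e814

/-- Modal formulas with one box for every element of `ι` and with propositional variables in
`V`. -/
inductive Form (ι V : Type) : Type
  | var : V → Form ι V
  | bot : Form ι V
  | imp : Form ι V → Form ι V → Form ι V
  | box : ι → Form ι V → Form ι V

namespace Form

variable {ι V V' V'' : Type}

/-- Negation. -/
def neg (φ : Form ι V) : Form ι V := imp φ bot

/-- Verum. -/
def top : Form ι V := neg bot

/-- Conjunction. -/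
def conj2 (φ ψ : Form ι V) : Form ι V := neg (imp φ (neg ψ))

/-- Disjunction. -/
def disj2 (φ ψ : Form ι V) : Form ι V := imp (neg φ) ψ

/-- Equivalence. -/
def equiv (φ ψ : Form ι V) : Form ι V := conj2 (imp φ ψ) (imp ψ φ)

/-- The diamond dual to the box `m`. -/
def dia (m : ι) (φ : Form ι V) : Form ι V := neg (box m (neg φ))

/-- Conjunction of a finite list of formulas. -/
def conj : List (Form ι V) → Form ι V
  | [] => top
  | φ :: l => conj2 φ (conj l)

/-- Disjunction of a finite list of formulas. -/
def disj : List (Form ι V) → Form ι V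
  | [] => bot
  | φ :: l => disj2 φ (disj l)

/-- Uniform substitution. -/
def subst (σ : V → Form ι V') : Form ι V → Form ι V'
  | var p => σ p
  | bot => bot
  | imp φ ψ => imp (subst σ φ) (subst σ ψ)
  | box m φ => box m (subst σ φ)

end Form

open Form

/-- `v` assigns truth values to all formulas so that `⊥` is false and `→` is read classically
(formulas beginning with a box are treated as if they were variables). -/
structure BoolVal {ι V : Type} (v : Form ι V → Prop) : Prop where
  bot : ¬ v bot
  imp : ∀ φ ψ, v (imp φ ψ) ↔ (v φ → v ψ)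

/-- Instances of classical propositional tautologies. -/
def Taut {ι V : Type} (φ : Form ι V) : Prop := ∀ v : Form ι V → Prop, BoolVal v → v φ

/-- `L` is a normal modal logic in the language with variables `p_0, p_1, …` and the boxes
indexed by `ι`. -/
structure IsNormalLogic {ι : Type} (L : Set (Form ι ℕ)) : Prop where
  taut : ∀ φ, Taut φ → φ ∈ L
  axK : ∀ (m : ι) (φ ψ : Form ι ℕ), imp (box m (imp φ ψ)) (imp (box m φ) (box m ψ)) ∈ L
  mp : ∀ φ ψ, imp φ ψ ∈ L → φ ∈ L → ψ ∈ L
  nec : ∀ (m : ι) (φ : Form ι ℕ), φ ∈ L → box m φ ∈ L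
  subst : ∀ (σ : ℕ → Form ι ℕ) (φ : Form ι ℕ), φ ∈ L → φ.subst σ ∈ L

/-- A formula in the variables `p_0, …, p_(k-1)` as a formula in the variables
`p_0, p_1, …`. -/
def emb {ι : Type} {k : ℕ} (φ : Form ι (Fin k)) : Form ι ℕ := φ.subst fun i : Fin k => var (i : ℕ)

/-- `L` is `k`-tabular: up to `L`-equivalence there are only finitely many formulas in the
variables `p_0, …, p_(k-1)`. -/
def Tabular {ι : Type} (L : Set (Form ι ℕ)) (k : ℕ) : Prop :=
  ∃ S : Set (Form ι (Fin k)), S.Finite ∧ ∀ φ : Form ι (Fin k), ∃ ψ ∈ S, emb (equiv φ ψ) ∈ L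

/-- `L` is locally tabular. -/
def LocallyTabular {ι : Type} (L : Set (Form ι ℕ)) : Prop := ∀ k, Tabular L k

/-- The axiom `alt_n` for the box `m`:
`◇p_0 ∧ … ∧ ◇p_n → ⋁_(j < i ≤ n) ◇(p_i ∧ p_j)`
(every point has at most `n` successors). -/
def altAx {ι : Type} (m : ι) (n : ℕ) : Form ι ℕ :=
  imp (conj ((List.range (n + 1)).map fun i => dia m (var i)))
    (disj ((List.range (n + 1)).flatMap fun i =>
      (List.range i).map fun j => dia m (conj2 (var i) (var j))))

/-- The axiom `4` for the box `m`: `□p → □□p` (transitivity). -/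
def fourAx {ι : Type} (m : ι) : Form ι ℕ := imp (box m (var 0)) (box m (box m (var 0)))

/-- The axiom of width at most `n` for the box `m`:
`◇p_0 ∧ … ∧ ◇p_n → ⋁_(i ≠ j) ◇(p_i ∧ (p_j ∨ ◇p_j))`. For `n = 1` this is the usual axiom
(.3) of linearity. -/
def widthAx {ι : Type} (m : ι) (n : ℕ) : Form ι ℕ :=
  imp (conj ((List.range (n + 1)).map fun i => dia m (var i)))
    (disj ((List.range (n + 1)).flatMap fun i =>
      ((List.range (n + 1)).filter fun j => j ≠ i).map fun j =>
        dia m (conj2 (var i) (disj2 (var j) (dia m (var j))))))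

/-- The axiom `5` for the box `m`: `◇p → □◇p` (euclidean frames). -/
def fiveAx {ι : Type} (m : ι) : Form ι ℕ := imp (dia m (var 0)) (box m (dia m (var 0)))

end MP91e814
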