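import Mathlib
import Pool.Agent.MP_91e814_lc.Defs

/-!
Canonical frames of normal modal logics.
-/

namespace MP91e814

open Form

variable {ι V V' V'' : Type}

/-! ### Boolean valuations -/

namespace BoolVal

variable {v : Form ι V → Prop}

lemma neg (h : BoolVal v) (φ : Form ι V) : v φ.neg ↔ ¬ v φ := by
  unfold Form.neg
  rw [h.imp]
  exact ⟨fun h1 h2 => h.bot (h1 h2), fun h1 h2 => (h1 h2).elim⟩

lemma top (h : BoolVal v) : v (Form.top : Form ι V) := by
  unfold Form.top
  rw [h.neg]
  exact h.bot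

lemma conj2 (h : BoolVal v) (φ ψ : Form ι V) : v (Form.conj2 φ ψ) ↔ v φ ∧ v ψ := by
  unfold Form.conj2
  rw [h.neg, h.imp, h.neg]
  tauto

lemma disj2 (h : BoolVal v) (φ ψ : Form ι V) : v (Form.disj2 φ ψ) ↔ v φ ∨ v ψ := by
  unfold Form.disj2
  rw [h.imp, h.neg]
  tauto

lemma equiv (h : BoolVal v) (φ ψ : Form ι V) : v (Form.equiv φ ψ) ↔ (v φ ↔ v ψ) := by
  unfold Form.equiv
  rw [h.conj2, h.imp, h.imp]
  tauto

lemma conj (h : BoolVal v) (l : List (Form ι V)) : v (Form.conj l) ↔ ∀ φ ∈ l, v φ := by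
  induction l with
  | nil => simpa [Form.conj] using h.top
  | cons a l ih => simp [Form.conj, h.conj2, ih]

lemma disj (h : BoolVal v) (l : List (Form ι V)) : v (Form.disj l) ↔ ∃ φ ∈ l, v φ := by
  induction l with
  | nil => simpa [Form.disj] using h.bot
  | cons a l ih => simp [Form.disj, h.disj2, ih]

end BoolVal

/-! ### Substitution -/

lemma subst_subst (τ : V' → Form ι V'') (σ : V → Form ι V') (φ : Form ι V) :
    (φ.subst σ).subst τ = φ.subst fun p => (σ p).subst τ := by
  induction φ with
  | var p => rfl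
  | bot => rfl
  | imp φ ψ h1 h2 => simp [Form.subst, h1, h2]
  | box m φ h => simp [Form.subst, h]

lemma subst_neg (σ : V → Form ι V') (φ : Form ι V) : φ.neg.subst σ = (φ.subst σ).neg := rfl

lemma subst_conj2 (σ : V → Form ι V') (φ ψ : Form ι V) :
    (conj2 φ ψ).subst σ = conj2 (φ.subst σ) (ψ.subst σ) := rfl

lemma subst_disj2 (σ : V → Form ι V') (φ ψ : Form ι V) :
    (disj2 φ ψ).subst σ = disj2 (φ.subst σ) (ψ.subst σ) := rfl

lemma subst_equiv (σ : V → Form ι V') (φ ψ : Form ι V) :
    (equiv φ ψ).subst σ = equiv (φ.subst σ) (ψ.subst σ) := rfl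

lemma subst_dia (σ : V → Form ι V') (m : ι) (φ : Form ι V) :
    (dia m φ).subst σ = dia m (φ.subst σ) := rfl

lemma subst_conj (σ : V → Form ι V') (l : List (Form ι V)) :
    (conj l).subst σ = conj (l.map fun φ => φ.subst σ) := by
  induction l with
  | nil => rfl
  | cons a l ih => simp only [Form.conj, subst_conj2, ih, List.map_cons]

lemma subst_disj (σ : V → Form ι V') (l : List (Form ι V)) :
    (disj l).subst σ = disj (l.map fun φ => φ.subst σ) := by
  induction l with
  | nil => rfl
  | cons a l ih => simp only [Form.disj, subst_disj2, ih, List.map_cons]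

lemma Taut.subst {φ : Form ι V} (h : Taut φ) (σ : V → Form ι V') : Taut (φ.subst σ) := by
  intro v hv
  refine h (fun ψ => v (ψ.subst σ)) ⟨hv.bot, fun φ ψ => ?_⟩
  exact hv.imp _ _

/-! ### The logic over an arbitrary set of variables -/

/-- The formulas over `V` all of whose instances over `ℕ` are in `L`. -/
def On (L : Set (Form ι ℕ)) (V : Type) : Set (Form ι V) :=
  {φ | ∀ σ : V → Form ι ℕ, φ.subst σ ∈ L}

section

variable {L : Set (Form ι ℕ)} (hL : IsNormalLogic L)

include hL

lemma On.taut {φ : Form ι V} (h : Taut φ) : φ ∈ On L V := fun σ => hL.taut _ (h.subst σ)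

lemma On.mp {φ ψ : Form ι V} (h : imp φ ψ ∈ On L V) (h' : φ ∈ On L V) : ψ ∈ On L V :=
  fun σ => hL.mp _ _ (h σ) (h' σ)

lemma On.nec {φ : Form ι V} (m : ι) (h : φ ∈ On L V) : box m φ ∈ On L V :=
  fun σ => hL.nec _ _ (h σ)

lemma On.axK (m : ι) (φ ψ : Form ι V) :
    imp (box m (imp φ ψ)) (imp (box m φ) (box m ψ)) ∈ On L V := fun _ => hL.axK _ _ _

omit hL in
lemma On.subst {φ : Form ι V} (h : φ ∈ On L V) (σ : V → Form ι V') : φ.subst σ ∈ On L V' := by
  intro τ
  rw [subst_subst]
  exact h _

lemma On.of_mem {φ : Form ι ℕ} (h : φ ∈ L) (σ : ℕ → Form ι V) : φ.subst σ ∈ On L V := by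
  intro τ
  rw [subst_subst]
  exact hL.subst _ _ h

lemma emb_mem_iff {k : ℕ} (φ : Form ι (Fin k)) : emb φ ∈ L ↔ φ ∈ On L (Fin k) := by
  constructor
  · intro h σ
    have h1 := hL.subst (fun n => if h : n < k then σ ⟨n, h⟩ else Form.bot) _ h
    rw [emb, subst_subst] at h1
    convert h1 using 2
    funext p
    simp [Form.subst]
  · intro h
    exact h _

end

/-! ### Existence of worlds -/

/-- The formula `ψ_1 → ψ_2 → … → φ`. -/
def impList (l : List (Form ι V)) (φ : Form ι V) : Form ι V := l.foldr imp φ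

lemma BoolVal.impList {v : Form ι V → Prop} (h : BoolVal v) (l : List (Form ι V))
    (φ : Form ι V) : v (impList l φ) ↔ ((∀ ψ ∈ l, v ψ) → v φ) := by
  induction l with
  | nil => simp [MP91e814.impList]
  | cons a l ih =>
    have : MP91e814.impList (a :: l) φ = Form.imp a (MP91e814.impList l φ) := rfl
    rw [this, h.imp, ih]
    simp only [List.mem_cons, forall_eq_or_imp]
    tauto

/-- A world of the canonical frame over the variables `V`. -/
structure World (L : Set (Form ι ℕ)) (V : Type) where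
  v : Form ι V → Prop
  bool : BoolVal v
  mem : ∀ φ ∈ On L V, v φ

lemma World.ext {L : Set (Form ι ℕ)} {x y : World L V} (h : ∀ φ, x.v φ ↔ y.v φ) : x = y := by
  have h1 : x.v = y.v := by
    funext φ
    exact propext (h φ)
  cases x
  cases y
  cases h1
  rfl

section

variable {L : Set (Form ι ℕ)} (hL : IsNormalLogic L)

include hL

lemma exists_world (Γ : Set (Form ι V)) (φ : Form ι V)
    (h : ∀ l : List (Form ι V), (∀ ψ ∈ l, ψ ∈ Γ) → impList l φ ∉ On L V) :
    ∃ x : World L V, (∀ ψ ∈ Γ, x.v ψ) ∧ ¬ x.v φ := by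
  classical
  let s : Set (Form ι V → Bool) := {f | BoolVal (fun ψ => f ψ = true) ∧ f φ = false}
  have hs : IsClosed s := by
    have : s = {f | f Form.bot = false} ∩ ({f | f φ = false} ∩
        ⋂ (p : Form ι V × Form ι V), {f | f (imp p.1 p.2) = (!(f p.1) || f p.2)}) := by
      ext f
      simp only [s, Set.mem_ofPred_eq, Set.mem_inter_iff, Set.mem_iInter]
      constructor
      · rintro ⟨h1, h2⟩
        refine ⟨by simpa using h1.bot, h2, fun p => ?_⟩
        have := h1.imp p.1 p.2
        rcases Bool.eq_false_or_eq_true (f p.1) with h3 | h3 <;>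
          rcases Bool.eq_false_or_eq_true (f p.2) with h4 | h4 <;>
            rcases Bool.eq_false_or_eq_true (f (imp p.1 p.2)) with h5 | h5 <;>
              simp_all
      · rintro ⟨h1, h2, h3⟩
        refine ⟨⟨by simp [h1], fun φ ψ => ?_⟩, h2⟩
        have := h3 (φ, ψ)
        simp only at this
        rw [this]
        rcases Bool.eq_false_or_eq_true (f φ) with h3 | h3 <;>
          rcases Bool.eq_false_or_eq_true (f ψ) with h4 | h4 <;> simp_all
    rw [this]
    refine IsClosed.inter ?_ (IsClosed.inter ?_ (isClosed_iInter fun p => ?_))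
    · exact isClosed_eq (continuous_apply _) continuous_const
    · exact isClosed_eq (continuous_apply _) continuous_const
    · have h1 : Continuous fun f : Form ι V → Bool => (f p.1, f p.2) := by fun_prop
      have h2 : Continuous fun q : Bool × Bool => (!q.1 || q.2) := continuous_of_discreteTopology
      exact isClosed_eq (continuous_apply _) (h2.comp h1)
  have hne : (s ∩ ⋂ ψ : {ψ // ψ ∈ Γ ∨ ψ ∈ On L V}, {f : Form ι V → Bool | f ψ.1 = true}).Nonempty
      := by
    refine (hs.isCompact).inter_iInter_nonempty _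
      (fun ψ => isClosed_eq (continuous_apply _) continuous_const) fun u => ?_
    by_contra hcon
    rw [Set.not_nonempty_iff_eq_empty] at hcon
    let l := u.toList.map Subtype.val
    let l1 := l.filter fun ψ => decide (ψ ∈ On L V)
    let l2 := l.filter fun ψ => decide (ψ ∉ On L V)
    have htaut : Taut (impList (l1 ++ l2) φ) := by
      intro v hv
      rw [hv.impList]
      intro hall
      by_contra hφ
      have hmem : (fun ψ => decide (v ψ)) ∈
          s ∩ ⋂ ψ ∈ u, {f : Form ι V → Bool | f ψ.1 = true} := by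
        refine ⟨⟨?_, by simpa using hφ⟩, ?_⟩
        · simpa using hv
        · simp only [Set.mem_iInter, Set.mem_ofPred_eq, decide_eq_true_eq]
          intro ψ hψ
          refine hall _ ?_
          have hl : ψ.1 ∈ l := List.mem_map.2 ⟨ψ, by simpa using hψ, rfl⟩
          by_cases h1 : ψ.1 ∈ On L V
          · exact List.mem_append_left _ (List.mem_filter.2 ⟨hl, by simpa using h1⟩)
          · exact List.mem_append_right _ (List.mem_filter.2 ⟨hl, by simpa using h1⟩)
      rw [hcon] at hmem
      exact hmem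
    have h1 : ∀ l1 : List (Form ι V), (∀ ψ ∈ l1, ψ ∈ On L V) →
        impList (l1 ++ l2) φ ∈ On L V → impList l2 φ ∈ On L V := by
      intro l1
      induction l1 with
      | nil => intro _ h; exact h
      | cons a l1 ih =>
        intro h2 h3
        refine ih (fun ψ hψ => h2 ψ (List.mem_cons_of_mem _ hψ)) ?_
        exact On.mp hL h3 (h2 a List.mem_cons_self)
    have h2 := h1 l1 (fun ψ hψ => by simpa using (List.mem_filter.1 hψ).2)
      (On.taut hL htaut)
    refine h l2 (fun ψ hψ => ?_) h2
    obtain ⟨h3, h4⟩ := List.mem_filter.1 hψ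
    obtain ⟨χ, -, rfl⟩ := List.mem_map.1 h3
    rcases χ.2 with h5 | h5
    · exact h5
    · simp only [decide_eq_true_eq] at h4
      exact absurd h5 h4
  obtain ⟨f, hf1, hf2⟩ := hne
  simp only [Set.mem_iInter, Set.mem_ofPred_eq] at hf2
  refine ⟨⟨fun ψ => f ψ = true, hf1.1, fun ψ hψ => hf2 ⟨ψ, Or.inr hψ⟩⟩,
    fun ψ hψ => hf2 ⟨ψ, Or.inl hψ⟩, ?_⟩
  simp [hf1.2]

/-- The relations of the canonical frame. -/
def Rel (L : Set (Form ι ℕ)) (m : ι) (x y : World L V) : Prop :=
  ∀ φ, x.v (box m φ) → y.v φ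

lemma box_impList (m : ι) (x : World L V) (φ : Form ι V) :
    ∀ l : List (Form ι V), x.v (box m (impList l φ)) → (∀ ψ ∈ l, x.v (box m ψ)) →
      x.v (box m φ) := by
  intro l
  induction l with
  | nil => intro h _; exact h
  | cons a l ih =>
    intro h h'
    refine ih ?_ (fun ψ hψ => h' ψ (List.mem_cons_of_mem _ hψ))
    have h1 := x.mem _ (On.axK hL m a (impList l φ))
    rw [x.bool.imp, x.bool.imp] at h1
    exact h1 h (h' a List.mem_cons_self)

lemma box_iff (m : ι) (x : World L V) (φ : Form ι V) :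
    x.v (box m φ) ↔ ∀ y : World L V, Rel L m x y → y.v φ := by
  constructor
  · intro h y hy
    exact hy φ h
  · intro h
    by_contra hcon
    obtain ⟨y, hy1, hy2⟩ := exists_world hL {ψ | x.v (box m ψ)} φ (by
      intro l hl hmem
      exact hcon (box_impList hL m x φ l (x.mem _ (On.nec hL m hmem)) hl))
    exact hy2 (h y hy1)

lemma dia_iff (m : ι) (x : World L V) (φ : Form ι V) :
    x.v (dia m φ) ↔ ∃ y : World L V, Rel L m x y ∧ y.v φ := by
  unfold dia
  rw [x.bool.neg, box_iff hL]
  push Not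
  constructor
  · rintro ⟨y, h1, h2⟩
    rw [y.bool.neg, not_not] at h2
    exact ⟨y, h1, h2⟩
  · rintro ⟨y, h1, h2⟩
    refine ⟨y, h1, ?_⟩
    rw [y.bool.neg, not_not]
    exact h2

lemma mem_on_iff (φ : Form ι V) : φ ∈ On L V ↔ ∀ x : World L V, x.v φ := by
  constructor
  · intro h x
    exact x.mem _ h
  · intro h
    by_contra hcon
    obtain ⟨x, -, hx⟩ := exists_world hL ∅ φ (by
      intro l hl
      have : l = [] := by
        cases l with
        | nil => rfl
        | cons a l => exact absurd (hl a List.mem_cons_self) (by simp)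
      rw [this]
      exact hcon)
    exact hx (h x)

end

end MP91e814
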