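import Mathlib

/-!
Refined general frames, realization of finite configurations of points by admissible sets, and
bounds on linked paths and on strict chains.
-/

namespace MP91e814

/-- A differentiated and tight general frame. -/
structure GFrame (ι W : Type) where
  R : ι → W → W → Prop
  D : Set (Set W)
  univ_mem : Set.univ ∈ D
  compl_mem : ∀ A ∈ D, Aᶜ ∈ D
  inter_mem : ∀ A ∈ D, ∀ B ∈ D, A ∩ B ∈ D
  dia_mem : ∀ m, ∀ A ∈ D, {x | ∃ y, R m x y ∧ y ∈ A} ∈ D
  sep : ∀ x y, x ≠ y → ∃ A ∈ D, x ∈ A ∧ y ∉ A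
  tight : ∀ m x y, ¬ R m x y → ∃ A ∈ D, (∀ z, R m x z → z ∈ A) ∧ y ∉ A

variable {ι W : Type}

/-- The sets generated from `a` and `b` by the modal operations. -/
inductive Gen (F : GFrame ι W) (a b : Set W) : Set W → Prop
  | left : Gen F a b a
  | right : Gen F a b b
  | compl (A : Set W) : Gen F a b A → Gen F a b Aᶜ
  | inter (A B : Set W) : Gen F a b A → Gen F a b B → Gen F a b (A ∩ B)
  | dia (m : ι) (A : Set W) : Gen F a b A → Gen F a b {x | ∃ y, F.R m x y ∧ y ∈ A}

/-- Two admissible sets generate at most `M` sets. -/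
def Bd (F : GFrame ι W) (M : ℕ) : Prop :=
  ∀ a ∈ F.D, ∀ b ∈ F.D, ∀ T : Finset (Set W), (∀ S ∈ T, Gen F a b S) → T.card ≤ M

lemma Gen.union {F : GFrame ι W} {a b : Set W} {A B : Set W} (hA : Gen F a b A)
    (hB : Gen F a b B) : Gen F a b (A ∪ B) := by
  have := Gen.compl _ (Gen.inter _ _ (Gen.compl _ hA) (Gen.compl _ hB))
  rwa [Set.compl_inter, compl_compl, compl_compl] at this

lemma Gen.empty {F : GFrame ι W} {a b : Set W} : Gen F a b ∅ := by
  have := Gen.inter _ _ (Gen.left (F := F) (a := a) (b := b)) (Gen.compl _ Gen.left)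
  rwa [Set.inter_compl_self] at this

namespace GFrame

variable (F : GFrame ι W)

lemma union_mem {A B : Set W} (hA : A ∈ F.D) (hB : B ∈ F.D) : A ∪ B ∈ F.D := by
  have := F.compl_mem _ (F.inter_mem _ (F.compl_mem _ hA) _ (F.compl_mem _ hB))
  rwa [Set.compl_inter, compl_compl, compl_compl] at this

lemma empty_mem : ∅ ∈ F.D := by
  have := F.compl_mem _ F.univ_mem
  rwa [Set.compl_univ] at this

lemma box_mem (m : ι) {A : Set W} (hA : A ∈ F.D) : {x | ∀ y, F.R m x y → y ∈ A} ∈ F.D := by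
  have := F.compl_mem _ (F.dia_mem m _ (F.compl_mem _ hA))
  convert this using 1
  ext x
  simp

lemma iInter_mem {κ : Type} [Finite κ] {A : κ → Set W} (hA : ∀ k, A k ∈ F.D) :
    (⋂ k, A k) ∈ F.D := by
  classical
  have := Fintype.ofFinite κ
  have h : ∀ s : Finset κ, (⋂ k ∈ s, A k) ∈ F.D := by
    intro s
    induction s using Finset.induction_on with
    | empty => simpa using F.univ_mem
    | insert a s _ ih =>
      rw [Finset.set_biInter_insert]
      exact F.inter_mem _ (hA a) _ ih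
  simpa using h Finset.univ

lemma iUnion_mem {κ : Type} [Finite κ] {A : κ → Set W} (hA : ∀ k, A k ∈ F.D) :
    (⋃ k, A k) ∈ F.D := by
  have := F.compl_mem _ (F.iInter_mem fun k => F.compl_mem _ (hA k))
  rwa [Set.compl_iInter, funext fun k => compl_compl (A k)] at this

/-- Finitely many distinct points have admissible neighbourhoods for which all negative
relations are exact. -/
lemma neg_real [Finite ι] (n : ℕ) (w : ℕ → W) (hw : ∀ i < n, ∀ j < n, w i = w j → i = j) :
    ∃ U : ℕ → Set W, (∀ i, U i ∈ F.D) ∧ (∀ i < n, w i ∈ U i) ∧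
      (∀ i < n, ∀ j < n, i ≠ j → ∀ x, x ∈ U i → x ∉ U j) ∧
      (∀ m, ∀ i < n, ∀ j < n, ¬ F.R m (w i) (w j) → ∀ x ∈ U i, ∀ y ∈ U j, ¬ F.R m x y) := by
  classical
  have h1 : ∀ i j, ∃ A ∈ F.D, (w i ≠ w j → w i ∈ A ∧ w j ∉ A) := by
    intro i j
    by_cases h : w i = w j
    · exact ⟨_, F.univ_mem, fun h' => (h' h).elim⟩
    · obtain ⟨A, hA, h'⟩ := F.sep _ _ h
      exact ⟨A, hA, fun _ => h'⟩
  choose s hs1 hs2 using h1
  have h2 : ∀ (m : ι) i j, ∃ A ∈ F.D, (¬ F.R m (w i) (w j) →
      (∀ z, F.R m (w i) z → z ∈ A) ∧ w j ∉ A) := by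
    intro m i j
    by_cases h : F.R m (w i) (w j)
    · exact ⟨_, F.univ_mem, fun h' => (h' h).elim⟩
    · obtain ⟨A, hA, h'⟩ := F.tight _ _ _ h
      exact ⟨A, hA, fun _ => h'⟩
  choose t ht1 ht2 using h2
  refine ⟨fun i => ((⋂ q : {q : Fin n // w i ≠ w q}, (s i q.1 ∩ (s q.1 i)ᶜ)) ∩
    (⋂ q : {q : ι × Fin n // ¬ F.R q.1 (w i) (w q.2)},
      {x | ∀ y, F.R q.1.1 x y → y ∈ t q.1.1 i q.1.2})) ∩
    (⋂ q : {q : ι × Fin n // ¬ F.R q.1 (w q.2) (w i)}, (t q.1.1 q.1.2 i)ᶜ), ?_, ?_, ?_, ?_⟩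
  · intro i
    refine F.inter_mem _ (F.inter_mem _ (F.iInter_mem fun q => ?_) _ (F.iInter_mem fun q => ?_)) _
      (F.iInter_mem fun q => ?_)
    · exact F.inter_mem _ (hs1 _ _) _ (F.compl_mem _ (hs1 _ _))
    · exact F.box_mem _ (ht1 _ _ _)
    · exact F.compl_mem _ (ht1 _ _ _)
  · intro i hi
    refine ⟨⟨Set.mem_iInter.2 fun q => ?_, Set.mem_iInter.2 fun q => ?_⟩,
      Set.mem_iInter.2 fun q => ?_⟩
    · exact ⟨(hs2 _ _ q.2).1, (hs2 _ _ (Ne.symm q.2)).2⟩
    · exact (ht2 _ _ _ q.2).1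
    · exact (ht2 _ _ _ q.2).2
  · intro i hi j hj hij x hx hx'
    have hne : w i ≠ w j := fun h => hij (hw i hi j hj h)
    have h3 := Set.mem_iInter.1 hx.1.1 ⟨⟨j, hj⟩, hne⟩
    have h4 := Set.mem_iInter.1 hx'.1.1 ⟨⟨i, hi⟩, hne.symm⟩
    exact h4.2 h3.1
  · intro m i hi j hj hR x hx y hy hxy
    have h3 := Set.mem_iInter.1 hx.1.2 ⟨(m, ⟨j, hj⟩), hR⟩
    have h4 := Set.mem_iInter.1 hy.2 ⟨(m, ⟨i, hi⟩), hR⟩
    exact h4 (h3 y hxy)

/-- The realizing sets: positive relations to points of smaller index are exact. -/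
noncomputable def realSet (w : ℕ → W) (U : ℕ → Set W) : ℕ → Set W
  | i => U i ∩ ⋂ q : {q : ι × Fin i // F.R q.1 (w i) (w q.2)},
      {x | ∃ y, F.R q.1.1 x y ∧ y ∈ realSet w U q.1.2}
  termination_by i => i
  decreasing_by exact q.1.2.isLt

lemma realize [Finite ι] (n : ℕ) (w : ℕ → W) (hw : ∀ i < n, ∀ j < n, w i = w j → i = j) :
    ∃ α : ℕ → Set W, (∀ i, α i ∈ F.D) ∧ (∀ i < n, w i ∈ α i) ∧
      (∀ i < n, ∀ j < n, i ≠ j → ∀ x, x ∈ α i → x ∉ α j) ∧
      (∀ m, ∀ i < n, ∀ j < n, ¬ F.R m (w i) (w j) → ∀ x ∈ α i, ∀ y ∈ α j, ¬ F.R m x y) ∧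
      (∀ m, ∀ i, ∀ j < i, F.R m (w i) (w j) → ∀ x ∈ α i, ∃ y, F.R m x y ∧ y ∈ α j) := by
  obtain ⟨U, hU1, hU2, hU3, hU4⟩ := F.neg_real n w hw
  have hsub : ∀ i, F.realSet w U i ⊆ U i := by
    intro i x hx
    rw [realSet] at hx
    exact hx.1
  refine ⟨F.realSet w U, ?_, ?_, ?_, ?_, ?_⟩
  · intro i
    induction i using Nat.strong_induction_on with
    | _ i ih =>
      rw [realSet]
      refine F.inter_mem _ (hU1 i) _ (F.iInter_mem fun q => F.dia_mem _ _ (ih _ q.1.2.isLt))
  · intro i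
    induction i using Nat.strong_induction_on with
    | _ i ih =>
      intro hi
      rw [realSet]
      refine ⟨hU2 i hi, Set.mem_iInter.2 fun q => ?_⟩
      exact ⟨w q.1.2, q.2, ih _ q.1.2.isLt (lt_trans q.1.2.isLt hi)⟩
  · intro i hi j hj hij x hx hx'
    exact hU3 i hi j hj hij x (hsub i hx) (hsub j hx')
  · intro m i hi j hj hR x hx y hy
    exact hU4 m i hi j hj hR x (hsub i hx) y (hsub j hy)
  · intro m i j hj hR x hx
    rw [realSet] at hx
    exact Set.mem_iInter.1 hx.2 ⟨(m, ⟨j, hj⟩), hR⟩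

/-- Linked paths are bounded. -/
lemma linked_path [Finite ι] {M : ℕ} (hM : Bd F M) (N : ℕ) (p : ℕ → W) (μ : ℕ → ι)
    (hinj : ∀ i ≤ N, ∀ j ≤ N, p i = p j → i = j)
    (hpos : ∀ t < N, F.R (μ t) (p (t + 1)) (p t))
    (hneg : ∀ t s, s ≤ N → t + 1 < s → ¬ F.R (μ t) (p s) (p t)) : N < M := by
  classical
  obtain ⟨α, hα1, hα2, hα3, hα4, hα5⟩ := F.realize (N + 1) p
    (fun i hi j hj => hinj i (by omega) j (by omega))
  let b : Set W := ⋃ i : Fin N, α (i + 1)
  have hb : b ∈ F.D := F.iUnion_mem fun i => hα1 _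
  have hmemb : ∀ x, x ∈ b ↔ ∃ s, 1 ≤ s ∧ s ≤ N ∧ x ∈ α s := by
    intro x
    simp only [b, Set.mem_iUnion]
    constructor
    · rintro ⟨i, hi⟩
      exact ⟨i + 1, by omega, by omega, hi⟩
    · rintro ⟨s, h1, h2, h3⟩
      exact ⟨⟨s - 1, by omega⟩, by simpa [Nat.sub_add_cancel h1] using h3⟩
  let c : ℕ → Set W := fun t => {x | ∃ s, 1 ≤ s ∧ s ≤ t ∧ x ∈ α s}
  have key : ∀ t ≤ N, Gen F (α 0) b (α t) ∧ Gen F (α 0) b (c t) := by
    intro t
    induction t with
    | zero =>
      intro _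
      refine ⟨Gen.left, ?_⟩
      have : c 0 = ∅ := by
        ext x
        simp only [c, Set.mem_ofPred_eq, Set.mem_empty_iff_false, iff_false]
        rintro ⟨s, h1, h2, -⟩
        omega
      rw [this]
      exact Gen.empty
    | succ t ih =>
      intro ht
      obtain ⟨ih1, ih2⟩ := ih (by omega)
      have h1 : α (t + 1) = (b ∩ (c t)ᶜ) ∩ {x | ∃ y, F.R (μ t) x y ∧ y ∈ α t} := by
        ext x
        constructor
        · intro hx
          refine ⟨⟨(hmemb x).2 ⟨t + 1, by omega, ht, hx⟩, ?_⟩, ?_⟩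
          · rintro ⟨s, h1, h2, h3⟩
            exact hα3 (t + 1) (by omega) s (by omega) (by omega) x hx h3
          · exact hα5 _ _ _ (by omega) (hpos t (by omega)) x hx
        · rintro ⟨⟨h1, h2⟩, y, h3, h4⟩
          obtain ⟨s, hs1, hs2, hs3⟩ := (hmemb x).1 h1
          rcases lt_trichotomy s (t + 1) with h | h | h
          · exact (h2 ⟨s, hs1, by omega, hs3⟩).elim
          · rw [← h]
            exact hs3
          · exact (hα4 _ s (by omega) t (by omega) (hneg t s hs2 h) x hs3 y h4 h3).elim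
      have h2 : Gen F (α 0) b (α (t + 1)) := by
        rw [h1]
        exact Gen.inter _ _ (Gen.inter _ _ Gen.right (Gen.compl _ ih2)) (Gen.dia _ _ ih1)
      refine ⟨h2, ?_⟩
      have h3 : c (t + 1) = c t ∪ α (t + 1) := by
        ext x
        simp only [c, Set.mem_ofPred_eq, Set.mem_union]
        constructor
        · rintro ⟨s, h1, h2, h3⟩
          rcases Nat.lt_or_ge t s with h | h
          · right
            have : s = t + 1 := by omega
            rwa [this] at h3
          · exact Or.inl ⟨s, h1, h, h3⟩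
        · rintro (⟨s, h1, h2, h3⟩ | h)
          · exact ⟨s, h1, by omega, h3⟩
          · exact ⟨t + 1, by omega, le_refl _, h⟩
      rw [h3]
      exact Gen.union ih2 h2
  have hcard : ((Finset.range (N + 1)).image α).card = N + 1 := by
    rw [Finset.card_image_of_injOn, Finset.card_range]
    intro i hi j hj hij
    simp only [Finset.coe_range, Set.mem_Iio] at hi hj
    by_contra hne
    have h1 := hα2 i hi
    refine hα3 i hi j hj hne _ h1 ?_
    rw [← hij]
    exact h1
  have := hM _ (hα1 0) _ hb ((Finset.range (N + 1)).image α) (by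
    intro S hS
    obtain ⟨t, ht, rfl⟩ := Finset.mem_image.1 hS
    exact (key t (by simpa [Nat.lt_succ_iff] using ht)).1)
  omega

/-- Strict chains are bounded. -/
lemma strict_chain [Finite ι] {M : ℕ} (hM : Bd F M) (m : ι) (N : ℕ) (y : ℕ → W)
    (hpos : ∀ i j, i < j → j ≤ N → F.R m (y j) (y i))
    (hneg : ∀ i j, i < j → j ≤ N → ¬ F.R m (y i) (y j)) : N < M := by
  classical
  have hinj : ∀ i ≤ N, ∀ j ≤ N, y i = y j → i = j := by
    intro i hi j hj hij
    rcases lt_trichotomy i j with h | h | h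
    · refine (hneg i j h hj ?_).elim
      have := hpos i j h hj
      rwa [hij] at this ⊢
    · exact h
    · refine (hneg j i h hi ?_).elim
      have := hpos j i h hi
      rwa [hij] at this ⊢
  obtain ⟨α, hα1, hα2, hα3, hα4, hα5⟩ := F.realize (N + 1) y
    (fun i hi j hj => hinj i (by omega) j (by omega))
  let a : Bool → Set W := fun e => ⋃ i : {i : Fin (N + 1) // Nat.bodd i = e}, α i.1
  have ha : ∀ e, a e ∈ F.D := fun e => F.iUnion_mem fun i => hα1 _
  have hmem : ∀ e x, x ∈ a e ↔ ∃ s, s ≤ N ∧ Nat.bodd s = e ∧ x ∈ α s := by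
    intro e x
    simp only [a, Set.mem_iUnion]
    constructor
    · rintro ⟨⟨i, hi⟩, hx⟩
      exact ⟨i, by omega, hi, hx⟩
    · rintro ⟨s, h1, h2, h3⟩
      exact ⟨⟨⟨s, by omega⟩, h2⟩, h3⟩
  have hgena : ∀ e, Gen F (a false) (a true) (a e) := by
    intro e
    cases e
    · exact Gen.left
    · exact Gen.right
  let c : ℕ → Set W := fun t => {x | ∃ s, s < t ∧ x ∈ α s}
  have key : ∀ t, (∀ s < t, s ≤ N → Gen F (a false) (a true) (α s)) ∧
      (t ≤ N + 1 → Gen F (a false) (a true) (c t)) := by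
    intro t
    induction t with
    | zero =>
      refine ⟨fun s hs => (by omega), fun _ => ?_⟩
      have : c 0 = ∅ := by
        ext x
        simp only [c, Set.mem_ofPred_eq, Set.mem_empty_iff_false, iff_false]
        rintro ⟨s, h1, -⟩
        omega
      rw [this]
      exact Gen.empty
    | succ t ih =>
      obtain ⟨ih1, ih2⟩ := ih
      have h0 : t ≤ N → Gen F (a false) (a true) (α t) := by
        intro ht
        have h1 : α t = (a (Nat.bodd t) ∩ (c t)ᶜ) ∩
            {x | ∃ z, F.R m x z ∧ z ∈ a (!Nat.bodd t) ∩ (c t)ᶜ}ᶜ := by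
          ext x
          constructor
          · intro hx
            refine ⟨⟨(hmem _ _).2 ⟨t, ht, rfl, hx⟩, ?_⟩, ?_⟩
            · rintro ⟨s, h1, h2⟩
              exact hα3 t (by omega) s (by omega) (by omega) x hx h2
            · rintro ⟨z, hz1, hz2, hz3⟩
              obtain ⟨s, hs1, hs2, hs3⟩ := (hmem _ _).1 hz2
              rcases lt_trichotomy s t with h | h | h
              · exact hz3 ⟨s, h, hs3⟩
              · rw [h] at hs2
                simp at hs2
              · exact hα4 m t (by omega) s (by omega) (hneg t s h hs1) x hx z hs3 hz1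
          · rintro ⟨⟨h1, h2⟩, h3⟩
            obtain ⟨s, hs1, hs2, hs3⟩ := (hmem _ _).1 h1
            rcases lt_trichotomy s t with h | h | h
            · exact (h2 ⟨s, h, hs3⟩).elim
            · rw [← h]
              exact hs3
            · exfalso
              have hst : t + 1 < s := by
                rcases Nat.lt_or_ge (t + 1) s with h' | h'
                · exact h'
                · have : s = t + 1 := by omega
                  rw [this, Nat.bodd_succ] at hs2
                  simp at hs2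
              obtain ⟨z, hz1, hz2⟩ := hα5 m s (t + 1) hst (hpos _ _ hst hs1) x hs3
              refine h3 ⟨z, hz1, (hmem _ _).2 ⟨t + 1, by omega, Nat.bodd_succ t, hz2⟩, ?_⟩
              rintro ⟨s', hs1', hs2'⟩
              exact hα3 (t + 1) (by omega) s' (by omega) (by omega) z hz2 hs2'
        rw [h1]
        have h2 := ih2 (by omega)
        exact Gen.inter _ _ (Gen.inter _ _ (hgena _) (Gen.compl _ h2))
          (Gen.compl _ (Gen.dia _ _ (Gen.inter _ _ (hgena _) (Gen.compl _ h2))))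
      refine ⟨fun s hs hsN => ?_, fun ht => ?_⟩
      · rcases Nat.lt_or_ge s t with h | h
        · exact ih1 s h hsN
        · have : s = t := by omega
          rw [this]
          exact h0 (by omega)
      · have h3 : c (t + 1) = c t ∪ α t := by
          ext x
          simp only [c, Set.mem_ofPred_eq, Set.mem_union]
          constructor
          · rintro ⟨s, h1, h3⟩
            rcases Nat.lt_or_ge s t with h | h
            · exact Or.inl ⟨s, h, h3⟩
            · right
              have : s = t := by omega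
              rwa [this] at h3
          · rintro (⟨s, h1, h3⟩ | h)
            · exact ⟨s, by omega, h3⟩
            · exact ⟨t, by omega, h⟩
        rw [h3]
        exact Gen.union (ih2 (by omega)) (h0 (by omega))
  have hcard : ((Finset.range (N + 1)).image α).card = N + 1 := by
    rw [Finset.card_image_of_injOn, Finset.card_range]
    intro i hi j hj hij
    simp only [Finset.coe_range, Set.mem_Iio] at hi hj
    by_contra hne
    have h1 := hα2 i hi
    refine hα3 i hi j hj hne _ h1 ?_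
    rw [← hij]
    exact h1
  have := hM _ (ha _) _ (ha _) ((Finset.range (N + 1)).image α) (by
    intro S hS
    obtain ⟨t, ht, rfl⟩ := Finset.mem_image.1 hS
    simp only [Finset.mem_range] at ht
    exact (key (t + 1)).1 t (by omega) (by omega))
  omega

end GFrame

end MP91e814
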