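import Mathlib

/-!
A finiteness criterion: a bisimulation-reduced model in which every point sees boundedly many
blocks of twins and in which linked paths are bounded is finite.
-/

namespace MP91e814

namespace Ty

section defs

variable (ι κ : Type) (b : ℕ)

/-- Codes of types of rank `l` at depth `r`. -/
def T : ℕ → ℕ → Type
  | 0, r => (κ → Prop) × (Fin r → ι → Fin b → Prop)
  | l + 1, r => ((κ → Prop) × (Fin r → ι → Fin b → Prop)) × (ι → Fin b → Set (T l (r + 1)))

end defs

instance finT (ι κ : Type) [Finite ι] [Finite κ] (b : ℕ) : ∀ l r, Finite (T ι κ b l r)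
  | 0, r => by
    unfold T
    infer_instance
  | l + 1, r => by
    have := finT ι κ b l (r + 1)
    unfold T
    infer_instance

variable {ι κ W : Type} (R : ι → W → W → Prop) (E : ι → W → W → Prop) (b : ℕ)
  (val : κ → Set W)

/-- The environment of blocks named so far. -/
abbrev Env (ι W : Type) (b : ℕ) := ℕ → ι → Fin b → Option W

/-- `f` enumerates the blocks seen by `y` that are not named in `env`. -/
def IsNew (r : ℕ) (env : Env ι W b) (y : W) (f : ι → Fin b → Option W) : Prop :=
  (∀ m j z, f m j = some z → R m y z ∧ ∀ i < r, ∀ j' z', env i m j' = some z' → ¬ E m z' z) ∧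
  (∀ m u, R m y u → (∃ i < r, ∃ j z, env i m j = some z ∧ E m z u) ∨
    ∃ j z, f m j = some z ∧ E m z u)

lemma exists_new (hE : ∀ m, Equivalence (E m))
    (hb : ∀ m x (s : Finset W), (∀ z ∈ s, R m x z) → (∀ z ∈ s, ∀ z' ∈ s, E m z z' → z = z') →
      s.card ≤ b) (r : ℕ) (env : Env ι W b) (y : W) :
    ∃ f : ι → Fin b → Option W, IsNew R E b r env y f := by
  classical
  have h : ∀ m, ∃ f : Fin b → Option W,
      (∀ j z, f j = some z → R m y z ∧ ∀ i < r, ∀ j' z', env i m j' = some z' → ¬ E m z' z) ∧
      (∀ u, R m y u → (∃ i < r, ∃ j z, env i m j = some z ∧ E m z u) ∨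
        ∃ j z, f j = some z ∧ E m z u) := by
    intro m
    let P : Finset W → Prop := fun s =>
      (∀ z ∈ s, R m y z ∧ ∀ i < r, ∀ j' z', env i m j' = some z' → ¬ E m z' z) ∧
      (∀ z ∈ s, ∀ z' ∈ s, E m z z' → z = z')
    have hP : ∀ s, P s → s.card ≤ b := fun s hs => hb m y s (fun z hz => (hs.1 z hz).1) hs.2
    let C : Set ℕ := {n | ∃ s, P s ∧ s.card = n}
    have hC1 : C.Nonempty := ⟨0, ∅, ⟨by simp, by simp⟩, rfl⟩
    have hC2 : BddAbove C := ⟨b, by rintro n ⟨s, hs, rfl⟩; exact hP s hs⟩
    obtain ⟨s, hs, hcard⟩ := Nat.sSup_mem hC1 hC2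
    have hmax : ∀ s', P s' → s'.card ≤ s.card := by
      intro s' hs'
      rw [hcard]
      exact le_csSup hC2 ⟨s', hs', rfl⟩
    refine ⟨fun j => s.toList[(j : ℕ)]?, ?_, ?_⟩
    · intro j z hz
      exact hs.1 z (by simpa using List.mem_of_getElem? hz)
    · intro u hu
      by_contra hcon
      push Not at hcon
      obtain ⟨hc1, hc2⟩ := hcon
      have hc3 : ∀ z ∈ s, ¬ E m z u := by
        intro z hz
        obtain ⟨j, hj, hjz⟩ := List.getElem_of_mem (Finset.mem_toList.2 hz)
        have hj' : j < b := lt_of_lt_of_le (by simpa using hj) (hP s hs)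
        refine hc2 ⟨j, hj'⟩ z ?_
        simp [List.getElem?_eq_getElem hj, hjz]
      have hu' : u ∉ s := fun h => hc3 u h ((hE m).refl u)
      have hins : P (insert u s) := by
        refine ⟨?_, ?_⟩
        · intro z hz
          rcases Finset.mem_insert.1 hz with rfl | hz
          · exact ⟨hu, fun i hi j' z' h' => hc1 i hi j' z' h'⟩
          · exact hs.1 z hz
        · intro z hz z' hz' hzz
          rcases Finset.mem_insert.1 hz with h1 | h1 <;>
            rcases Finset.mem_insert.1 hz' with h2 | h2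
          · rw [h1, h2]
          · rw [h1] at hzz
            exact (hc3 z' h2 ((hE m).symm hzz)).elim
          · rw [h2] at hzz
            exact (hc3 z h1 hzz).elim
          · exact hs.2 z h1 z' h2 hzz
      have := hmax _ hins
      rw [Finset.card_insert_of_notMem hu'] at this
      omega
  choose f hf using h
  exact ⟨f, fun m => (hf m).1, fun m => (hf m).2⟩

/-- A chosen enumeration of the new blocks. -/
noncomputable def new (r : ℕ) (env : Env ι W b) (y : W) : ι → Fin b → Option W :=
  open Classical in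
  if h : ∃ f : ι → Fin b → Option W, IsNew R E b r env y f then Classical.choose h
  else fun _ _ => none

/-- The type of rank `l` of the point `y` in the environment `env` of depth `r`. -/
noncomputable def ty : (l r : ℕ) → Env ι W b → W → T ι κ b l r
  | 0, _, env, y => (fun c => y ∈ val c, fun i m j => ∃ z, env i m j = some z ∧ R m y z)
  | l + 1, r, env, y =>
    ((fun c => y ∈ val c, fun i m j => ∃ z, env i m j = some z ∧ R m y z),
      fun m j => {t | ∃ u, (∃ z, new R E b r env y m j = some z ∧ E m z u) ∧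
        ty l (r + 1) (Function.update env r (new R E b r env y)) u = t})

/-- The environments along a sequence of points. -/
noncomputable def envOf (x : ℕ → W) : ℕ → Env ι W b
  | 0 => fun _ _ _ => none
  | i + 1 => Function.update (envOf x i) i (new R E b i (envOf x i) (x i))

lemma envOf_congr {x y : ℕ → W} : ∀ {i : ℕ}, (∀ j < i, x j = y j) →
    envOf R E b x i = envOf R E b y i
  | 0, _ => rfl
  | i + 1, h => by
    have ih := envOf_congr (x := x) (y := y) (i := i) (fun j hj => h j (by omega))
    simp only [envOf]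
    rw [ih, h i (by omega)]

lemma envOf_apply (x : ℕ → W) : ∀ {r i : ℕ}, i < r →
    envOf R E b x r i = new R E b i (envOf R E b x i) (x i)
  | 0, i, h => by omega
  | r + 1, i, h => by
    simp only [envOf]
    rcases Nat.lt_or_ge i r with h' | h'
    · rw [Function.update_of_ne (by omega)]
      exact envOf_apply x h'
    · have : i = r := by omega
      subst this
      rw [Function.update_self]

/-- The relation used as a bisimulation. -/
def Z (L : ℕ) (u u' : W) : Prop :=
  ∃ r ≤ L, ∃ x x' : ℕ → W, x r = u ∧ x' r = u' ∧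
    (∀ i ≤ r, ty R E b val (L - i) i (envOf R E b x i) (x i) =
      ty R E b val (L - i) i (envOf R E b x' i) (x' i)) ∧
    (∀ i < r, ∃ m j z, new R E b i (envOf R E b x i) (x i) m j = some z ∧ E m z (x (i + 1))) ∧
    (∀ i < r, ∃ m j z, new R E b i (envOf R E b x' i) (x' i) m j = some z ∧
      E m z (x' (i + 1)))

variable {R E b val}

lemma Z.symm {L : ℕ} {u u' : W} (h : Z R E b val L u u') : Z R E b val L u' u := by
  obtain ⟨r, hr, x, x', h1, h2, h3, h4, h5⟩ := h
  exact ⟨r, hr, x', x, h2, h1, fun i hi => (h3 i hi).symm, h5, h4⟩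

lemma Z.val_iff {L : ℕ} {u u' : W} (h : Z R E b val L u u') (c : κ) :
    u ∈ val c ↔ u' ∈ val c := by
  obtain ⟨r, hr, x, x', rfl, rfl, h3, -, -⟩ := h
  have h := h3 r (le_refl _)
  cases hl : L - r with
  | zero =>
    rw [hl] at h
    have h' := congrFun (congrArg Prod.fst h) c
    exact Iff.of_eq h'
  | succ l =>
    rw [hl] at h
    have h' := congrFun (congrArg Prod.fst (congrArg Prod.fst h)) c
    exact Iff.of_eq h'

lemma seen_iff {l r : ℕ} {env env' : Env ι W b} {y y' : W}
    (h : ty R E b val l r env y = ty R E b val l r env' y') {i : ℕ} (hi : i < r) (m : ι)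
    (j : Fin b) : (∃ z, env i m j = some z ∧ R m y z) ↔ ∃ z, env' i m j = some z ∧ R m y' z := by
  cases l with
  | zero =>
    have h' := congrFun (congrFun (congrFun (congrArg Prod.snd h) ⟨i, hi⟩) m) j
    exact Iff.of_eq h'
  | succ l =>
    have h' := congrFun (congrFun (congrFun (congrArg Prod.snd (congrArg Prod.fst h))
      ⟨i, hi⟩) m) j
    exact Iff.of_eq h'

section main

variable (hE : ∀ m, Equivalence (E m)) (hER : ∀ m x z z', E m z z' → R m x z → R m x z')
  (hb : ∀ m x (s : Finset W), (∀ z ∈ s, R m x z) → (∀ z ∈ s, ∀ z' ∈ s, E m z z' → z = z') →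
      s.card ≤ b)

include hE hb in
lemma new_spec (r : ℕ) (env : Env ι W b) (y : W) : IsNew R E b r env y (new R E b r env y) := by
  have h := exists_new R E b hE hb r env y
  unfold new
  rw [dif_pos h]
  exact Classical.choose_spec h

include hE hER hb in
/-- The sequence of points of a history is a linked path. -/
lemma linked {r : ℕ} {x : ℕ → W}
    (hx : ∀ i < r, ∃ m j z, new R E b i (envOf R E b x i) (x i) m j = some z ∧
      E m z (x (i + 1))) :
    ∀ i < r, ∃ m, R m (x i) (x (i + 1)) ∧ ∀ a < i, ¬ R m (x a) (x (i + 1)) := by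
  intro i hi
  obtain ⟨m, j, z, h1, h2⟩ := hx i hi
  have hs := new_spec hE hb i (envOf R E b x i) (x i)
  obtain ⟨h3, h4⟩ := hs.1 m j z h1
  refine ⟨m, hER m _ _ _ h2 h3, ?_⟩
  intro a ha hR
  have hold : ∃ i'' < i, ∃ j'' z'', envOf R E b x i i'' m j'' = some z'' ∧
      E m z'' (x (i + 1)) := by
    rcases (new_spec hE hb a (envOf R E b x a) (x a)).2 m _ hR with
      ⟨a', ha', j', z', h5, h6⟩ | ⟨j', z', h5, h6⟩
    · refine ⟨a', by omega, j', z', ?_, h6⟩
      rw [envOf_apply R E b x ha'] at h5
      rw [envOf_apply R E b x (show a' < i by omega)]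
      exact h5
    · refine ⟨a, ha, j', z', ?_, h6⟩
      rw [envOf_apply R E b x ha]
      exact h5
  obtain ⟨i'', hi'', j'', z'', h5, h6⟩ := hold
  exact h4 i'' hi'' j'' z'' h5 ((hE m).trans h6 ((hE m).symm h2))

include hE hER hb in
lemma Z.forth {L : ℕ}
    (hL : ∀ x : ℕ → W, ¬ ∀ i < L + 1, ∃ m, R m (x i) (x (i + 1)) ∧
      ∀ a < i, ¬ R m (x a) (x (i + 1)))
    {u u' : W} (h : Z R E b val L u u') (m : ι) (v : W) (huv : R m u v) :
    ∃ v', R m u' v' ∧ Z R E b val L v v' := by
  obtain ⟨r, hr, x, x', rfl, rfl, h3, h4, h5⟩ := h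
  -- the stage at which the block of `v` was new
  have hst : ∃ a ≤ r, ∃ j z, new R E b a (envOf R E b x a) (x a) m j = some z ∧ E m z v := by
    rcases (new_spec hE hb r (envOf R E b x r) (x r)).2 m v huv with
      ⟨i, hi, j, z, h6, h7⟩ | ⟨j, z, h6, h7⟩
    · rw [envOf_apply R E b x hi] at h6
      exact ⟨i, hi.le, j, z, h6, h7⟩
    · exact ⟨r, le_refl _, j, z, h6, h7⟩
  obtain ⟨a, har, j, z, h6, h7⟩ := hst
  -- the new sequence
  let y : ℕ → W := fun i => if i ≤ a then x i else v
  have hy1 : ∀ i ≤ a, y i = x i := fun i hi => by simp [y, hi]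
  have hy2 : y (a + 1) = v := by simp [y]
  have hye : ∀ i ≤ a + 1, envOf R E b y i = envOf R E b x i := fun i hi =>
    envOf_congr R E b (fun j hj => hy1 j (by omega))
  have hynew : ∀ i < a + 1, ∃ m j z, new R E b i (envOf R E b y i) (y i) m j = some z ∧
      E m z (y (i + 1)) := by
    intro i hi
    rcases Nat.lt_or_ge i a with h | h
    · rw [hye i (by omega), hy1 i (by omega), hy1 (i + 1) (by omega)]
      exact h4 i (by omega)
    · have : i = a := by omega
      subst this
      rw [hye i (by omega), hy1 i (le_refl _), hy2]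
      exact ⟨m, j, z, h6, h7⟩
  have haL : a < L := by
    by_contra hcon
    have haL : a = L := by omega
    subst haL
    exact hL y (linked hE hER hb hynew)
  obtain ⟨l, hl⟩ : ∃ l, L - a = l + 1 := ⟨L - a - 1, by omega⟩
  have h8 := h3 a har
  rw [hl] at h8
  have h9 := congrFun (congrFun (congrArg Prod.snd h8) m) j
  have h10 : ty R E b val l (a + 1) (envOf R E b x (a + 1)) v ∈
      (ty R E b val (l + 1) a (envOf R E b x a) (x a)).2 m j :=
    ⟨v, ⟨z, h6, h7⟩, rfl⟩
  rw [h9] at h10
  obtain ⟨v', ⟨z', h11, h12⟩, h13⟩ := h10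
  refine ⟨v', ?_, ?_⟩
  · rcases Nat.lt_or_ge a r with h | h
    · have h14 := (seen_iff (h3 r (le_refl _)) h m j).1 ⟨z, by
        rw [envOf_apply R E b x h]
        exact h6, hER m _ _ _ ((hE m).symm h7) huv⟩
      obtain ⟨z'', h15, h16⟩ := h14
      rw [envOf_apply R E b x' h, h11] at h15
      cases h15
      exact hER m _ _ _ h12 h16
    · have : a = r := by omega
      subst this
      exact hER m _ _ _ h12 ((new_spec hE hb a (envOf R E b x' a) (x' a)).1 m j z' h11).1
  · let y' : ℕ → W := fun i => if i ≤ a then x' i else v'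
    have hy1' : ∀ i ≤ a, y' i = x' i := fun i hi => by simp [y', hi]
    have hy2' : y' (a + 1) = v' := by simp [y']
    have hye' : ∀ i ≤ a + 1, envOf R E b y' i = envOf R E b x' i := fun i hi =>
      envOf_congr R E b (fun j hj => hy1' j (by omega))
    refine ⟨a + 1, by omega, y, y', hy2, hy2', ?_, hynew, ?_⟩
    · intro i hi
      rcases Nat.lt_or_ge i (a + 1) with h | h
      · rw [hye i hi, hye' i hi, hy1 i (by omega), hy1' i (by omega)]
        exact h3 i (by omega)
      · have : i = a + 1 := by omega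
        subst this
        rw [hye _ (le_refl _), hye' _ (le_refl _), hy2, hy2',
          show L - (a + 1) = l by omega]
        exact h13.symm
    · intro i hi
      rcases Nat.lt_or_ge i a with h | h
      · rw [hye' i (by omega), hy1' i (by omega), hy1' (i + 1) (by omega)]
        exact h5 i (by omega)
      · have : i = a := by omega
        subst this
        rw [hye' i (by omega), hy1' i (le_refl _), hy2']
        exact ⟨m, j, z', h11, h12⟩

include hE hER hb in
/-- The finiteness criterion. -/
theorem finite_of_linked [Finite ι] [Finite κ] (L : ℕ)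
    (hL : ∀ x : ℕ → W, ¬ ∀ i < L + 1, ∃ m, R m (x i) (x (i + 1)) ∧
      ∀ a < i, ¬ R m (x a) (x (i + 1)))
    (hbis : ∀ Z : W → W → Prop, (∀ u u', Z u u' → Z u' u) →
      (∀ u u', Z u u' → ∀ c, u ∈ val c ↔ u' ∈ val c) →
      (∀ u u', Z u u' → ∀ m v, R m u v → ∃ v', R m u' v' ∧ Z v v') →
      ∀ u u', Z u u' → u = u') : Finite W := by
  have hinj : Function.Injective fun u : W =>
      ty R E b val L 0 (envOf R E b (fun _ => u) 0) u := by
    intro u u' h
    refine hbis (Z R E b val L) (fun _ _ h => h.symm) (fun _ _ h => h.val_iff)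
      (fun _ _ h m v huv => h.forth hE hER hb hL m v huv) u u'
      ⟨0, Nat.zero_le _, fun _ => u, fun _ => u', rfl, rfl, ?_, ?_, ?_⟩
    · intro i hi
      have : i = 0 := by omega
      subst this
      exact h
    · intro i hi
      omega
    · intro i hi
      omega
  exact Finite.of_injective _ hinj

end main

end Ty

end MP91e814
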