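import Mathlib
import Pool.Agent.MP_91e814_lc.Canon
import Pool.Agent.MP_91e814_lc.Frame
import Pool.Agent.MP_91e814_lc.Types

/-!
Two-tabular logics all of whose boxes are of finite alternativity or transitive of finite width
are locally tabular.
-/

namespace MP91e814

open Form

/-! ### Finite sets -/

lemma exists_seq {W : Type} (x : W) {n : ℕ} {s : Finset W} (hs : n + 1 ≤ s.card) :
    ∃ w : ℕ → W, (∀ i ≤ n, w i ∈ s) ∧ ∀ i ≤ n, ∀ j ≤ n, w i = w j → i = j := by
  refine ⟨fun i => if h : i < s.card then (s.equivFin.symm ⟨i, h⟩ : W) else x, ?_, ?_⟩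
  · intro i hi
    have h : i < s.card := by omega
    simp only [h, dif_pos]
    exact (s.equivFin.symm ⟨i, h⟩).2
  · intro i hi j hj hij
    have h : i < s.card := by omega
    have h' : j < s.card := by omega
    simp only [h, h', dif_pos] at hij
    have := s.equivFin.symm.injective (Subtype.ext hij)
    simpa using this

lemma exists_chain {W : Type} {R : W → W → Prop} (hR : ∀ x y z, R x y → R y z → R x z)
    {n : ℕ} : ∀ (k : ℕ) (s : Finset W),
    (∀ z ∈ s, ∀ z' ∈ s, R z z' → R z' z → z = z') →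
    (∀ w : ℕ → W, (∀ i ≤ n, w i ∈ s) → (∀ i ≤ n, ∀ j ≤ n, w i = w j → i = j) →
      ∃ i ≤ n, ∃ j ≤ n, i ≠ j ∧ R (w i) (w j)) → k * n < s.card →
    ∃ y : ℕ → W, (∀ i ≤ k, y i ∈ s) ∧ (∀ i j, i < j → j ≤ k → R (y j) (y i)) ∧
      (∀ i j, i < j → j ≤ k → ¬ R (y i) (y j)) := by
  classical
  intro k
  induction k with
  | zero =>
    intro s h1 h2 h3
    obtain ⟨x, hx⟩ := Finset.card_pos.1 (by simpa using h3 : 0 < s.card)
    exact ⟨fun _ => x, fun _ _ => hx, fun i j h h' => by omega, fun i j h h' => by omega⟩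
  | succ k ih =>
    intro s h1 h2 h3
    let A := s.filter fun z => ∀ z' ∈ s, R z z' → z' = z
    have hA : A.card ≤ n := by
      by_contra hcon
      obtain ⟨x, hx⟩ : A.Nonempty := Finset.card_pos.1 (by omega)
      obtain ⟨w, hw1, hw2⟩ := exists_seq x (show n + 1 ≤ A.card by omega)
      obtain ⟨i, hi, j, hj, hij, hr⟩ := h2 w (fun i hi => (Finset.mem_filter.1 (hw1 i hi)).1) hw2
      have := (Finset.mem_filter.1 (hw1 i hi)).2 (w j) (Finset.mem_filter.1 (hw1 j hj)).1 hr
      exact hij (hw2 i hi j hj this.symm)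
    have hcard : k * n < (s \ A).card := by
      have h4 := Finset.card_sdiff_add_card_eq_card (Finset.filter_subset
        (fun z => ∀ z' ∈ s, R z z' → z' = z) s)
      have h5 : (s \ A).card + A.card = s.card := h4
      have h6 : (k + 1) * n = k * n + n := by ring
      omega
    have hsub : s \ A ⊆ s := Finset.sdiff_subset
    obtain ⟨y, hy1, hy2, hy3⟩ := ih (s \ A)
      (fun z hz z' hz' => h1 z (hsub hz) z' (hsub hz'))
      (fun w hw hw' => h2 w (fun i hi => hsub (hw i hi)) hw') hcard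
    have hy0 := hy1 0 (Nat.zero_le _)
    have hz : ∃ z ∈ s, R (y 0) z ∧ z ≠ y 0 := by
      by_contra hcon
      push Not at hcon
      exact (Finset.mem_sdiff.1 hy0).2 (Finset.mem_filter.2 ⟨hsub hy0, hcon⟩)
    obtain ⟨z, hz1, hz2, hz3⟩ := hz
    have hz4 : ¬ R z (y 0) := fun h => hz3 (h1 z hz1 (y 0) (hsub hy0) h hz2)
    refine ⟨fun i => if i = 0 then z else y (i - 1), ?_, ?_, ?_⟩
    · intro i hi
      by_cases h : i = 0
      · simp only [h, if_pos]
        exact hz1
      · simp only [h, if_false]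
        exact hsub (hy1 _ (by omega))
    · intro i j hij hj
      have hj0 : j ≠ 0 := by omega
      by_cases h : i = 0
      · simp only [h, hj0, if_pos, if_false]
        rcases Nat.eq_zero_or_pos (j - 1) with h' | h'
        · rw [h']
          exact hz2
        · exact hR _ _ _ (hy2 0 (j - 1) h' (by omega)) hz2
      · simp only [h, hj0, if_false]
        exact hy2 _ _ (by omega) (by omega)
    · intro i j hij hj
      have hj0 : j ≠ 0 := by omega
      by_cases h : i = 0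
      · simp only [h, hj0, if_pos, if_false]
        rcases Nat.eq_zero_or_pos (j - 1) with h' | h'
        · rw [h']
          exact hz4
        · intro hc
          exact hz4 (hR _ _ _ hc (hy2 0 (j - 1) h' (by omega)))
      · simp only [h, hj0, if_false]
        exact hy3 _ _ (by omega) (by omega)

/-! ### The canonical frame as a general frame -/

section

variable {ι V : Type} {L : Set (Form ι ℕ)} (hL : IsNormalLogic L)

/-- The canonical frame of `L` over the variables `V`. -/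
def cframe (V : Type) : GFrame ι (World L V) where
  R := fun m => Rel L m
  D := {A | ∃ φ : Form ι V, A = {x | x.v φ}}
  univ_mem := ⟨Form.top, by
    ext x
    simpa using x.bool.top⟩
  compl_mem := by
    rintro A ⟨φ, rfl⟩
    refine ⟨φ.neg, ?_⟩
    ext x
    simp [x.bool.neg]
  inter_mem := by
    rintro A ⟨φ, rfl⟩ B ⟨ψ, rfl⟩
    refine ⟨conj2 φ ψ, ?_⟩
    ext x
    simp [x.bool.conj2]
  dia_mem := by
    rintro m A ⟨φ, rfl⟩
    refine ⟨dia m φ, ?_⟩
    ext x
    simp [dia_iff hL]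
  sep := by
    intro x y hxy
    by_contra hcon
    push Not at hcon
    refine hxy (World.ext fun φ => ?_)
    constructor
    · intro h
      exact hcon _ ⟨φ, rfl⟩ h
    · intro h
      by_contra h'
      have := hcon _ ⟨φ.neg, rfl⟩ (show x.v φ.neg from (x.bool.neg φ).2 h')
      exact (y.bool.neg φ).1 this h
  tight := by
    intro m x y h
    unfold Rel at h
    push Not at h
    obtain ⟨φ, h1, h2⟩ := h
    exact ⟨_, ⟨φ, rfl⟩, fun z hz => hz φ h1, h2⟩

lemma gen_form {φa φb : Form ι V} {S : Set (World L V)}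
    (h : Gen (cframe hL V) {x | x.v φa} {x | x.v φb} S) :
    ∃ θ : Form ι (Fin 2), S = {x | x.v (θ.subst ![φa, φb])} := by
  induction h with
  | left => exact ⟨var 0, rfl⟩
  | right => exact ⟨var 1, rfl⟩
  | compl A _ ih =>
    obtain ⟨θ, rfl⟩ := ih
    refine ⟨θ.neg, ?_⟩
    ext x
    simp [subst_neg, x.bool.neg]
  | inter A B _ _ ih1 ih2 =>
    obtain ⟨θ, rfl⟩ := ih1
    obtain ⟨θ', rfl⟩ := ih2
    refine ⟨conj2 θ θ', ?_⟩
    ext x
    simp [subst_conj2, x.bool.conj2]
  | dia m A _ ih =>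
    obtain ⟨θ, rfl⟩ := ih
    refine ⟨Form.dia m θ, ?_⟩
    ext x
    simp [subst_dia, dia_iff hL, cframe]

lemma exists_bd (h2 : Tabular L 2) : ∃ M, ∀ V : Type, Bd (cframe hL V) M := by
  classical
  obtain ⟨S, hS, hcov⟩ := h2
  refine ⟨hS.toFinset.card, fun V => ?_⟩
  rintro a ⟨φa, rfl⟩ b ⟨φb, rfl⟩ T hT
  have hsub : T ⊆ hS.toFinset.image fun ψ => {x : World L V | x.v (ψ.subst ![φa, φb])} := by
    intro A hA
    obtain ⟨θ, rfl⟩ := gen_form hL (hT A hA)
    obtain ⟨ψ, hψ, h⟩ := hcov θ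
    refine Finset.mem_image.2 ⟨ψ, by simpa using hψ, ?_⟩
    have h1 := On.subst ((emb_mem_iff hL _).1 h) ![φa, φb]
    ext x
    have h3 := x.mem _ h1
    rw [subst_equiv, x.bool.equiv] at h3
    exact h3.symm
  exact (Finset.card_le_card hsub).trans Finset.card_image_le

include hL

lemma tabular_of_finite (k : ℕ) [Finite (World L (Fin k))] : Tabular L k := by
  classical
  let f : Set (World L (Fin k)) → Form ι (Fin k) := fun A =>
    if h : ∃ φ : Form ι (Fin k), A = {x | x.v φ} then Classical.choose h else Form.bot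
  refine ⟨Set.range f, Set.finite_range f, fun φ => ⟨f {x | x.v φ}, ⟨_, rfl⟩, ?_⟩⟩
  have h : ∃ ψ : Form ι (Fin k), {x : World L (Fin k) | x.v φ} = {x | x.v ψ} := ⟨φ, rfl⟩
  have h1 : f {x | x.v φ} = Classical.choose h := dif_pos h
  rw [h1, emb_mem_iff hL, mem_on_iff hL]
  intro x
  rw [x.bool.equiv]
  exact Iff.of_eq (congrArg (fun A : Set (World L (Fin k)) => x ∈ A) (Classical.choose_spec h))

/-! ### Frame conditions -/

lemma alt_sem {m : ι} {n : ℕ} (h : altAx m n ∈ L) (σ : ℕ → Form ι V) (x : World L V)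
    (h1 : ∀ i ≤ n, ∃ y, Rel L m x y ∧ y.v (σ i)) :
    ∃ i ≤ n, ∃ j < i, ∃ y, Rel L m x y ∧ y.v (σ i) ∧ y.v (σ j) := by
  have h2 := x.mem _ (On.of_mem hL h σ)
  simp only [altAx, Form.subst, subst_conj, subst_disj, x.bool.imp, x.bool.conj, x.bool.disj,
    List.map_map, List.mem_map, List.map_flatMap, List.mem_flatMap, List.mem_range,
    Function.comp, subst_dia, subst_conj2] at h2
  obtain ⟨φ, ⟨i, hi, j, hj, rfl⟩, h3⟩ := h2 (by
    rintro φ ⟨i, hi, rfl⟩
    exact (dia_iff hL _ _ _).2 (h1 i (by omega)))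
  obtain ⟨y, hy1, hy2⟩ := (dia_iff hL _ _ _).1 h3
  rw [y.bool.conj2] at hy2
  exact ⟨i, by omega, j, hj, y, hy1, hy2.1, hy2.2⟩

lemma width_sem {m : ι} {n : ℕ} (h : widthAx m n ∈ L) (σ : ℕ → Form ι V) (x : World L V)
    (h1 : ∀ i ≤ n, ∃ y, Rel L m x y ∧ y.v (σ i)) :
    ∃ i ≤ n, ∃ j ≤ n, i ≠ j ∧ ∃ y, Rel L m x y ∧ y.v (σ i) ∧
      (y.v (σ j) ∨ ∃ z, Rel L m y z ∧ z.v (σ j)) := by
  have h2 := x.mem _ (On.of_mem hL h σ)
  simp only [widthAx, Form.subst, subst_conj, subst_disj, x.bool.imp, x.bool.conj, x.bool.disj,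
    List.map_map, List.mem_map, List.map_flatMap, List.mem_flatMap, List.mem_range,
    Function.comp, subst_dia, subst_conj2, subst_disj2, List.mem_filter, decide_eq_true_eq,
    ne_eq] at h2
  obtain ⟨φ, ⟨i, hi, j, ⟨hj, hij⟩, rfl⟩, h3⟩ := h2 (by
    rintro φ ⟨i, hi, rfl⟩
    exact (dia_iff hL _ _ _).2 (h1 i (by omega)))
  obtain ⟨y, hy1, hy2⟩ := (dia_iff hL _ _ _).1 h3
  rw [y.bool.conj2, y.bool.disj2, dia_iff hL] at hy2
  exact ⟨i, by omega, j, by omega, fun h => hij h.symm, y, hy1, hy2.1, hy2.2⟩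

lemma four_sem {m : ι} (h : fourAx m ∈ L) (x y z : World L V) (hxy : Rel L m x y)
    (hyz : Rel L m y z) : Rel L m x z := by
  intro φ hφ
  have h1 := x.mem _ (On.of_mem hL h fun _ => φ)
  simp only [fourAx, Form.subst, x.bool.imp] at h1
  exact hyz _ (hxy _ (h1 hφ))

lemma five_sem {m : ι} (h : fiveAx m ∈ L) (x y z : World L V) (hxy : Rel L m x y)
    (hxz : Rel L m x z) : Rel L m y z := by
  intro φ hφ
  by_contra hz
  have h1 := x.mem _ (On.of_mem hL h fun _ => φ.neg)
  simp only [fiveAx, Form.subst, x.bool.imp, subst_dia] at h1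
  have h2 := hxy _ (h1 ((dia_iff hL _ _ _).2 ⟨z, hxz, (z.bool.neg φ).2 hz⟩))
  obtain ⟨z', h3, h4⟩ := (dia_iff hL _ _ _).1 h2
  exact (z'.bool.neg φ).1 h4 (h3 φ hφ)

lemma alt_card [Finite ι] {m : ι} {n : ℕ} (h : altAx m n ∈ L) (x : World L V)
    (s : Finset (World L V)) (hs : ∀ z ∈ s, Rel L m x z) : s.card ≤ n := by
  by_contra hcon
  obtain ⟨w, hw1, hw2⟩ := exists_seq x (show n + 1 ≤ s.card by omega)
  obtain ⟨U, hU1, hU2, hU3, -⟩ := (cframe hL V).neg_real (n + 1) w
    (fun i hi j hj => hw2 i (by omega) j (by omega))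
  choose σ hσ using hU1
  obtain ⟨i, hi, j, hj, y, hy1, hy2, hy3⟩ := alt_sem hL h σ x (fun i hi => ⟨w i, hs _ (hw1 i hi),
    (show w i ∈ {x | x.v (σ i)} from hσ i ▸ hU2 i (by omega))⟩)
  have h1 : y ∈ U i := by
    rw [hσ i]
    exact hy2
  have h2 : y ∈ U j := by
    rw [hσ j]
    exact hy3
  exact hU3 i (by omega) j (by omega) (by omega) y h1 h2

lemma width_pair [Finite ι] {m : ι} {n : ℕ} (h : widthAx m n ∈ L) (x : World L V)
    (w : ℕ → World L V) (hw1 : ∀ i ≤ n, Rel L m x (w i))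
    (hw2 : ∀ i ≤ n, ∀ j ≤ n, w i = w j → i = j) :
    ∃ i ≤ n, ∃ j ≤ n, i ≠ j ∧ Rel L m (w i) (w j) := by
  by_contra hcon
  push Not at hcon
  obtain ⟨U, hU1, hU2, hU3, hU4⟩ := (cframe hL V).neg_real (n + 1) w
    (fun i hi j hj => hw2 i (by omega) j (by omega))
  choose σ hσ using hU1
  obtain ⟨i, hi, j, hj, hij, y, hy1, hy2, hy3⟩ := width_sem hL h σ x (fun i hi => ⟨w i, hw1 i hi,
    (show w i ∈ {x | x.v (σ i)} from hσ i ▸ hU2 i (by omega))⟩)
  have h1 : y ∈ U i := by
    rw [hσ i]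
    exact hy2
  rcases hy3 with hy3 | ⟨z, hz1, hz2⟩
  · have h2 : y ∈ U j := by
      rw [hσ j]
      exact hy3
    exact hU3 i (by omega) j (by omega) hij y h1 h2
  · have h2 : z ∈ U j := by
      rw [hσ j]
      exact hz2
    exact hU4 m i (by omega) j (by omega) (hcon i hi j hj hij) y h1 z h2 hz1

/-- The relevant condition on a box. -/
lemma exists_blocks [Finite ι] {M : ℕ} (hM : Bd (cframe hL V) M) (m : ι)
    (h : (∃ n, altAx m n ∈ L) ∨ (fourAx m ∈ L ∧ ((∃ n, widthAx m n ∈ L) ∨ fiveAx m ∈ L))) :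
    ∃ E : World L V → World L V → Prop, Equivalence E ∧
      (∀ x z z', E z z' → Rel L m x z → Rel L m x z') ∧
      ∃ b, ∀ x (s : Finset (World L V)), (∀ z ∈ s, Rel L m x z) →
        (∀ z ∈ s, ∀ z' ∈ s, E z z' → z = z') → s.card ≤ b := by
  rcases h with ⟨n, h⟩ | ⟨h4, h⟩
  · refine ⟨Eq, ⟨fun _ => rfl, Eq.symm, Eq.trans⟩, ?_, n, ?_⟩
    · rintro x z z' rfl h
      exact h
    · intro x s hs _
      exact alt_card hL h x s hs
  · have hpair : ∃ n, ∀ (x : World L V) (w : ℕ → World L V), (∀ i ≤ n, Rel L m x (w i)) →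
        (∀ i ≤ n, ∀ j ≤ n, w i = w j → i = j) → ∃ i ≤ n, ∃ j ≤ n, i ≠ j ∧
          Rel L m (w i) (w j) := by
      rcases h with ⟨n, h⟩ | h
      · exact ⟨n, fun x w hw1 hw2 => width_pair hL h x w hw1 hw2⟩
      · exact ⟨1, fun x w hw1 hw2 => ⟨0, by omega, 1, le_refl _, by omega,
          five_sem hL h _ _ _ (hw1 0 (by omega)) (hw1 1 (le_refl _))⟩⟩
    obtain ⟨n, hn⟩ := hpair
    have htr := fun x y z => four_sem (V := V) hL h4 x y z
    refine ⟨fun z z' => z = z' ∨ (Rel L m z z' ∧ Rel L m z' z), ⟨fun _ => Or.inl rfl, ?_, ?_⟩,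
      ?_, M * n, ?_⟩
    · rintro x y (rfl | ⟨h1, h2⟩)
      · exact Or.inl rfl
      · exact Or.inr ⟨h2, h1⟩
    · rintro x y z (rfl | ⟨h1, h2⟩) (rfl | ⟨h3, h5⟩)
      · exact Or.inl rfl
      · exact Or.inr ⟨h3, h5⟩
      · exact Or.inr ⟨h1, h2⟩
      · exact Or.inr ⟨htr _ _ _ h1 h3, htr _ _ _ h5 h2⟩
    · rintro x z z' (rfl | ⟨h1, h2⟩) hx
      · exact hx
      · exact htr _ _ _ hx h1
    · intro x s hs1 hs2
      by_contra hcon
      obtain ⟨y, -, hy2, hy3⟩ := exists_chain htr (n := n) M s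
        (fun z hz z' hz' h1 h2 => hs2 z hz z' hz' (Or.inr ⟨h1, h2⟩))
        (fun w hw1 hw2 => hn x w (fun i hi => hs1 _ (hw1 i hi)) hw2) (by omega)
      exact absurd ((cframe hL V).strict_chain hM m M y hy2 hy3) (lt_irrefl _)

lemma finite_world [Finite ι] [Finite V] {M : ℕ} (hM : Bd (cframe hL V) M)
    (h : ∀ m : ι, (∃ n, altAx m n ∈ L) ∨
      (fourAx m ∈ L ∧ ((∃ n, widthAx m n ∈ L) ∨ fiveAx m ∈ L))) : Finite (World L V) := by
  classical
  have hbl := fun m => exists_blocks hL hM m (h m)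
  choose E hE hER b hb using hbl
  have := Fintype.ofFinite ι
  refine Ty.finite_of_linked (ι := ι) (κ := V) (R := fun m => Rel L m) (E := E)
    (val := fun c => {x | x.v (var c)}) (b := Finset.univ.sup b) hE hER ?_ M ?_ ?_
  · intro m x s h1 h2
    exact (hb m x s h1 h2).trans (Finset.le_sup (f := b) (Finset.mem_univ m))
  · intro x hx
    have hx' : ∀ i, ∃ m, i < M + 1 → Rel L m (x i) (x (i + 1)) ∧
        ∀ a < i, ¬ Rel L m (x a) (x (i + 1)) := by
      intro i
      by_cases hi : i < M + 1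
      · obtain ⟨m, hm⟩ := hx i hi
        exact ⟨m, fun _ => hm⟩
      · obtain ⟨m, -⟩ := hx 0 (by omega)
        exact ⟨m, fun h => (hi h).elim⟩
    choose μ hμ using hx'
    have hdist : ∀ a a', a < a' → a' ≤ M → x a ≠ x a' := by
      intro a a' haa ha' heq
      have h1 := hμ a' (by omega)
      exact h1.2 a haa (heq ▸ h1.1)
    refine absurd ((cframe hL V).linked_path hM M (fun t => x (M - t)) (fun t => μ (M - t - 1))
      ?_ ?_ ?_) (lt_irrefl _)
    · intro i hi j hj hij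
      rcases lt_trichotomy i j with h | h | h
      · exact (hdist (M - j) (M - i) (by omega) (by omega) hij.symm).elim
      · exact h
      · exact (hdist (M - i) (M - j) (by omega) (by omega) hij).elim
    · intro t ht
      have h1 := (hμ (M - t - 1) (by omega)).1
      rw [show M - t - 1 + 1 = M - t by omega] at h1
      have h2 : x (M - (t + 1)) = x (M - t - 1) := by rw [Nat.sub_sub]
      show Rel L (μ (M - t - 1)) (x (M - (t + 1))) (x (M - t))
      rw [h2]
      exact h1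
    · intro t s hs hts
      have h1 := (hμ (M - t - 1) (by omega)).2 (M - s) (by omega)
      rw [show M - t - 1 + 1 = M - t by omega] at h1
      exact h1
  · intro Z hZ1 hZ2 hZ3 u u' hZ
    have key : ∀ φ : Form ι V, ∀ u u', Z u u' → (u.v φ ↔ u'.v φ) := by
      intro φ
      induction φ with
      | var c =>
        intro u u' hZ
        exact hZ2 u u' hZ c
      | bot =>
        intro u u' _
        exact iff_of_false u.bool.bot u'.bool.bot
      | imp φ ψ ih1 ih2 =>
        intro u u' hZ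
        rw [u.bool.imp, u'.bool.imp, ih1 u u' hZ, ih2 u u' hZ]
      | box m φ ih =>
        have h1 : ∀ u u', Z u u' → u.v (box m φ) → u'.v (box m φ) := by
          intro u u' hZ hu
          rw [box_iff hL] at hu ⊢
          intro v' hv'
          obtain ⟨v, hv1, hv2⟩ := hZ3 u' u (hZ1 _ _ hZ) m v' hv'
          exact (ih v' v hv2).2 (hu v hv1)
        intro u u' hZ
        exact ⟨h1 u u' hZ, h1 u' u (hZ1 _ _ hZ)⟩
    exact World.ext fun φ => key φ u u' hZ

end

end MP91e814
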